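import Mathlib

set_option autoImplicit false

/-! Facts on relative indices of subgroups. -/

namespace Pool.Agent.LCUniv

open Topology Pointwise

section Alg

variable {G : Type*} [Group G]

/-- If `A ≤ B` have the same finite relative index with respect to `P` then `B ⊆ A P`. -/
lemma exists_mul_of_relIndex_eq {P A B : Subgroup G} (hAB : A ≤ B)
    (h0 : P.relIndex B ≠ 0) (h : P.relIndex B ≤ P.relIndex A) (x : G) (hx : x ∈ B) :
    ∃ l ∈ A, l⁻¹ * x ∈ P := by
  have hfin : Finite (B ⧸ P.subgroupOf B) := Nat.finite_of_card_ne_zero h0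
  let f := Subgroup.quotientSubgroupOfEmbeddingOfLE P hAB
  have hsurj : Function.Surjective f := by
    have hb : Function.Bijective f := by
      apply (Nat.bijective_iff_injective_and_card f).mpr
      refine ⟨f.injective, le_antisymm ?_ h⟩
      exact Nat.card_le_card_of_injective f f.injective
    exact hb.2
  obtain ⟨q, hq⟩ := hsurj (QuotientGroup.mk ⟨x, hx⟩)
  induction q using QuotientGroup.induction_on with
  | H l =>
    rw [Subgroup.quotientSubgroupOfEmbeddingOfLE_apply_mk] at hq
    refine ⟨l, l.2, ?_⟩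
    rw [QuotientGroup.eq] at hq
    simpa [Subgroup.mem_subgroupOf] using hq

/-- If `B ⊆ A P` then the index of `P` in `B` is at most the index of `P` in `A`. -/
lemma relIndex_le_of_mul {P A B : Subgroup G}
    (h0 : P.relIndex A ≠ 0) (h : ∀ x ∈ B, ∃ l ∈ A, l⁻¹ * x ∈ P) :
    P.relIndex B ≤ P.relIndex A := by
  have hfin : Finite (A ⧸ P.subgroupOf A) := Nat.finite_of_card_ne_zero h0
  choose! l hlA hlP using h
  let f : B ⧸ P.subgroupOf B → A ⧸ P.subgroupOf A := fun q =>
    QuotientGroup.mk ⟨l (q.out : G), hlA _ q.out.2⟩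
  apply Nat.card_le_card_of_injective f
  intro q r hqr
  simp only [f] at hqr
  rw [QuotientGroup.eq, Subgroup.mem_subgroupOf] at hqr
  rw [← QuotientGroup.out_eq' q, ← QuotientGroup.out_eq' r, QuotientGroup.eq,
    Subgroup.mem_subgroupOf]
  have h1 := hlP _ q.out.2
  have h2 := hlP _ r.out.2
  have h3 := P.mul_mem (P.mul_mem (P.inv_mem h1) hqr) h2
  simpa [mul_assoc] using h3

lemma relIndex_triangle (A B C : Subgroup G) (h : C.relIndex B ≠ 0) (h' : B.relIndex A ≠ 0) :
    C.relIndex A ≤ B.relIndex A * C.relIndex B := by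
  have h1 : C.relIndex (B ⊓ A) ≤ C.relIndex B := Subgroup.relIndex_le_of_le_right inf_le_left h
  have h1' : C.relIndex (B ⊓ A) ≠ 0 := fun h0 =>
    h (Subgroup.relIndex_eq_zero_of_le_right inf_le_left h0)
  have h2 : C.relIndex (B ⊓ A) * B.relIndex A = (C ⊓ B).relIndex A :=
    Subgroup.relIndex_inf_mul_relIndex _ _ _
  have h3 : (C ⊓ B).relIndex A ≠ 0 := by
    rw [← h2]; exact mul_ne_zero h1' h'
  calc C.relIndex A ≤ (C ⊓ B).relIndex A := Subgroup.relIndex_le_of_le_left inf_le_left h3
    _ = C.relIndex (B ⊓ A) * B.relIndex A := h2.symm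
    _ ≤ C.relIndex B * B.relIndex A := Nat.mul_le_mul_right _ h1
    _ = B.relIndex A * C.relIndex B := mul_comm _ _

end Alg

section Top

variable {G : Type*} [Group G] [TopologicalSpace G] [IsTopologicalGroup G]

lemma relIndex_ne_zero_of_compact_open {U V : Subgroup G} (hU : IsOpen (U : Set G))
    (hV : IsCompact (V : Set G)) : U.relIndex V ≠ 0 := by
  have hc : CompactSpace V := isCompact_iff_compactSpace.mp hV
  have ho : IsOpen ((U.subgroupOf V : Subgroup V) : Set V) := by
    have : ((U.subgroupOf V : Subgroup V) : Set V) = (Subtype.val : V → G) ⁻¹' (U : Set G) := by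
      ext x; simp [Subgroup.mem_subgroupOf]
    rw [this]
    exact hU.preimage continuous_subtype_val
  have hfin : Finite (V ⧸ U.subgroupOf V) := Subgroup.quotient_finite_of_isOpen _ ho
  exact Nat.card_pos.ne'

end Top

end Pool.Agent.LCUniv
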