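import Mathlib
import Pool.Agent.LCUniv.Rel

set_option autoImplicit false

/-! The algebraic half of the tidying procedure: subexponential growth of the index forces the
expanding part to be generated by the bounded part. -/

namespace Pool.Agent.LCUniv

open Pointwise

lemma nat_growth {a e D : ℕ} (h : ∀ k : ℕ, a ^ 2 ^ k ≤ D ^ (2 * k + 1) * e ^ 2 ^ k) : a ≤ e := by
  by_contra hlt
  push Not at hlt
  have ha : 0 < a := by omega
  have he : 0 < e := by
    rcases Nat.eq_zero_or_pos e with h0 | h0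
    · exfalso
      have := h 0
      rw [h0] at this
      simp at this
      omega
    · exact h0
  have hD : 0 < D := by
    rcases Nat.eq_zero_or_pos D with h0 | h0
    · exfalso
      have := h 0
      rw [h0] at this
      simp at this
      omega
    · exact h0
  have hr : (1 : ℝ) < (a : ℝ) / e := by
    rw [one_lt_div (by exact_mod_cast he)]
    exact_mod_cast hlt
  have hlog : 0 < Real.log ((a : ℝ) / e) := Real.log_pos hr
  have hk : ∀ k : ℕ, (2 : ℝ) ^ k * Real.log ((a : ℝ) / e) ≤ (2 * k + 1) * Real.log D := by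
    intro k
    have h1 : ((a : ℝ) / e) ^ 2 ^ k ≤ (D : ℝ) ^ (2 * k + 1) := by
      rw [div_pow, div_le_iff₀ (by positivity)]
      exact_mod_cast h k
    have h2 := Real.log_le_log (by positivity) h1
    rw [Real.log_pow, Real.log_pow] at h2
    push_cast at h2
    exact h2
  have ht : Filter.Tendsto (fun k : ℕ => (2 * (k : ℝ) + 1) * Real.log D / (2 : ℝ) ^ k)
      Filter.atTop (nhds 0) := by
    have h1 : Filter.Tendsto (fun k : ℕ => (k : ℝ) ^ 1 / (2 : ℝ) ^ k) Filter.atTop (nhds 0) :=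
      tendsto_pow_const_div_const_pow_of_one_lt 1 one_lt_two
    have h0 : Filter.Tendsto (fun k : ℕ => (k : ℝ) ^ 0 / (2 : ℝ) ^ k) Filter.atTop (nhds 0) :=
      tendsto_pow_const_div_const_pow_of_one_lt 0 one_lt_two
    have h2 := ((h1.const_mul 2).add h0).mul_const (Real.log D)
    have h3 : (2 * (0 : ℝ) + 0) * Real.log D = 0 := by ring
    rw [h3] at h2
    refine h2.congr ?_
    intro k
    ring
  have hev := (ht.eventually (gt_mem_nhds hlog)).exists
  obtain ⟨k, hk2⟩ := hev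
  rw [div_lt_iff₀ (by positivity)] at hk2
  have := hk k
  linarith

variable {G : Type*} [Group G]

lemma mem_pow_smul (β : MulAut G) (n : ℕ) (P : Subgroup G) (x : G) :
    x ∈ β ^ n • P ↔ (β ^ n)⁻¹ x ∈ P := by
  rw [Subgroup.mem_pointwise_smul_iff_inv_smul_mem]
  rfl

lemma mem_smul_iff (β : MulAut G) (P : Subgroup G) (x : G) :
    x ∈ β • P ↔ β⁻¹ x ∈ P := by
  rw [Subgroup.mem_pointwise_smul_iff_inv_smul_mem]
  rfl

lemma pow_smul_mono {β : MulAut G} {P : Subgroup G} (hP : P ≤ β • P) {m n : ℕ} (h : m ≤ n) :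
    β ^ m • P ≤ β ^ n • P := by
  induction n, h using Nat.le_induction with
  | base => exact le_rfl
  | succ n _ ih =>
    refine ih.trans ?_
    rw [pow_succ, mul_smul]
    exact Subgroup.pointwise_smul_le_pointwise_smul_iff.mpr hP

/-- The increasing union of the `β ^ n • P`. -/
def up (β : MulAut G) (P : Subgroup G) (hP : P ≤ β • P) : Subgroup G where
  carrier := {x | ∃ n : ℕ, x ∈ β ^ n • P}
  mul_mem' := by
    rintro x y ⟨n, hn⟩ ⟨m, hm⟩
    exact ⟨max n m, Subgroup.mul_mem _ (pow_smul_mono hP (le_max_left _ _) hn)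
      (pow_smul_mono hP (le_max_right _ _) hm)⟩
  one_mem' := ⟨0, Subgroup.one_mem _⟩
  inv_mem' := by
    rintro x ⟨n, hn⟩
    exact ⟨n, Subgroup.inv_mem _ hn⟩

lemma mem_up {β : MulAut G} {P : Subgroup G} (hP : P ≤ β • P) (x : G) :
    x ∈ up β P hP ↔ ∃ n : ℕ, x ∈ β ^ n • P := Iff.rfl

lemma map_mem_up {β : MulAut G} {P : Subgroup G} (hP : P ≤ β • P) {x : G}
    (hx : x ∈ up β P hP) : β x ∈ up β P hP := by
  obtain ⟨n, hn⟩ := hx
  refine ⟨n + 1, ?_⟩
  rw [pow_succ', mul_smul, mem_smul_iff]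
  simpa using hn

lemma inv_map_mem_up {β : MulAut G} {P : Subgroup G} (hP : P ≤ β • P) {x : G}
    (hx : x ∈ up β P hP) : β⁻¹ x ∈ up β P hP := by
  obtain ⟨n, hn⟩ := hx
  refine ⟨n, ?_⟩
  have h := pow_smul_mono hP (Nat.le_succ n) hn
  rw [Nat.succ_eq_add_one, pow_succ', mul_smul, mem_smul_iff] at h
  exact h

/-- The bounded part. -/
def bdd (β : MulAut G) (P M : Subgroup G) (hP : P ≤ β • P) (hM : M ≤ β⁻¹ • M) : Subgroup G :=
  up β P hP ⊓ up β⁻¹ M hM

section X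

variable {β : MulAut G} {P M : Subgroup G} (hP : P ≤ β • P) (hM : M ≤ β⁻¹ • M)

lemma map_mem_bdd {x : G} (hx : x ∈ bdd β P M hP hM) : β x ∈ bdd β P M hP hM := by
  refine ⟨map_mem_up hP hx.1, ?_⟩
  have h := inv_map_mem_up hM hx.2
  rwa [inv_inv] at h

lemma inv_map_mem_bdd {x : G} (hx : x ∈ bdd β P M hP hM) : β⁻¹ x ∈ bdd β P M hP hM :=
  ⟨inv_map_mem_up hP hx.1, map_mem_up hM hx.2⟩

lemma pow_map_mem_bdd (n : ℕ) {x : G} (hx : x ∈ bdd β P M hP hM) :
    (β ^ n) x ∈ bdd β P M hP hM := by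
  induction n with
  | zero => simpa using hx
  | succ n ih =>
    rw [pow_succ', MulAut.mul_apply]
    exact map_mem_bdd hP hM ih

lemma inv_pow_map_mem_bdd (n : ℕ) {x : G} (hx : x ∈ bdd β P M hP hM) :
    (β ^ n)⁻¹ x ∈ bdd β P M hP hM := by
  induction n with
  | zero => simpa using hx
  | succ n ih =>
    rw [pow_succ, mul_inv_rev, MulAut.mul_apply]
    exact inv_map_mem_bdd hP hM ih

lemma pow_smul_bdd (n : ℕ) : β ^ n • bdd β P M hP hM = bdd β P M hP hM := by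
  ext x
  rw [mem_pow_smul]
  constructor
  · intro h
    have := pow_map_mem_bdd hP hM n h
    simpa using this
  · intro h
    exact inv_pow_map_mem_bdd hP hM n h

omit M in
include hP in
lemma relIndex_pow (hfin : P.relIndex (β • P) ≠ 0) (n : ℕ) :
    P.relIndex (β ^ n • P) = P.relIndex (β • P) ^ n := by
  induction n with
  | zero => simp
  | succ n ih =>
    have h := Subgroup.relIndex_mul_relIndex P (β ^ n • P) (β ^ (n + 1) • P)
      (by simpa using pow_smul_mono hP (Nat.zero_le n)) (pow_smul_mono hP (Nat.le_succ n))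
    rw [← h, ih, pow_succ (P.relIndex (β • P)), pow_succ β, mul_smul,
      Subgroup.relIndex_pointwise_smul]

lemma relIndex_bdd_pow (n : ℕ) :
    (P ⊓ bdd β P M hP hM).relIndex (β ^ n • P ⊓ bdd β P M hP hM) =
      (P ⊓ bdd β P M hP hM).relIndex (β • P ⊓ bdd β P M hP hM) ^ n := by
  have hone : β • bdd β P M hP hM = bdd β P M hP hM := by
    simpa using pow_smul_bdd hP hM 1
  induction n with
  | zero => simp
  | succ n ih =>
    have hle1 : P ⊓ bdd β P M hP hM ≤ β ^ n • P ⊓ bdd β P M hP hM :=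
      inf_le_inf_right _ (by simpa using pow_smul_mono hP (Nat.zero_le n))
    have hle2 : β ^ n • P ⊓ bdd β P M hP hM ≤ β ^ (n + 1) • P ⊓ bdd β P M hP hM :=
      inf_le_inf_right _ (pow_smul_mono hP (Nat.le_succ n))
    have h := Subgroup.relIndex_mul_relIndex _ _ _ hle1 hle2
    rw [← h, ih, pow_succ ((P ⊓ bdd β P M hP hM).relIndex (β • P ⊓ bdd β P M hP hM))]
    congr 1
    have e1 : β ^ n • P ⊓ bdd β P M hP hM = β ^ n • (P ⊓ bdd β P M hP hM) := by
      rw [Subgroup.smul_inf, pow_smul_bdd]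
    have e2 : β ^ (n + 1) • P ⊓ bdd β P M hP hM = β ^ n • (β • P ⊓ bdd β P M hP hM) := by
      rw [Subgroup.smul_inf, pow_smul_bdd, pow_succ, mul_smul]
    rw [e1, e2, Subgroup.relIndex_pointwise_smul]

lemma bdd_relIndex_eq (n : ℕ) :
    P.relIndex (β ^ n • P ⊓ bdd β P M hP hM) =
      (P ⊓ bdd β P M hP hM).relIndex (β ^ n • P ⊓ bdd β P M hP hM) := by
  rw [← Subgroup.inf_relIndex_right P, ← Subgroup.inf_relIndex_right (P ⊓ bdd β P M hP hM)]
  congr 1
  ext x
  simp only [Subgroup.mem_inf]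
  tauto

/-- The one-sided growth lemma. -/
theorem growth_step {W : Subgroup G} (hPW : P ≤ W) (hMW : M ≤ W)
    (hW : ∀ x ∈ W, ∃ y ∈ P, ∃ z ∈ M, x = y * z) (hfin : P.relIndex (β • P) ≠ 0) (D : ℕ)
    (hgrow : ∀ k : ℕ, W.relIndex (β ^ 2 ^ k • W) ≤ D ^ (2 * k + 1))
    (hne : ∀ n : ℕ, W.relIndex (β ^ n • W) ≠ 0) (n : ℕ) (x : G) (hx : x ∈ β ^ n • P) :
    ∃ l ∈ bdd β P M hP hM, l⁻¹ * x ∈ P := by
  set L := bdd β P M hP hM with hL
  set a := P.relIndex (β • P) with ha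
  set e := (P ⊓ L).relIndex (β • P ⊓ L) with he
  have he' : P.relIndex (β • P ⊓ L) = e := by
    have := bdd_relIndex_eq hP hM 1
    rwa [pow_one] at this
  have hea : e ≠ 0 := by
    rw [← he']
    intro h0
    exact hfin (Subgroup.relIndex_eq_zero_of_le_right inf_le_left h0)
  have key : ∀ n : ℕ, a ^ n ≤ W.relIndex (β ^ n • W) * e ^ n := by
    intro n
    have hPn : P ≤ β ^ n • P := by simpa using pow_smul_mono hP (Nat.zero_le n)
    have h1 := Subgroup.relIndex_mul_relIndex P (β ^ n • P ⊓ W) (β ^ n • P)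
      (le_inf hPn hPW) inf_le_left
    have h2 : (β ^ n • P ⊓ W).relIndex (β ^ n • P) = W.relIndex (β ^ n • P) :=
      Subgroup.inf_relIndex_left _ _
    have h3 : W.relIndex (β ^ n • P) ≤ W.relIndex (β ^ n • W) :=
      Subgroup.relIndex_le_of_le_right
        (Subgroup.pointwise_smul_le_pointwise_smul_iff.mpr hPW) (hne n)
    have h4 : P.relIndex (β ^ n • P ⊓ L) = e ^ n := by
      rw [bdd_relIndex_eq, relIndex_bdd_pow]
    have h5 : P.relIndex (β ^ n • P ⊓ W) ≤ P.relIndex (β ^ n • P ⊓ L) := by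
      apply relIndex_le_of_mul
      · rw [h4]; exact pow_ne_zero _ hea
      · intro x hx
        obtain ⟨y, hy, z, hz, hxyz⟩ := hW x⁻¹ (W.inv_mem hx.2)
        have hxz : x * y = z⁻¹ := by
          have h6 : x * (y * z) = 1 := by rw [← hxyz, mul_inv_cancel]
          rw [eq_inv_iff_mul_eq_one, mul_assoc]
          exact h6
        refine ⟨z⁻¹, ⟨?_, ⟨n, ?_⟩, ⟨0, ?_⟩⟩, ?_⟩
        · rw [← hxz]; exact Subgroup.mul_mem _ hx.1 (hPn hy)
        · rw [← hxz]; exact Subgroup.mul_mem _ hx.1 (hPn hy)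
        · simpa using M.inv_mem hz
        · rw [← hxz]
          have : (x * y)⁻¹ * x = y⁻¹ := by group
          rw [this]
          exact P.inv_mem hy
    rw [relIndex_pow hP hfin n, h2] at h1
    rw [← h1]
    calc P.relIndex (β ^ n • P ⊓ W) * W.relIndex (β ^ n • P)
        ≤ e ^ n * W.relIndex (β ^ n • W) := Nat.mul_le_mul (h4 ▸ h5) h3
      _ = W.relIndex (β ^ n • W) * e ^ n := mul_comm _ _
  have hae : a ≤ e := by
    apply nat_growth (D := D)
    intro k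
    exact (key (2 ^ k)).trans (Nat.mul_le_mul_right _ (hgrow k))
  -- one step
  have one : ∀ x ∈ β • P, ∃ l ∈ L, l⁻¹ * x ∈ P := by
    intro x hx
    obtain ⟨l, hl, hlx⟩ := exists_mul_of_relIndex_eq (P := P) (A := β • P ⊓ L) (B := β • P)
      inf_le_left hfin (by rw [he']; exact hae) x hx
    exact ⟨l, hl.2, hlx⟩
  induction n generalizing x with
  | zero =>
    refine ⟨1, L.one_mem, ?_⟩
    simpa using hx
  | succ n ih =>
    rw [pow_succ, mul_smul, mem_pow_smul] at hx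
    obtain ⟨l, hl, hlx⟩ := one _ hx
    have h1 : (β ^ n) (l⁻¹ * (β ^ n)⁻¹ x) ∈ β ^ n • P := by
      rw [mem_pow_smul]
      simpa using hlx
    obtain ⟨l', hl', hlx'⟩ := ih _ h1
    refine ⟨(β ^ n) l * l', L.mul_mem (pow_map_mem_bdd hP hM n hl) hl', ?_⟩
    have e1 : (β ^ n) (l⁻¹ * (β ^ n)⁻¹ x) = ((β ^ n) l)⁻¹ * x := by
      rw [map_mul, map_inv]
      congr 1
      simp
    rw [e1] at hlx'
    rw [mul_inv_rev, mul_assoc]
    exact hlx'

/-- The bounded part is bounded. -/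
theorem bdd_bounded (hfin : P.relIndex (β • P) ≠ 0) :
    ∃ N : ℕ, ∀ l ∈ bdd β P M hP hM, ∃ m ∈ M, m⁻¹ * l ∈ β ^ N • P := by
  set L := bdd β P M hP hM with hL
  have he' : P.relIndex (β • P ⊓ L) ≠ 0 := by
    intro h0
    exact hfin (Subgroup.relIndex_eq_zero_of_le_right inf_le_left h0)
  have hfinite : Finite (↥(β • P ⊓ L) ⧸ P.subgroupOf (β • P ⊓ L)) :=
    Nat.finite_of_card_ne_zero he'
  have hq : ∀ q : (↥(β • P ⊓ L) ⧸ P.subgroupOf (β • P ⊓ L)), ∃ n : ℕ,
      ((q.out : ↥(β • P ⊓ L)) : G) ∈ β⁻¹ ^ n • M := fun q => q.out.2.2.2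
  choose nq hnq using hq
  obtain ⟨N, hN⟩ := (Set.finite_range nq).bddAbove
  -- the first statement
  have h1 : ∀ x ∈ β • P ⊓ L, ∃ m ∈ M, m⁻¹ * (β ^ N) x ∈ β ^ N • P ⊓ L := by
    intro x hx
    let q : (↥(β • P ⊓ L) ⧸ P.subgroupOf (β • P ⊓ L)) := QuotientGroup.mk ⟨x, hx⟩
    have hmem : ((q.out : ↥(β • P ⊓ L)) : G)⁻¹ * x ∈ P := by
      have := QuotientGroup.mk_out_eq_mul (P.subgroupOf (β • P ⊓ L)) ⟨x, hx⟩
      have h2 : QuotientGroup.mk (s := P.subgroupOf (β • P ⊓ L)) q.out = q :=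
        QuotientGroup.out_eq' q
      have h3 := QuotientGroup.eq.mp h2
      simpa [Subgroup.mem_subgroupOf] using h3
    have hle : nq q ≤ N := hN ⟨q, rfl⟩
    have h3 := pow_smul_mono hM hle (hnq q)
    rw [mem_pow_smul] at h3
    have h3' : (β ^ N) ((q.out : ↥(β • P ⊓ L)) : G) ∈ M := by
      have e : ((β⁻¹ ^ N)⁻¹ : MulAut G) = β ^ N := by simp
      rw [e] at h3
      exact h3
    refine ⟨_, h3', ?_⟩
    rw [← map_inv, ← map_mul]
    refine ⟨?_, ?_⟩
    · apply (mem_pow_smul β N P _).mpr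
      simpa using hmem
    · exact pow_map_mem_bdd hP hM N (L.mul_mem (L.inv_mem q.out.2.2) hx.2)
  have h2 : ∀ x ∈ β ^ (N + 1) • P ⊓ L, ∃ m ∈ M, m⁻¹ * x ∈ β ^ N • P ⊓ L := by
    intro x hx
    have hx' : (β ^ N)⁻¹ x ∈ β • P ⊓ L := by
      refine ⟨?_, inv_pow_map_mem_bdd hP hM N hx.2⟩
      have := hx.1
      rw [pow_succ, mul_smul] at this
      exact (mem_pow_smul β N (β • P) x).mp this
    obtain ⟨m, hm, hmx⟩ := h1 _ hx'
    refine ⟨m, hm, ?_⟩
    simpa using hmx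
  have hMn : ∀ j : ℕ, ∀ m ∈ M, (β ^ j) m ∈ M := by
    intro j m hm
    have h := pow_smul_mono hM (Nat.zero_le j) (by simpa using hm : m ∈ β⁻¹ ^ 0 • M)
    rw [mem_pow_smul] at h
    simpa using h
  have h3 : ∀ j : ℕ, ∀ x ∈ β ^ (N + j) • P ⊓ L, ∃ m ∈ M, m⁻¹ * x ∈ β ^ N • P ⊓ L := by
    intro j
    induction j with
    | zero =>
      intro x hx
      exact ⟨1, M.one_mem, by simpa using hx⟩
    | succ j ih =>
      intro x hx
      have hx' : (β ^ j)⁻¹ x ∈ β ^ (N + 1) • P ⊓ L := by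
        refine ⟨?_, inv_pow_map_mem_bdd hP hM j hx.2⟩
        have h4 := hx.1
        have e : N + (j + 1) = j + (N + 1) := by ring
        rw [e, pow_add, mul_smul] at h4
        exact (mem_pow_smul β j (β ^ (N + 1) • P) x).mp h4
      obtain ⟨m, hm, hmx⟩ := h2 _ hx'
      have h5 : ((β ^ j) m)⁻¹ * x ∈ β ^ (N + j) • P ⊓ L := by
        have e1 : ((β ^ j) m)⁻¹ * x = (β ^ j) (m⁻¹ * (β ^ j)⁻¹ x) := by
          rw [map_mul, map_inv]
          congr 1
          simp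
        rw [e1]
        refine ⟨?_, pow_map_mem_bdd hP hM j hmx.2⟩
        rw [Nat.add_comm N j, pow_add, mul_smul]
        apply (mem_pow_smul β j (β ^ N • P) _).mpr
        have e2 : (β ^ j)⁻¹ ((β ^ j) (m⁻¹ * (β ^ j)⁻¹ x)) = m⁻¹ * (β ^ j)⁻¹ x := by simp
        rw [e2]
        exact hmx.1
      obtain ⟨m', hm', hmx'⟩ := ih _ h5
      refine ⟨(β ^ j) m * m', M.mul_mem (hMn j m hm) hm', ?_⟩
      rw [mul_inv_rev, mul_assoc]
      exact hmx'
  refine ⟨N, ?_⟩
  intro l hl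
  obtain ⟨n, hn⟩ := hl.1
  obtain ⟨m, hm, hml⟩ := h3 n l ⟨pow_smul_mono hP (Nat.le_add_left n N) hn, hl⟩
  exact ⟨m, hm, hml.1⟩

end X

end Pool.Agent.LCUniv
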