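import Mathlib
import Pool.Agent.LCUniv.Growth

set_option autoImplicit false

/-! The topological half of the tidying procedure. -/

namespace Pool.Agent.LCUniv

open Topology Pointwise

section Defs

variable {G : Type*} [Group G]

/-- Intersection of the first translates. -/
def Vn (α : MulAut G) (V : Subgroup G) (n : ℕ) : Subgroup G where
  carrier := {x | ∀ i ≤ n, (α ^ i)⁻¹ x ∈ V}
  mul_mem' := by
    intro x y hx hy i hi
    rw [map_mul]
    exact V.mul_mem (hx i hi) (hy i hi)
  one_mem' := by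
    intro i _
    rw [map_one]
    exact V.one_mem
  inv_mem' := by
    intro x hx i hi
    rw [map_inv]
    exact V.inv_mem (hx i hi)

lemma mem_Vn {α : MulAut G} {V : Subgroup G} {n : ℕ} {x : G} :
    x ∈ Vn α V n ↔ ∀ i ≤ n, (α ^ i)⁻¹ x ∈ V := Iff.rfl

/-- Elements whose forward orbit stays in `W`. -/
def stay (α : MulAut G) (W : Subgroup G) : Subgroup G where
  carrier := {x | ∀ n : ℕ, (α ^ n) x ∈ W}
  mul_mem' := by
    intro x y hx hy i
    rw [map_mul]
    exact W.mul_mem (hx i) (hy i)
  one_mem' := by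
    intro i
    rw [map_one]
    exact W.one_mem
  inv_mem' := by
    intro x hx i
    rw [map_inv]
    exact W.inv_mem (hx i)

lemma mem_stay {α : MulAut G} {W : Subgroup G} {x : G} :
    x ∈ stay α W ↔ ∀ n : ℕ, (α ^ n) x ∈ W := Iff.rfl

lemma mem_stay_inv {α : MulAut G} {W : Subgroup G} {x : G} :
    x ∈ stay α⁻¹ W ↔ ∀ n : ℕ, (α ^ n)⁻¹ x ∈ W := by
  rw [mem_stay]
  simp only [inv_pow]

lemma stay_le (α : MulAut G) (W : Subgroup G) : stay α W ≤ W := by
  intro x hx
  simpa using hx 0

lemma stay_le_smul (α : MulAut G) (W : Subgroup G) : stay α⁻¹ W ≤ α • stay α⁻¹ W := by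
  intro x hx
  rw [mem_smul_iff, mem_stay]
  intro n
  have := hx (n + 1)
  rwa [pow_succ, MulAut.mul_apply] at this

lemma stay_le_smul' (α : MulAut G) (W : Subgroup G) : stay α W ≤ α⁻¹ • stay α W := by
  have := stay_le_smul α⁻¹ W
  rwa [inv_inv] at this

end Defs

variable {G : Type*} [Group G] [TopologicalSpace G] [IsTopologicalGroup G] [T2Space G]

theorem tidy_above (α : MulAut G) (hc : ∀ n : ℕ, Continuous (α ^ n))
    (hc' : ∀ n : ℕ, Continuous ((α ^ n)⁻¹ : MulAut G)) (V : Subgroup G)
    (hVo : IsOpen (V : Set G)) (hVc : IsCompact (V : Set G)) :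
    ∃ W : Subgroup G, W ≤ V ∧ IsOpen (W : Set G) ∧ IsCompact (W : Set G) ∧
      ∀ x ∈ W, ∃ y ∈ stay α⁻¹ W, ∃ z ∈ stay α W, x = y * z := by
  have hVcl : IsClosed (V : Set G) := hVc.isClosed
  have hopen : ∀ n, IsOpen (Vn α V n : Set G) := by
    intro n
    have : (Vn α V n : Set G) = ⋂ i ∈ Finset.range (n + 1), ((α ^ i)⁻¹ : MulAut G) ⁻¹' (V : Set G) := by
      ext x
      simp only [SetLike.mem_coe, mem_Vn, Set.mem_iInter, Finset.mem_range, Set.mem_preimage,
        Nat.lt_succ_iff]
    rw [this]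
    exact isOpen_biInter_finset fun i _ => hVo.preimage (hc' i)
  have hle0 : ∀ n, Vn α V n ≤ V := by
    intro n x hx
    simpa using hx 0 (Nat.zero_le n)
  have hclosed : ∀ n, IsClosed (Vn α V n : Set G) := fun n => Subgroup.isClosed_of_isOpen _ (hopen n)
  have hcomp : ∀ n, IsCompact (Vn α V n : Set G) := fun n =>
    hVc.of_isClosed_subset (hclosed n) (hle0 n)
  have hanti : ∀ {m n : ℕ}, m ≤ n → Vn α V n ≤ Vn α V m := fun h x hx i hi => hx i (hi.trans h)
  let a : ℕ → ℕ := fun n => V.relIndex (α • Vn α V n)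
  have hcompα : ∀ H : Subgroup G, IsCompact (H : Set G) → IsCompact ((α • H : Subgroup G) : Set G) := by
    intro H hH
    have h1 : ((α • H : Subgroup G) : Set G) = α '' (H : Set G) := rfl
    rw [h1]
    exact hH.image (by simpa using hc 1)
  have ha0 : ∀ n, a n ≠ 0 := fun n => relIndex_ne_zero_of_compact_open hVo (hcompα _ (hcomp n))
  obtain ⟨m, hm⟩ : ∃ m, ∀ n, a m ≤ a n :=
    ⟨Function.argmin a, fun n => Function.argmin_le a n⟩
  let W := Vn α V m
  -- the first claim
  have TA : ∀ x, α⁻¹ x ∈ W → ∃ y, α⁻¹ y ∈ stay α⁻¹ W ∧ y⁻¹ * x ∈ W := by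
    intro x hx
    let K : ℕ → Set G := fun n => {y | α⁻¹ y ∈ Vn α V (m + n) ∧ y⁻¹ * x ∈ W}
    have hK : (⋂ n, K n).Nonempty := by
      apply IsCompact.nonempty_iInter_of_sequence_nonempty_isCompact_isClosed
      · intro i y hy
        exact ⟨hanti (by omega) hy.1, hy.2⟩
      · intro n
        obtain ⟨l, hl, hlx⟩ := exists_mul_of_relIndex_eq (P := V) (A := α • Vn α V (m + n))
          (B := α • W) (Subgroup.pointwise_smul_le_pointwise_smul_iff.mpr (hanti (by omega)))
          (ha0 m) (hm (m + n)) x ((mem_smul_iff _ _ _).mpr hx)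
        refine ⟨l, (mem_smul_iff _ _ _).mp hl, ?_⟩
        have h1 : α⁻¹ (l⁻¹ * x) ∈ W := by
          rw [map_mul, map_inv]
          exact W.mul_mem (W.inv_mem (hanti (by omega) ((mem_smul_iff _ _ _).mp hl))) hx
        intro i hi
        rcases Nat.eq_zero_or_pos i with h0 | h0
        · rw [h0]; simpa using hlx
        · have h2 := h1 (i - 1) (by omega)
          rw [← MulAut.mul_apply, ← mul_inv_rev, ← pow_succ'] at h2
          rwa [Nat.sub_add_cancel h0] at h2
      · have hsub : K 0 ⊆ ((α • W : Subgroup G) : Set G) := by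
          intro y hy
          exact (mem_smul_iff _ _ _).mpr hy.1
        refine (hcompα W (hcomp m)).of_isClosed_subset ?_ hsub
        have h1 : K 0 = (α⁻¹ : MulAut G) ⁻¹' (Vn α V (m + 0) : Set G) ∩
            (fun y => y⁻¹ * x) ⁻¹' (W : Set G) := rfl
        rw [h1]
        exact ((hclosed _).preimage (by simpa using hc' 1)).inter
          ((hclosed m).preimage (by fun_prop))
      · intro n
        have h1 : K n = (α⁻¹ : MulAut G) ⁻¹' (Vn α V (m + n) : Set G) ∩
            (fun y => y⁻¹ * x) ⁻¹' (W : Set G) := rfl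
        rw [h1]
        exact ((hclosed _).preimage (by simpa using hc' 1)).inter
          ((hclosed m).preimage (by fun_prop))
    obtain ⟨y, hy⟩ := hK
    rw [Set.mem_iInter] at hy
    refine ⟨y, ?_, (hy 0).2⟩
    rw [mem_stay_inv]
    intro n i hi
    have := (hy n).1 (n + i) (by omega)
    rw [pow_add, mul_inv_rev, MulAut.mul_apply] at this
    exact this
  refine ⟨W, hle0 m, hopen m, hcomp m, ?_⟩
  intro x hx
  have hplus : IsCompact ((stay α⁻¹ W : Subgroup G) : Set G) := by
    refine (hcomp m).of_isClosed_subset ?_ (stay_le _ _)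
    have h1 : ((stay α⁻¹ W : Subgroup G) : Set G) = ⋂ n : ℕ, ((α ^ n)⁻¹ : MulAut G) ⁻¹' (W : Set G) := by
      ext x
      simp only [SetLike.mem_coe, mem_stay_inv, Set.mem_iInter, Set.mem_preimage]
    rw [h1]
    exact isClosed_iInter fun n => (hclosed m).preimage (hc' n)
  let Y : ℕ → Set G := fun n => {y | y ∈ stay α⁻¹ W ∧ ∀ j ≤ n, (α ^ j) (y⁻¹ * x) ∈ W}
  have hYclosed : ∀ n, IsClosed (Y n) := by
    intro n
    have h1 : Y n = ((stay α⁻¹ W : Subgroup G) : Set G) ∩
        ⋂ j ∈ Finset.range (n + 1), (fun y => (α ^ j) (y⁻¹ * x)) ⁻¹' (W : Set G) := by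
      ext y
      simp only [Y, Set.mem_ofPred_eq, Set.mem_inter_iff, SetLike.mem_coe, Set.mem_iInter,
        Finset.mem_range, Set.mem_preimage, Nat.lt_succ_iff]
    rw [h1]
    refine hplus.isClosed.inter ?_
    refine isClosed_biInter fun j _ => (hclosed m).preimage ?_
    exact (hc j).comp (by fun_prop)
  have hY : (⋂ n, Y n).Nonempty := by
    apply IsCompact.nonempty_iInter_of_sequence_nonempty_isCompact_isClosed
    · intro i y hy
      exact ⟨hy.1, fun j hj => hy.2 j (by omega)⟩
    · intro n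
      induction n with
      | zero =>
        refine ⟨1, Subgroup.one_mem _, ?_⟩
        intro j hj
        obtain rfl : j = 0 := by omega
        simpa using hx
      | succ n ih =>
        obtain ⟨y, hy, hyn⟩ := ih
        obtain ⟨u, hu, hux⟩ := TA ((α ^ (n + 1)) (y⁻¹ * x)) (by
          rw [pow_succ', MulAut.mul_apply]
          simpa using hyn n le_rfl)
        rw [mem_stay_inv] at hu
        refine ⟨y * (α ^ (n + 1))⁻¹ u, Subgroup.mul_mem _ hy ?_, ?_⟩
        · rw [mem_stay_inv]
          intro i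
          have := hu (i + n)
          rw [← MulAut.mul_apply, ← mul_inv_rev] at this ⊢
          convert this using 3
          rw [← pow_succ', ← pow_add]
          congr 1
          ring
        · intro j hj
          have e1 : (y * (α ^ (n + 1))⁻¹ u)⁻¹ * x = ((α ^ (n + 1))⁻¹ u)⁻¹ * (y⁻¹ * x) := by group
          rw [e1, map_mul, map_inv]
          rcases Nat.lt_or_ge j (n + 1) with hlt | hge
          · refine W.mul_mem (W.inv_mem ?_) (hyn j (by omega))
            have h3 := hu (n - j)
            have e2 : α ^ (n + 1) = α * α ^ (n - j) * α ^ j := by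
              rw [← pow_succ', ← pow_add]
              congr 1
              omega
            rw [← MulAut.mul_apply, e2, mul_inv_rev, mul_inv_rev, mul_inv_cancel_left,
              MulAut.mul_apply]
            exact h3
          · obtain rfl : j = n + 1 := by omega
            simpa using hux
    · exact hplus.of_isClosed_subset (hYclosed 0) fun y hy => hy.1
    · exact hYclosed
  obtain ⟨y, hy⟩ := hY
  rw [Set.mem_iInter] at hy
  refine ⟨y, (hy 0).1, y⁻¹ * x, ?_, by group⟩
  intro n
  exact (hy n).2 n le_rfl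

end Pool.Agent.LCUniv
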