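import Mathlib
import Pool.Agent.LCUniv.Tidy

set_option autoImplicit false

/-! If `t s t⁻¹ = s ^ 2` then the powers of `s` conjugate a compact open subgroup boundedly. -/

namespace Pool.Agent.LCUniv

open Topology Pointwise

section Alg

variable {G : Type*} [Group G]

lemma relIndex_le_card {P B : Subgroup G} (F : Finset G) (h : ∀ x ∈ B, ∃ f ∈ F, f⁻¹ * x ∈ P) :
    P.relIndex B ≤ F.card := by
  choose! l hlF hlP using h
  let f : B ⧸ P.subgroupOf B → F := fun q => ⟨l (q.out : G), hlF _ q.out.2⟩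
  have hf : Function.Injective f := by
    intro q r hqr
    have h1 : l (q.out : G) = l (r.out : G) := congrArg Subtype.val hqr
    rw [← QuotientGroup.out_eq' q, ← QuotientGroup.out_eq' r, QuotientGroup.eq,
      Subgroup.mem_subgroupOf]
    have h2 := hlP _ q.out.2
    have h3 := hlP _ r.out.2
    rw [h1] at h2
    have h4 := P.mul_mem (P.inv_mem h2) h3
    have h5 : ((l (r.out : G))⁻¹ * (q.out : G))⁻¹ * ((l (r.out : G))⁻¹ * (r.out : G)) =
        (q.out : G)⁻¹ * (r.out : G) := by group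
    rw [h5] at h4
    exact h4
  have := Nat.card_le_card_of_injective f hf
  rw [Nat.card_eq_fintype_card (α := {x // x ∈ F}), Fintype.card_coe] at this
  exact this

lemma pow_conj_eq {s t : G} (h : t * s * t⁻¹ = s ^ 2) (k : ℕ) : s ^ 2 ^ k = t ^ k * s * (t ^ k)⁻¹ := by
  induction k with
  | zero => simp
  | succ k ih =>
    have h1 : s ^ 2 ^ (k + 1) = (s ^ 2) ^ 2 ^ k := by
      rw [← pow_mul]
      congr 1
      ring
    have h2 : (t * s * t⁻¹) ^ 2 ^ k = t * s ^ 2 ^ k * t⁻¹ := by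
      rw [← MulAut.conj_apply, ← map_pow, MulAut.conj_apply]
    rw [h1, ← h, h2, ih, pow_succ']
    group

end Alg

variable {G : Type*} [Group G] [TopologicalSpace G] [IsTopologicalGroup G] [T2Space G]

omit [T2Space G] in
lemma isOpen_smul_conj {W : Subgroup G} (hW : IsOpen (W : Set G)) (g : G) :
    IsOpen ((MulAut.conj g • W : Subgroup G) : Set G) := by
  have h1 : ((MulAut.conj g • W : Subgroup G) : Set G) =
      (fun x => g⁻¹ * x * g) ⁻¹' (W : Set G) := by
    ext x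
    simp only [SetLike.mem_coe, mem_smul_iff, Set.mem_preimage]
    rw [← map_inv, MulAut.conj_apply, inv_inv]
  rw [h1]
  exact hW.preimage (by fun_prop)

omit [T2Space G] in
lemma isCompact_smul_conj {W : Subgroup G} (hW : IsCompact (W : Set G)) (g : G) :
    IsCompact ((MulAut.conj g • W : Subgroup G) : Set G) := by
  have h1 : ((MulAut.conj g • W : Subgroup G) : Set G) = (fun x => g * x * g⁻¹) '' (W : Set G) := by
    ext x
    rfl
  rw [h1]
  exact hW.image (by fun_prop)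

omit [T2Space G] in
lemma conj_mul_le {W : Subgroup G} (hWo : IsOpen (W : Set G)) (hWc : IsCompact (W : Set G))
    (g h : G) : W.relIndex (MulAut.conj (g * h) • W) ≤
      W.relIndex (MulAut.conj g • W) * W.relIndex (MulAut.conj h • W) := by
  have h1 := relIndex_triangle (MulAut.conj (g * h) • W) (MulAut.conj g • W) W
    (relIndex_ne_zero_of_compact_open hWo (isCompact_smul_conj hWc g))
    (relIndex_ne_zero_of_compact_open (isOpen_smul_conj hWo g) (isCompact_smul_conj hWc _))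
  rw [map_mul, mul_smul, Subgroup.relIndex_pointwise_smul] at h1
  rw [map_mul, mul_smul, mul_comm (W.relIndex (MulAut.conj g • W))]
  exact h1

omit [T2Space G] in
lemma conj_growth {W : Subgroup G} (hWo : IsOpen (W : Set G)) (hWc : IsCompact (W : Set G))
    {s t : G} (h : t * s * t⁻¹ = s ^ 2) :
    ∃ D : ℕ, ∀ k : ℕ, W.relIndex (MulAut.conj s ^ 2 ^ k • W) ≤ D ^ (2 * k + 1) := by
  let c : G → ℕ := fun g => W.relIndex (MulAut.conj g • W)
  have hc0 : ∀ g, 1 ≤ c g := fun g => Nat.one_le_iff_ne_zero.mpr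
    (relIndex_ne_zero_of_compact_open hWo (isCompact_smul_conj hWc g))
  have hcm : ∀ g h, c (g * h) ≤ c g * c h := conj_mul_le hWo hWc
  have hcp : ∀ g k, c (g ^ k) ≤ c g ^ k := by
    intro g k
    induction k with
    | zero => simp [c]
    | succ k ih =>
      rw [pow_succ, pow_succ]
      exact (hcm _ _).trans (Nat.mul_le_mul_right _ ih)
  let D := c t * c s * c t⁻¹
  have hD1 : c t ≤ D := by
    calc c t = c t * 1 * 1 := by ring
      _ ≤ c t * c s * c t⁻¹ := Nat.mul_le_mul (Nat.mul_le_mul_left _ (hc0 _)) (hc0 _)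
  have hD2 : c s ≤ D := by
    calc c s = 1 * c s * 1 := by ring
      _ ≤ c t * c s * c t⁻¹ := Nat.mul_le_mul (Nat.mul_le_mul_right _ (hc0 _)) (hc0 _)
  have hD3 : c t⁻¹ ≤ D := by
    calc c t⁻¹ = 1 * 1 * c t⁻¹ := by ring
      _ ≤ c t * c s * c t⁻¹ := Nat.mul_le_mul_right _ (Nat.mul_le_mul (hc0 _) (hc0 _))
  refine ⟨D, fun k => ?_⟩
  have e1 : W.relIndex (MulAut.conj s ^ 2 ^ k • W) = c (s ^ 2 ^ k) := by
    simp only [c, map_pow]
  rw [e1, pow_conj_eq h k]
  calc c (t ^ k * s * (t ^ k)⁻¹) ≤ c (t ^ k * s) * c ((t ^ k)⁻¹) := hcm _ _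
    _ ≤ (c (t ^ k) * c s) * c ((t⁻¹) ^ k) := by
        rw [inv_pow]
        exact Nat.mul_le_mul_right _ (hcm _ _)
    _ ≤ (D ^ k * D) * D ^ k := by
        refine Nat.mul_le_mul (Nat.mul_le_mul ?_ hD2) ?_
        · exact (hcp _ _).trans (Nat.pow_le_pow_left hD1 _)
        · exact (hcp _ _).trans (Nat.pow_le_pow_left hD3 _)
    _ = D ^ (2 * k + 1) := by ring

theorem conj_bounded {V : Subgroup G} (hVo : IsOpen (V : Set G)) (hVc : IsCompact (V : Set G))
    {s t : G} (h : t * s * t⁻¹ = s ^ 2) :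
    ∃ B : ℕ, ∀ k : ℤ, V.relIndex (MulAut.conj (s ^ k) • V) ≤ B := by
  set α := MulAut.conj s with hα
  have hc : ∀ n : ℕ, Continuous (α ^ n) := by
    intro n
    have : (⇑(α ^ n) : G → G) = fun x => s ^ n * x * (s ^ n)⁻¹ := by
      funext x
      rw [hα, ← map_pow, MulAut.conj_apply]
    rw [this]
    fun_prop
  have hc' : ∀ n : ℕ, Continuous ((α ^ n)⁻¹ : MulAut G) := by
    intro n
    have : (⇑((α ^ n)⁻¹ : MulAut G) : G → G) = fun x => (s ^ n)⁻¹ * x * s ^ n := by
      funext x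
      rw [hα, ← map_pow, ← map_inv, MulAut.conj_apply, inv_inv]
    rw [this]
    fun_prop
  obtain ⟨W, hWV, hWo, hWc, hW⟩ := tidy_above α hc hc' V hVo hVc
  have hWcl : IsClosed (W : Set G) := hWc.isClosed
  set P := stay α⁻¹ W with hP
  set M := stay α W with hM
  have hPW : P ≤ W := stay_le _ _
  have hMW : M ≤ W := stay_le _ _
  have hPs : P ≤ α • P := stay_le_smul α W
  have hMs : M ≤ α⁻¹ • M := stay_le_smul' α W
  have hPc : IsCompact (P : Set G) := by
    refine hWc.of_isClosed_subset ?_ hPW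
    have h1 : (P : Set G) = ⋂ n : ℕ, ((α ^ n)⁻¹ : MulAut G) ⁻¹' (W : Set G) := by
      ext x
      simp only [hP, SetLike.mem_coe, mem_stay_inv, Set.mem_iInter, Set.mem_preimage]
    rw [h1]
    exact isClosed_iInter fun n => hWcl.preimage (hc' n)
  have hMc : IsCompact (M : Set G) := by
    refine hWc.of_isClosed_subset ?_ hMW
    have h1 : (M : Set G) = ⋂ n : ℕ, (α ^ n : MulAut G) ⁻¹' (W : Set G) := by
      ext x
      simp only [hM, SetLike.mem_coe, mem_stay, Set.mem_iInter, Set.mem_preimage]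
    rw [h1]
    exact isClosed_iInter fun n => hWcl.preimage (hc n)
  have hαinv : α⁻¹ = MulAut.conj s⁻¹ := by rw [hα, map_inv]
  have hPfin : P.relIndex (α • P) ≠ 0 := by
    have h1 : W.relIndex (α • P) ≠ 0 :=
      relIndex_ne_zero_of_compact_open hWo (isCompact_smul_conj hPc s)
    have h2 : W ⊓ α • P ≤ P := by
      intro x hx
      rw [hP, mem_stay_inv]
      intro n
      rcases n with _ | n
      · simpa using hx.1
      · have h3 := (mem_smul_iff α P x).mp hx.2
        rw [hP, mem_stay_inv] at h3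
        have := h3 n
        rwa [← MulAut.mul_apply, ← mul_inv_rev, ← pow_succ'] at this
    have h3 : (W ⊓ α • P).relIndex (α • P) ≠ 0 := by
      rw [Subgroup.inf_relIndex_right]; exact h1
    intro h0
    exact h3 (Subgroup.relIndex_eq_zero_of_le_left h2 h0)
  have hMfin : M.relIndex (α⁻¹ • M) ≠ 0 := by
    have h1 : W.relIndex (α⁻¹ • M) ≠ 0 := by
      rw [hαinv]
      exact relIndex_ne_zero_of_compact_open hWo (isCompact_smul_conj hMc s⁻¹)
    have h2 : W ⊓ α⁻¹ • M ≤ M := by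
      intro x hx
      rw [hM, mem_stay]
      intro n
      rcases n with _ | n
      · simpa using hx.1
      · have h3 := (mem_smul_iff α⁻¹ M x).mp hx.2
        rw [inv_inv, hM, mem_stay] at h3
        have := h3 n
        rwa [← MulAut.mul_apply, ← pow_succ] at this
    have h3 : (W ⊓ α⁻¹ • M).relIndex (α⁻¹ • M) ≠ 0 := by
      rw [Subgroup.inf_relIndex_right]; exact h1
    intro h0
    exact h3 (Subgroup.relIndex_eq_zero_of_le_left h2 h0)
  have hW' : ∀ x ∈ W, ∃ y ∈ M, ∃ z ∈ P, x = y * z := by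
    intro x hx
    obtain ⟨y, hy, z, hz, hxyz⟩ := hW x⁻¹ (W.inv_mem hx)
    refine ⟨z⁻¹, M.inv_mem hz, y⁻¹, P.inv_mem hy, ?_⟩
    rw [← mul_inv_rev, ← hxyz, inv_inv]
  obtain ⟨D, hD⟩ := conj_growth hWo hWc h
  have hs' : t * s⁻¹ * t⁻¹ = s⁻¹ ^ 2 := by
    rw [inv_pow, ← h]
    group
  obtain ⟨D', hD'⟩ := conj_growth hWo hWc hs'
  have hne : ∀ n : ℕ, W.relIndex (α ^ n • W) ≠ 0 := by
    intro n
    rw [hα, ← map_pow]
    exact relIndex_ne_zero_of_compact_open hWo (isCompact_smul_conj hWc _)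
  have hne' : ∀ n : ℕ, W.relIndex (α⁻¹ ^ n • W) ≠ 0 := by
    intro n
    rw [hαinv, ← map_pow]
    exact relIndex_ne_zero_of_compact_open hWo (isCompact_smul_conj hWc _)
  have X1 := fun n x hx => growth_step hPs hMs hPW hMW hW hPfin D hD hne n x hx
  have hPs' : P ≤ (α⁻¹)⁻¹ • P := by rwa [inv_inv]
  have X2 := fun n x hx => growth_step (β := α⁻¹) (P := M) (M := P) hMs hPs' hMW hPW hW' hMfin D'
    (by rw [hαinv]; exact hD') hne' n x hx
  have hL : bdd α⁻¹ M P hMs hPs' = bdd α P M hPs hMs := by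
    ext x
    have e : ∀ (β : MulAut G) (hβ : β = α) (h1 : P ≤ β • P), x ∈ up β P h1 ↔ x ∈ up α P hPs := by
      intro β hβ h1
      subst hβ
      rfl
    constructor
    · intro hx
      exact ⟨(e _ (inv_inv α) hPs').mp hx.2, hx.1⟩
    · intro hx
      exact ⟨hx.2, (e _ (inv_inv α) hPs').mpr hx.1⟩
  set L := bdd α P M hPs hMs with hLdef
  obtain ⟨N, hN⟩ := bdd_bounded hPs hMs hPfin
  -- all conjugates are in `L W`
  have key : ∀ k : ℤ, ∀ x ∈ MulAut.conj (s ^ k) • W, ∃ l ∈ L, l⁻¹ * x ∈ W := by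
    intro k x hx
    rw [mem_smul_iff] at hx
    obtain ⟨n, rfl | rfl⟩ := k.eq_nat_or_neg
    · rw [zpow_natCast, map_pow, ← hα] at hx
      obtain ⟨y, hy, z, hz, hyz⟩ := hW _ hx
      have hx' : x = (α ^ n) y * (α ^ n) z := by
        rw [← map_mul, ← hyz]
        simp
      obtain ⟨l, hl, hly⟩ := X1 n ((α ^ n) y) (by rw [mem_pow_smul]; simpa using hy)
      refine ⟨l, hl, ?_⟩
      rw [hx', ← mul_assoc]
      exact W.mul_mem (hPW hly) (hz n)
    · rw [zpow_neg, zpow_natCast, map_inv, inv_inv, map_pow, ← hα] at hx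
      obtain ⟨y, hy, z, hz, hyz⟩ := hW' _ hx
      have hx' : x = (α ^ n)⁻¹ y * (α ^ n)⁻¹ z := by
        rw [← map_mul, ← hyz]
        simp
      have hmem : (α ^ n)⁻¹ y ∈ α⁻¹ ^ n • M := by
        rw [mem_pow_smul]
        simpa using hy
      obtain ⟨l, hl, hly⟩ := X2 n _ hmem
      rw [hL] at hl
      refine ⟨l, hl, ?_⟩
      rw [hx', ← mul_assoc]
      exact W.mul_mem (hMW hly) (mem_stay_inv.mp hz n)
  -- the compact set
  let X : Set G := (W : Set G) * (((α ^ N • P : Subgroup G) : Set G) * (W : Set G))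
  have hXc : IsCompact X := by
    refine hWc.mul (IsCompact.mul ?_ hWc)
    rw [hα, ← map_pow]
    exact isCompact_smul_conj hPc _
  obtain ⟨F, hF⟩ : ∃ F : Finset G, ∀ x ∈ X, ∃ f ∈ F, f⁻¹ * x ∈ W := by
    obtain ⟨F, hF⟩ := hXc.elim_finite_subcover (fun g : G => (fun x => g⁻¹ * x) ⁻¹' (W : Set G))
      (fun g => hWo.preimage (by fun_prop)) (fun x _ => Set.mem_iUnion.mpr ⟨x, by simp [W.one_mem]⟩)
    refine ⟨F, fun x hx => ?_⟩
    have := hF hx
    simp only [Set.mem_iUnion] at this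
    obtain ⟨f, hf, hfx⟩ := this
    exact ⟨f, hf, hfx⟩
  have hWk : ∀ k : ℤ, W.relIndex (MulAut.conj (s ^ k) • W) ≤ F.card := by
    intro k
    apply relIndex_le_card
    intro x hx
    obtain ⟨l, hl, hlx⟩ := key k x hx
    obtain ⟨m, hm, hml⟩ := hN l hl
    apply hF
    refine ⟨m, hMW hm, m⁻¹ * x, ⟨m⁻¹ * l, hml, l⁻¹ * x, hlx, by group⟩, by group⟩
  refine ⟨W.relIndex V * F.card, fun k => ?_⟩
  have h0 : W.relIndex (MulAut.conj (s ^ k) • W) ≠ 0 :=
    relIndex_ne_zero_of_compact_open hWo (isCompact_smul_conj hWc _)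
  have h1 := relIndex_triangle (MulAut.conj (s ^ k) • V) (MulAut.conj (s ^ k) • W) V
    (relIndex_ne_zero_of_compact_open hVo (isCompact_smul_conj hWc _))
    (relIndex_ne_zero_of_compact_open (isOpen_smul_conj hWo _) (isCompact_smul_conj hVc _))
  rw [Subgroup.relIndex_pointwise_smul] at h1
  refine h1.trans (Nat.mul_le_mul_left _ ?_)
  exact (Subgroup.relIndex_le_of_le_left hWV h0).trans (hWk k)

end Pool.Agent.LCUniv
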