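import Mathlib

set_option autoImplicit false

/-! Countable groups used to obstruct embeddings into second countable locally compact groups. -/

namespace Pool.Agent.LCUniv

open Equiv

/-- The subgroup generated by a countable set is countable. -/
lemma countable_closure {G : Type*} [Group G] {s : Set G} (hs : s.Countable) :
    Countable (Subgroup.closure s) := by
  have : Countable s := hs.to_subtype
  have h : (FreeGroup.lift (Subtype.val : s → G)).range = Subgroup.closure s := by
    rw [FreeGroup.range_lift_eq_closure]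
    simp
  rw [← h]
  exact Function.Surjective.countable
    (f := (FreeGroup.lift (Subtype.val : s → G)).rangeRestrict)
    (MonoidHom.rangeRestrict_surjective _)

/-! ### The groups `K_J` -/

/-- The block permutation of copy `n`. -/
noncomputable def kbBlock (J : Set ℕ) (n : ℕ) : Perm ℤ :=
  open scoped Classical in if n ∈ J then 1 else Equiv.swap 0 (n : ℤ)

/-- shift -/
def ka : Perm (ℕ × ℤ) := Equiv.prodShear (Equiv.refl ℕ) (fun _ => Equiv.addRight 1)

noncomputable def kb (J : Set ℕ) : Perm (ℕ × ℤ) :=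
  Equiv.prodShear (Equiv.refl ℕ) (kbBlock J)

lemma ka_apply (n : ℕ) (z : ℤ) : ka (n, z) = (n, z + 1) := rfl

lemma ka_pow_apply (i : ℕ) (n : ℕ) (z : ℤ) : (ka ^ i) (n, z) = (n, z + i) := by
  induction i generalizing z with
  | zero => simp
  | succ i ih =>
    rw [pow_succ', Perm.mul_apply, ih, ka_apply]
    push_cast
    ring_nf

lemma ka_pow_inv_apply (i : ℕ) (n : ℕ) (z : ℤ) : ((ka ^ i)⁻¹) (n, z) = (n, z - i) := by
  rw [Perm.inv_eq_iff_eq, ka_pow_apply]
  simp

lemma kb_apply (J : Set ℕ) (n : ℕ) (z : ℤ) : kb J (n, z) = (n, kbBlock J n z) := rfl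

/-- the test word -/
def testWord {G : Type*} [Group G] (i : ℕ) (a b : G) : G :=
  b * (a ^ i * b * (a ^ i)⁻¹) * b⁻¹ * (a ^ i * b * (a ^ i)⁻¹)⁻¹

lemma testWord_map {G H : Type*} [Group G] [Group H] (φ : G →* H) (i : ℕ) (a b : G) :
    φ (testWord i a b) = testWord i (φ a) (φ b) := by
  simp [testWord]

lemma testWord_eq_one {G : Type*} [Group G] (i : ℕ) (a b : G) :
    testWord i a b = 1 ↔ b * (a ^ i * b * (a ^ i)⁻¹) = (a ^ i * b * (a ^ i)⁻¹) * b := by
  unfold testWord
  constructor
  · intro h
    have h2 : b * (a ^ i * b * (a ^ i)⁻¹) * b⁻¹ = (a ^ i * b * (a ^ i)⁻¹) := by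
      rwa [mul_inv_eq_one] at h
    rw [mul_inv_eq_iff_eq_mul] at h2
    exact h2
  · intro h
    rw [h]
    group

lemma kb_test (J : Set ℕ) (i : ℕ) (hi : 1 ≤ i) : testWord i ka (kb J) = 1 ↔ i ∈ J := by
  rw [testWord_eq_one]
  have key : ∀ (n : ℕ) (z : ℤ), (ka ^ i * kb J * (ka ^ i)⁻¹) (n, z) =
      (n, kbBlock J n (z - i) + i) := by
    intro n z
    rw [Perm.mul_apply, Perm.mul_apply, ka_pow_inv_apply, kb_apply, ka_pow_apply]
  constructor
  · intro h
    by_contra hJ
    have h1 := congrArg (fun p : Perm (ℕ × ℤ) => p (i, 0)) h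
    simp only [Perm.mul_apply _ (kb J), Perm.mul_apply (kb J), key, kb_apply] at h1
    have hb : kbBlock J i = Equiv.swap 0 (i : ℤ) := by simp [kbBlock, hJ]
    rw [hb] at h1
    have hi0 : (i : ℤ) ≠ 0 := by omega
    have e1 : Equiv.swap (0 : ℤ) (i : ℤ) (0 - i) = 0 - i := by
      apply Equiv.swap_apply_of_ne_of_ne <;> omega
    rw [e1] at h1
    have e2 : (0 : ℤ) - i + i = 0 := by ring
    rw [e2, Equiv.swap_apply_left] at h1
    simp at h1
    omega
  · intro hJ
    ext p
    · obtain ⟨n, z⟩ := p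
      simp only [Perm.mul_apply _ (kb J), Perm.mul_apply (kb J), key, kb_apply]
    · obtain ⟨n, z⟩ := p
      simp only [Perm.mul_apply _ (kb J), Perm.mul_apply (kb J), key, kb_apply]
      by_cases hn : n ∈ J
      · simp [kbBlock, hn]
      · have hni : n ≠ i := fun h => hn (h ▸ hJ)
        have hb : kbBlock J n = Equiv.swap 0 (n : ℤ) := by simp [kbBlock, hn]
        rw [hb]
        simp only [Equiv.swap_apply_def]
        split_ifs <;> omega

/-- For every `J` there is a countable group with two elements `a, b` such that `b` commutes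
with `a^i b a^-i` exactly for `i ∈ J` (`i ≥ 1`). -/
theorem exists_KJ (J : Set ℕ) : ∃ (K : Type) (_ : Group K) (_ : Countable K) (a b : K),
    ∀ i : ℕ, 1 ≤ i → (testWord i a b = 1 ↔ i ∈ J) := by
  let S : Subgroup (Perm (ℕ × ℤ)) := Subgroup.closure {ka, kb J}
  have ha : ka ∈ S := Subgroup.subset_closure (by simp)
  have hb : kb J ∈ S := Subgroup.subset_closure (by simp)
  have hc : Countable S := countable_closure (Set.toFinite _).countable
  refine ⟨S, inferInstance, hc, ⟨ka, ha⟩, ⟨kb J, hb⟩, fun i hi => ?_⟩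
  rw [← kb_test J i hi]
  have h := testWord_map S.subtype i ⟨ka, ha⟩ ⟨kb J, hb⟩
  constructor
  · intro h1
    rw [h1] at h
    simpa using h.symm
  · intro h1
    apply S.subtype_injective
    rw [h]
    simpa using h1

end Pool.Agent.LCUniv
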