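import Mathlib
import Pool.Agent.LCUniv.Constr

set_option autoImplicit false

namespace Pool.Agent.LCUniv

open Equiv

section Fam

variable {A X : Type*}

/-- The permutation of `A × X` acting on the fibre over `a` by `P a`. -/
def fam (P : A → Perm X) : Perm (A × X) := Equiv.prodShear (Equiv.refl A) P

lemma fam_apply (P : A → Perm X) (a : A) (x : X) : fam P (a, x) = (a, P a x) := rfl

lemma fam_mul (P Q : A → Perm X) : fam P * fam Q = fam (fun a => P a * Q a) := by
  ext ⟨a, x⟩ <;> rfl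

lemma fam_one : fam (fun _ : A => (1 : Perm X)) = 1 := by
  ext ⟨a, x⟩ <;> rfl

lemma fam_inv (P : A → Perm X) : (fam P)⁻¹ = fam (fun a => (P a)⁻¹) := by
  rw [inv_eq_iff_mul_eq_one, fam_mul]
  simp [fam_one]

/-- The permutation of `A × X` moving the first coordinate by `e`. -/
def mov (e : Perm A) : Perm (A × X) := Equiv.prodCongr e (Equiv.refl X)

lemma mov_apply (e : Perm A) (a : A) (x : X) : (mov e : Perm (A × X)) (a, x) = (e a, x) := rfl

lemma mov_mul (e e' : Perm A) : (mov e * mov e' : Perm (A × X)) = mov (e * e') := by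
  ext ⟨a, x⟩ <;> rfl

lemma mov_one : (mov 1 : Perm (A × X)) = 1 := by
  ext ⟨a, x⟩ <;> rfl

lemma mov_inv (e : Perm A) : ((mov e)⁻¹ : Perm (A × X)) = mov e⁻¹ := by
  rw [inv_eq_iff_mul_eq_one, mov_mul]
  simp [mov_one]

lemma mov_pow (e : Perm A) (n : ℕ) : ((mov e) ^ n : Perm (A × X)) = mov (e ^ n) := by
  induction n with
  | zero => simp [mov_one]
  | succ n ih => rw [pow_succ, ih, mov_mul, pow_succ]

lemma mov_conj_fam (e : Perm A) (P : A → Perm X) :
    (mov e)⁻¹ * fam P * mov e = fam (fun a => P (e a)) := by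
  rw [mov_inv]
  ext ⟨a, x⟩
  · simp [Perm.mul_apply, mov_apply, fam_apply]
  · simp [Perm.mul_apply, mov_apply, fam_apply]

end Fam

section GConstr

variable (K : Type) [Group K]

/-- `k` acting on the nonnegative part of `ℤ × K`. -/
def ktil (k : K) : Perm (ℤ × K) := fam (fun n : ℤ => if 0 ≤ n then Equiv.mulLeft k else 1)

/-- `k` acting on the fibre over `0`. -/
def kzero (k : K) : Perm (ℤ × K) := fam (fun n : ℤ => if n = 0 then Equiv.mulLeft k else 1)

/-- the shift of `ℤ × K`. -/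
def sig : Perm (ℤ × K) := mov (Equiv.addRight 1)

lemma ktil_sig (k : K) : ktil K k * sig K * (ktil K k)⁻¹ * (sig K)⁻¹ = kzero K k := by
  have h : sig K * (ktil K k)⁻¹ * (sig K)⁻¹ =
      fam (fun n : ℤ => if 1 ≤ n then (Equiv.mulLeft k)⁻¹ else 1) := by
    have h1 := mov_conj_fam (X := K) (Equiv.addRight (-1 : ℤ))
      (fun n : ℤ => ((if 0 ≤ n then Equiv.mulLeft k else 1 : Perm K))⁻¹)
    have h2 : (mov (Equiv.addRight (-1 : ℤ)) : Perm (ℤ × K)) = (sig K)⁻¹ := by
      rw [sig, mov_inv]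
      congr 1
    rw [h2, inv_inv] at h1
    rw [ktil, fam_inv, h1]
    congr 1
    funext n
    have e1 : (Equiv.addRight (-1 : ℤ)) n = n - 1 := rfl
    by_cases hn : 1 ≤ n
    · rw [if_pos hn, if_pos (by rw [e1]; omega)]
    · rw [if_neg hn, if_neg (by rw [e1]; omega)]
      simp
  rw [mul_assoc (ktil K k) (sig K), mul_assoc (ktil K k), h, ktil, fam_mul, kzero]
  congr 1
  funext n
  by_cases h0 : n = 0
  · subst h0; simp
  · by_cases hn : 1 ≤ n
    · rw [if_pos (by omega), if_pos hn, if_neg h0, mul_inv_cancel]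
    · rw [if_neg (by omega), if_neg hn, if_neg h0, mul_one]

/-- the big shift -/
def gs : Perm (ℚ × (ℤ × K)) := mov (Equiv.addRight 1)

/-- the doubling -/
def gt : Perm (ℚ × (ℤ × K)) := mov (Equiv.mulRight₀ (2 : ℚ) (by norm_num))

/-- the collector -/
def gf (κ : ℚ → K) : Perm (ℚ × (ℤ × K)) := fam (fun q => ktil K (κ q))

/-- the local shift -/
def gg : Perm (ℚ × (ℤ × K)) := fam (fun q : ℚ => if q = 0 then sig K else 1)

/-- the embedding of `K` -/
def giota (k : K) : Perm (ℚ × (ℤ × K)) := fam (fun q : ℚ => if q = 0 then kzero K k else 1)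

lemma gt_gs : gt K * gs K * (gt K)⁻¹ = (gs K) ^ 2 := by
  rw [gt, gs, mov_inv, mov_mul, mov_mul, mov_pow]
  congr 1
  ext q
  simp [Perm.mul_apply, pow_two, Perm.inv_def, add_assoc]
  field_simp
  ring

lemma gs_conj (κ : ℚ → K) (n : ℕ) :
    (gs K ^ n)⁻¹ * gf K κ * gs K ^ n = fam (fun q => ktil K (κ (q + n))) := by
  rw [gs, mov_pow, gf, mov_conj_fam]
  congr 1
  funext q
  congr 2
  induction n with
  | zero => simp
  | succ n ih =>
    rw [pow_succ', Perm.mul_apply, ih]
    simp
    ring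

lemma gs_conj' (κ : ℚ → K) (n : ℕ) :
    gs K ^ n * gf K κ * (gs K ^ n)⁻¹ = fam (fun q => ktil K (κ (q - n))) := by
  have h := gs_conj K (fun q => κ (q - n)) n
  simp only [add_sub_cancel_right] at h
  have h2 : (fam (fun q => ktil K (κ q)) : Perm (ℚ × (ℤ × K))) = gf K κ := rfl
  rw [h2] at h
  rw [← h]
  have h3 : (gf K fun q => κ (q - n)) = fam (fun q => ktil K (κ (q - n))) := rfl
  rw [h3]
  group

lemma comm_zero (κ : ℚ → K) (F : Perm (ℚ × (ℤ × K))) (c : ℚ)
    (hF : F = fam (fun q => ktil K (κ (q + c)))) :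
    F * gg K * F⁻¹ * (gg K)⁻¹ = giota K (κ c) := by
  rw [hF, gg, giota, fam_inv, fam_inv, fam_mul, fam_mul, fam_mul]
  congr 1
  funext q
  by_cases hq : q = 0
  · subst hq
    simp only [if_true, zero_add]
    exact ktil_sig K (κ c)
  · simp [hq]

lemma giota_mul (k l : K) : giota K (k * l) = giota K k * giota K l := by
  rw [giota, giota, giota, fam_mul]
  congr 1
  funext q
  by_cases hq : q = 0
  · simp only [hq, if_true]
    rw [kzero, kzero, kzero, fam_mul]
    congr 1
    funext n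
    by_cases hn : n = 0
    · simp [hn]
    · simp [hn]
  · simp [hq]

lemma giota_one : giota K 1 = 1 := by
  have h : ∀ q : ℚ, (if q = 0 then kzero K 1 else 1) = (1 : Perm (ℤ × K)) := by
    intro q
    by_cases hq : q = 0
    · simp only [hq, if_true]
      rw [kzero]
      have : ∀ n : ℤ, (if n = 0 then Equiv.mulLeft (1 : K) else 1) = (1 : Perm K) := by
        intro n
        by_cases hn : n = 0
        · simp [hn]
        · simp [hn]
      simp only [this]
      exact fam_one
    · simp [hq]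
  rw [giota]
  simp only [h]
  exact fam_one

lemma giota_inj {k : K} (h : giota K k = 1) : k = 1 := by
  have h1 := congrArg (fun p : Perm (ℚ × (ℤ × K)) => p (0, (0, 1))) h
  simp only [giota, fam_apply, if_true, kzero, Perm.one_apply] at h1
  simpa using h1

end GConstr

/-- The main construction: every countable group `K` sits inside a countable group `G`
containing `s, t, f, g` with `t s t⁻¹ = s ^ 2`, in such a way that every element of `K` is of
the form `[s⁻ⁿ f sⁿ, g]` with `n ≥ 0`, while `sⁿ f s⁻ⁿ` commutes with `g` for `n ≥ 1`. -/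
theorem exists_G (K : Type) [Group K] [Countable K] :
    ∃ (G : Type) (_ : Group G) (_ : Countable G) (ι : K →* G) (s t f g : G),
      Function.Injective ι ∧ t * s * t⁻¹ = s ^ 2 ∧
      (∀ k : K, ∃ n : ℕ, ι k =
        ((s ^ n)⁻¹ * f * s ^ n) * g * ((s ^ n)⁻¹ * f * s ^ n)⁻¹ * g⁻¹) ∧
      (∀ n : ℕ, 1 ≤ n → (s ^ n * f * (s ^ n)⁻¹) * g * (s ^ n * f * (s ^ n)⁻¹)⁻¹ * g⁻¹ = 1) := by
  obtain ⟨e, he⟩ := exists_surjective_nat K
  let κ : ℚ → K := fun q => if 0 ≤ q then e (⌊q⌋.toNat) else 1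
  have hκn : ∀ n : ℕ, κ n = e n := by
    intro n
    simp only [κ]
    rw [if_pos (by positivity)]
    simp
  have hκneg : ∀ n : ℕ, 1 ≤ n → κ (-(n : ℚ)) = 1 := by
    intro n hn
    simp only [κ]
    rw [if_neg]
    have : (1 : ℚ) ≤ n := by exact_mod_cast hn
    linarith
  let S : Set (Perm (ℚ × (ℤ × K))) := {gs K, gt K, gf K κ, gg K}
  let G := Subgroup.closure S
  have hs : gs K ∈ G := Subgroup.subset_closure (by simp [S])
  have ht : gt K ∈ G := Subgroup.subset_closure (by simp [S])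
  have hf : gf K κ ∈ G := Subgroup.subset_closure (by simp [S])
  have hg : gg K ∈ G := Subgroup.subset_closure (by simp [S])
  have hc : Countable G := countable_closure (Set.toFinite S).countable
  have hcomm : ∀ n : ℕ, ((gs K ^ n)⁻¹ * gf K κ * gs K ^ n) * gg K *
      ((gs K ^ n)⁻¹ * gf K κ * gs K ^ n)⁻¹ * (gg K)⁻¹ = giota K (e n) := by
    intro n
    rw [comm_zero K κ _ n (gs_conj K κ n), hκn]
  have hcomm' : ∀ n : ℕ, 1 ≤ n → (gs K ^ n * gf K κ * (gs K ^ n)⁻¹) * gg K *
      (gs K ^ n * gf K κ * (gs K ^ n)⁻¹)⁻¹ * (gg K)⁻¹ = 1 := by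
    intro n hn
    rw [comm_zero K κ _ (-(n : ℚ)) (by rw [gs_conj' K κ n]; simp only [sub_eq_add_neg]),
      hκneg n hn, giota_one]
  have hmem : ∀ k : K, giota K k ∈ G := by
    intro k
    obtain ⟨n, rfl⟩ := he k
    rw [← hcomm n]
    have h1 : (gs K ^ n)⁻¹ * gf K κ * gs K ^ n ∈ G :=
      G.mul_mem (G.mul_mem (G.inv_mem (G.pow_mem hs n)) hf) (G.pow_mem hs n)
    exact G.mul_mem (G.mul_mem (G.mul_mem h1 hg) (G.inv_mem h1)) (G.inv_mem hg)
  refine ⟨G, inferInstance, hc,
    { toFun := fun k => ⟨giota K k, hmem k⟩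
      map_one' := Subtype.ext (giota_one K)
      map_mul' := fun k l => Subtype.ext (giota_mul K k l) },
    ⟨gs K, hs⟩, ⟨gt K, ht⟩, ⟨gf K κ, hf⟩, ⟨gg K, hg⟩, ?_, ?_, ?_, ?_⟩
  · rw [injective_iff_map_eq_one]
    intro k hk
    apply giota_inj K
    exact congrArg Subtype.val hk
  · exact Subtype.ext (gt_gs K)
  · intro k
    obtain ⟨n, rfl⟩ := he k
    refine ⟨n, Subtype.ext ?_⟩
    exact (hcomm n).symm
  · intro n hn
    exact Subtype.ext (hcomm' n hn)

/-! ### The wreath-like construction -/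

section Wreath

variable (K E : Type) [Group K] [Group E]

/-- top element -/
def wtop (k : K) : Perm (K × E) := mov (Equiv.mulLeft k)

/-- base element at a point -/
noncomputable def wat (x : K) (e : E) : Perm (K × E) :=
  open scoped Classical in fam (fun y : K => if y = x then Equiv.mulLeft e else 1)

lemma wtop_mul (k l : K) : wtop K E (k * l) = wtop K E k * wtop K E l := by
  rw [wtop, wtop, wtop, mov_mul]
  congr 1
  ext x
  simp [mul_assoc]

lemma wat_mul (x : K) (e e' : E) : wat K E x (e * e') = wat K E x e * wat K E x e' := by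
  classical
  rw [wat, wat, wat, fam_mul]
  congr 1
  funext y
  by_cases hy : y = x
  · simp [hy]
  · simp [hy]

lemma wat_one (x : K) : wat K E x 1 = 1 := by
  classical
  have h : ∀ y : K, (if y = x then Equiv.mulLeft (1 : E) else 1) = (1 : Perm E) := by
    intro y
    by_cases hy : y = x
    · simp [hy]
    · simp [hy]
  rw [wat]
  simp only [h]
  exact fam_one

lemma wat_inv (x : K) (e : E) : (wat K E x e)⁻¹ = wat K E x e⁻¹ := by
  rw [inv_eq_iff_mul_eq_one, ← wat_mul, mul_inv_cancel, wat_one]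

lemma wat_comm {x y : K} (h : x ≠ y) (e e' : E) :
    wat K E x e * wat K E y e' = wat K E y e' * wat K E x e := by
  classical
  rw [wat, wat, fam_mul, fam_mul]
  congr 1
  funext z
  by_cases hx : z = x
  · subst hx; simp [h]
  · simp [hx]

lemma wtop_one : wtop K E 1 = 1 := by
  rw [wtop, Equiv.mulLeft_one]
  exact mov_one

lemma wtop_inv (k : K) : (wtop K E k)⁻¹ = wtop K E k⁻¹ := by
  rw [inv_eq_iff_mul_eq_one, ← wtop_mul, mul_inv_cancel, wtop_one]

lemma wtop_conj (k x : K) (e : E) :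
    wtop K E k * wat K E x e * (wtop K E k)⁻¹ = wat K E (k * x) e := by
  classical
  have h1 := mov_conj_fam (X := E) (Equiv.mulLeft k⁻¹)
    (fun y : K => if y = x then Equiv.mulLeft e else 1)
  have h2 : (mov (Equiv.mulLeft k⁻¹) : Perm (K × E)) = (wtop K E k)⁻¹ := (wtop_inv K E k).symm
  rw [h2, inv_inv] at h1
  rw [wat, h1, wat]
  congr 1
  funext y
  have e1 : (Equiv.mulLeft k⁻¹) y = k⁻¹ * y := rfl
  by_cases hy : y = k * x
  · rw [if_pos hy, if_pos (by rw [e1, hy]; group)]
  · rw [if_neg hy, if_neg]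
    rw [e1]
    intro h
    exact hy (by rw [← h]; group)

end Wreath

/-- For countable groups `K, E` there is a countable group `W` containing copies of both such
that any normal subgroup of `W` meeting the copy of `K` nontrivially contains all commutators
of the copy of `E`. -/
theorem exists_W (K E : Type) [Group K] [Countable K] [Group E] [Countable E] :
    ∃ (W : Type) (_ : Group W) (_ : Countable W) (top : K →* W) (base : E →* W),
      Function.Injective top ∧ Function.Injective base ∧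
      ∀ (N : Subgroup W) (_ : N.Normal) (k : K), k ≠ 1 → top k ∈ N →
        ∀ e e' : E, base (e * e' * e⁻¹ * e'⁻¹) ∈ N := by
  classical
  let S : Set (Perm (K × E)) := Set.range (wtop K E) ∪ Set.range (wat K E 1)
  let W := Subgroup.closure S
  have hc : Countable W := countable_closure
    ((Set.countable_range _).union (Set.countable_range _))
  have ht : ∀ k, wtop K E k ∈ W := fun k => Subgroup.subset_closure (Or.inl ⟨k, rfl⟩)
  have hb : ∀ e, wat K E 1 e ∈ W := fun e => Subgroup.subset_closure (Or.inr ⟨e, rfl⟩)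
  let top : K →* W :=
    { toFun := fun k => ⟨wtop K E k, ht k⟩
      map_one' := Subtype.ext (wtop_one K E)
      map_mul' := fun k l => Subtype.ext (wtop_mul K E k l) }
  let base : E →* W :=
    { toFun := fun e => ⟨wat K E 1 e, hb e⟩
      map_one' := Subtype.ext (wat_one K E 1)
      map_mul' := fun k l => Subtype.ext (wat_mul K E 1 k l) }
  refine ⟨W, inferInstance, hc, top, base, ?_, ?_, ?_⟩
  · rw [injective_iff_map_eq_one]
    intro k hk
    have h1 : wtop K E k = 1 := congrArg Subtype.val hk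
    have h2 := congrArg (fun p : Perm (K × E) => p (1, 1)) h1
    simpa [wtop, mov_apply] using h2
  · rw [injective_iff_map_eq_one]
    intro e he
    have h1 : wat K E 1 e = 1 := congrArg Subtype.val he
    have h2 := congrArg (fun p : Perm (K × E) => p (1, 1)) h1
    simpa [wat, fam_apply] using h2
  · intro N hN k hk hkN e e'
    -- `u = [top k, base e⁻¹] ∈ N`
    have hu : top k * base e⁻¹ * (top k)⁻¹ * (base e⁻¹)⁻¹ ∈ N := by
      have h1 : base e⁻¹ * (top k)⁻¹ * (base e⁻¹)⁻¹ ∈ N := hN.conj_mem _ (N.inv_mem hkN) _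
      have h2 := N.mul_mem hkN h1
      have h3 : top k * base e⁻¹ * (top k)⁻¹ * (base e⁻¹)⁻¹ =
          top k * (base e⁻¹ * (top k)⁻¹ * (base e⁻¹)⁻¹) := by group
      rw [h3]
      exact h2
    set u := top k * base e⁻¹ * (top k)⁻¹ * (base e⁻¹)⁻¹ with hudef
    have hv : u * (base e' * u⁻¹ * (base e')⁻¹) ∈ N :=
      N.mul_mem hu (hN.conj_mem _ (N.inv_mem hu) _)
    convert hv using 1
    apply Subtype.ext
    have huv : (u : Perm (K × E)) = wat K E k e⁻¹ * wat K E 1 e := by
      change wtop K E k * wat K E 1 e⁻¹ * (wtop K E k)⁻¹ * (wat K E 1 e⁻¹)⁻¹ = _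
      rw [wtop_conj, mul_one, wat_inv, inv_inv]
    change wat K E 1 (e * e' * e⁻¹ * e'⁻¹) =
      (u : Perm (K × E)) * (wat K E 1 e' * (u : Perm (K × E))⁻¹ * (wat K E 1 e')⁻¹)
    rw [huv, mul_inv_rev, wat_inv, wat_inv, wat_inv, inv_inv, wat_mul, wat_mul, wat_mul]
    have c1 := wat_comm K E hk e⁻¹ (e * e' * e⁻¹ * e'⁻¹)
    have c2 : wat K E k e * wat K E 1 e'⁻¹ = wat K E 1 e'⁻¹ * wat K E k e :=
      wat_comm K E hk e e'⁻¹
    have c3 : wat K E k e⁻¹ * wat K E k e = 1 := by
      rw [← wat_mul, inv_mul_cancel, wat_one]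
    have c4 : wat K E k e⁻¹ * (wat K E 1 e * wat K E 1 e' * wat K E 1 e⁻¹ * wat K E 1 e'⁻¹) =
        (wat K E 1 e * wat K E 1 e' * wat K E 1 e⁻¹ * wat K E 1 e'⁻¹) * wat K E k e⁻¹ := by
      rw [← wat_mul, ← wat_mul, ← wat_mul]
      exact c1
    calc wat K E 1 e * wat K E 1 e' * wat K E 1 e⁻¹ * wat K E 1 e'⁻¹
        = (wat K E 1 e * wat K E 1 e' * wat K E 1 e⁻¹ * wat K E 1 e'⁻¹) *
            (wat K E k e⁻¹ * wat K E k e) := by rw [c3, mul_one]
      _ = (wat K E k e⁻¹ * (wat K E 1 e * wat K E 1 e' * wat K E 1 e⁻¹ * wat K E 1 e'⁻¹)) *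
            wat K E k e := by rw [c4]; group
      _ = wat K E k e⁻¹ * wat K E 1 e * wat K E 1 e' * wat K E 1 e⁻¹ *
            (wat K E 1 e'⁻¹ * wat K E k e) := by group
      _ = wat K E k e⁻¹ * wat K E 1 e * wat K E 1 e' * wat K E 1 e⁻¹ *
            (wat K E k e * wat K E 1 e'⁻¹) := by rw [c2]
      _ = wat K E k e⁻¹ * wat K E 1 e *
            (wat K E 1 e' * (wat K E 1 e⁻¹ * wat K E k e) * wat K E 1 e'⁻¹) := by group

end Pool.Agent.LCUniv
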