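import Mathlib

set_option autoImplicit false
set_option linter.unusedSectionVars false
set_option linter.unusedVariables false

open Topology Pointwise MeasureTheory

namespace Pool.Agent.LCUniv

section CoreLemma

variable {S : Type} [Group S] [TopologicalSpace S] [IsTopologicalGroup S]

/-- uniform continuity of a compactly supported function under left translations,
uniformly over conjugation by a compact set -/
theorem core_unif [LocallyCompactSpace S] (η : S → ℝ) (hη : Continuous η)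
    (K : Set S) (hK : IsCompact K) (hsupp : ∀ x, η x ≠ 0 → x ∈ K)
    (D1 : Set S) (hD1 : IsCompact D1) (ε : ℝ) (hε : 0 < ε) :
    ∃ V ∈ 𝓝 (1 : S), ∀ h ∈ V, ∀ y ∈ D1, ∀ x, |η (y⁻¹ * (h * x)) - η (y⁻¹ * x)| ≤ ε := by
  obtain ⟨U, hU, hU1⟩ := exists_compact_mem_nhds (1 : S)
  have h1U : (1 : S) ∈ U := mem_of_mem_nhds hU1
  set K2 : Set S := U⁻¹ * (D1 * K) with hK2def
  have hK2 : IsCompact K2 := hU.inv.mul (hD1.mul hK)
  have hev : ∀ᶠ h in 𝓝 (1 : S), ∀ p ∈ D1 ×ˢ K2,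
      |η (p.1⁻¹ * (h * p.2)) - η (p.1⁻¹ * p.2)| < ε := by
    refine IsCompact.eventually_forall_of_forall_eventually
      (P := fun (h : S) (p : S × S) => |η (p.1⁻¹ * (h * p.2)) - η (p.1⁻¹ * p.2)| < ε)
      (hD1.prod hK2) ?_
    rintro ⟨y, x⟩ -
    have hcont : Continuous fun z : S × (S × S) =>
        |η (z.2.1⁻¹ * (z.1 * z.2.2)) - η (z.2.1⁻¹ * z.2.2)| := by
      fun_prop
    have h0 : (fun z : S × (S × S) => |η (z.2.1⁻¹ * (z.1 * z.2.2)) - η (z.2.1⁻¹ * z.2.2)|)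
        ((1 : S), (y, x)) < ε := by
      simpa using hε
    exact (hcont.continuousAt (x := ((1 : S), (y, x)))).eventually_lt_const h0
  refine ⟨{h | ∀ p ∈ D1 ×ˢ K2, |η (p.1⁻¹ * (h * p.2)) - η (p.1⁻¹ * p.2)| < ε} ∩ U,
    Filter.inter_mem hev hU1, ?_⟩
  rintro h ⟨hh, hhU⟩ y hy x
  by_cases hx : x ∈ K2
  · exact (hh (y, x) ⟨hy, hx⟩).le
  · have e1 : η (y⁻¹ * (h * x)) = 0 := by
      by_contra hne
      apply hx
      refine ⟨h⁻¹, Set.inv_mem_inv.mpr hhU, h * x, ⟨y, hy, y⁻¹ * (h * x), hsupp _ hne, ?_⟩, ?_⟩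
      · simp
      · simp
    have e2 : η (y⁻¹ * x) = 0 := by
      by_contra hne
      apply hx
      refine ⟨1, ?_, x, ⟨y, hy, y⁻¹ * x, hsupp _ hne, ?_⟩, ?_⟩
      · simpa using h1U
      · simp
      · simp
    rw [e1, e2]
    simpa using hε.le

theorem core_integral [T2Space S] [MeasurableSpace S] [BorelSpace S] (μ : Measure S)
    [IsFiniteMeasureOnCompacts μ] (D1 : Set S) (hD1 : IsCompact D1) (f : S → ℝ)
    (hf : Measurable f) (B : ℝ) (hb : ∀ y, |f y| ≤ B) (hs : ∀ y, y ∉ D1 → f y = 0) :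
    Integrable f μ ∧ |∫ y, f y ∂μ| ≤ B * (μ D1).toReal := by
  have hfin : μ D1 < ⊤ := hD1.measure_lt_top
  have h1 : IntegrableOn f D1 μ :=
    Measure.integrableOn_of_bounded (M := B) hfin.ne hf.aestronglyMeasurable
      (Filter.Eventually.of_forall fun y => by rw [Real.norm_eq_abs]; exact hb y)
  have h2 : Integrable f μ := by
    rw [← integrableOn_univ]
    refine h1.of_forall_sdiff_eq_zero MeasurableSet.univ ?_
    intro y hy
    exact hs y hy.2
  refine ⟨h2, ?_⟩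
  have h3 : ∫ y in D1, f y ∂μ = ∫ y, f y ∂μ :=
    setIntegral_eq_integral_of_forall_compl_eq_zero hs
  rw [← h3]
  have := norm_setIntegral_le_of_norm_le_const (μ := μ) (s := D1) (f := f) (C := B) hfin
    (fun y _ => by rw [Real.norm_eq_abs]; exact hb y)
  rw [Real.norm_eq_abs] at this
  exact this

/-- the averaged indicator of the powers of `Q` -/
noncomputable def cpsi (V1 Q : Set S) (L : ℕ) (y : S) : ℝ :=
  (1 / (L : ℝ)) * ∑ j ∈ Finset.range L, (Q ^ j * V1).indicator (fun _ => (1 : ℝ)) y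

theorem pow_mono_one {Q : Set S} (h1 : (1 : S) ∈ Q) {i j : ℕ} (h : i ≤ j) : Q ^ i ⊆ Q ^ j :=
  Set.pow_subset_pow_right h1 h

theorem cpsi_nonneg (V1 Q : Set S) (L : ℕ) (y : S) : 0 ≤ cpsi V1 Q L y := by
  unfold cpsi
  refine mul_nonneg (by positivity) (Finset.sum_nonneg fun j _ => ?_)
  exact Set.indicator_nonneg (fun _ _ => zero_le_one) _

theorem ind_le_one (A : Set S) (y : S) : A.indicator (fun _ => (1 : ℝ)) y ≤ 1 := by
  by_cases h : y ∈ A
  · rw [Set.indicator_of_mem h]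
  · rw [Set.indicator_of_notMem h]; exact zero_le_one

theorem ind_nonneg (A : Set S) (y : S) : 0 ≤ A.indicator (fun _ => (1 : ℝ)) y :=
  Set.indicator_nonneg (fun _ _ => zero_le_one) _

theorem cpsi_le_one (V1 Q : Set S) {L : ℕ} (hL : 1 ≤ L) (y : S) : cpsi V1 Q L y ≤ 1 := by
  unfold cpsi
  have hL' : (0 : ℝ) < L := by exact_mod_cast hL
  rw [one_div, inv_mul_le_iff₀ hL', mul_one]
  calc ∑ j ∈ Finset.range L, (Q ^ j * V1).indicator (fun _ => (1 : ℝ)) y
      ≤ ∑ j ∈ Finset.range L, (1 : ℝ) := Finset.sum_le_sum fun j _ => ind_le_one _ _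
    _ = L := by simp

theorem cpsi_one {V1 Q : Set S} (h1 : (1 : S) ∈ Q) {L : ℕ} (hL : 1 ≤ L) {y : S} (hy : y ∈ V1) :
    cpsi V1 Q L y = 1 := by
  unfold cpsi
  have hL' : (0 : ℝ) < L := by exact_mod_cast hL
  have : ∀ j ∈ Finset.range L, (Q ^ j * V1).indicator (fun _ => (1 : ℝ)) y = 1 := by
    intro j _
    rw [Set.indicator_of_mem]
    exact ⟨1, Set.one_mem_pow h1, y, hy, one_mul y⟩
  rw [Finset.sum_congr rfl this]
  simp only [Finset.sum_const, Finset.card_range, nsmul_eq_mul, mul_one]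
  field_simp

theorem cpsi_supp {V1 Q : Set S} (h1 : (1 : S) ∈ Q) {L : ℕ} {y : S}
    (hy : cpsi V1 Q L y ≠ 0) : ∃ j < L, y ∈ Q ^ j * V1 := by
  by_contra hcon
  push Not at hcon
  apply hy
  unfold cpsi
  rw [Finset.sum_eq_zero, mul_zero]
  intro j hj
  rw [Set.indicator_of_notMem (hcon j (Finset.mem_range.mp hj))]

theorem cpsi_diff_le {V1 Q : Set S} (h1 : (1 : S) ∈ Q) (hinv : ∀ q ∈ Q, q⁻¹ ∈ Q) {L : ℕ}
    (hL : 1 ≤ L) {q : S} (hq : q ∈ Q) (y : S) :
    cpsi V1 Q L (q * y) - cpsi V1 Q L y ≤ 1 / L := by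
  have hL' : (0 : ℝ) < L := by exact_mod_cast hL
  unfold cpsi
  rw [← mul_sub]
  have key : ∑ j ∈ Finset.range L, (Q ^ j * V1).indicator (fun _ => (1 : ℝ)) (q * y) ≤
      ∑ j ∈ Finset.range L, (Q ^ (j + 1) * V1).indicator (fun _ => (1 : ℝ)) y := by
    refine Finset.sum_le_sum fun j _ => ?_
    by_cases h : q * y ∈ Q ^ j * V1
    · have : y ∈ Q ^ (j + 1) * V1 := by
        obtain ⟨a, ha, v, hv, hav⟩ := h
        refine ⟨q⁻¹ * a, ?_, v, hv, ?_⟩
        · rw [pow_succ']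
          exact ⟨q⁻¹, hinv q hq, a, ha, rfl⟩
        · show q⁻¹ * a * v = y
          have : a * v = q * y := hav
          rw [mul_assoc, this, inv_mul_cancel_left]
      rw [Set.indicator_of_mem this]
      exact ind_le_one _ _
    · rw [Set.indicator_of_notMem h]
      exact ind_nonneg _ _
  have tele : ∑ j ∈ Finset.range L, (Q ^ (j + 1) * V1).indicator (fun _ => (1 : ℝ)) y +
      (Q ^ 0 * V1).indicator (fun _ => (1 : ℝ)) y =
      ∑ j ∈ Finset.range L, (Q ^ j * V1).indicator (fun _ => (1 : ℝ)) y +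
      (Q ^ L * V1).indicator (fun _ => (1 : ℝ)) y := by
    rw [← Finset.sum_range_succ' (fun j => (Q ^ j * V1).indicator (fun _ => (1 : ℝ)) y),
      Finset.sum_range_succ]
  have h0 := ind_nonneg (Q ^ 0 * V1) y
  have h1' := ind_le_one (Q ^ L * V1) y
  have : ∑ j ∈ Finset.range L, (Q ^ j * V1).indicator (fun _ => (1 : ℝ)) (q * y) -
      ∑ j ∈ Finset.range L, (Q ^ j * V1).indicator (fun _ => (1 : ℝ)) y ≤ 1 := by linarith
  calc _ ≤ 1 / (L : ℝ) * 1 := mul_le_mul_of_nonneg_left this (by positivity)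
    _ = _ := mul_one _

theorem cpsi_diff_abs {V1 Q : Set S} (h1 : (1 : S) ∈ Q) (hinv : ∀ q ∈ Q, q⁻¹ ∈ Q) {L : ℕ}
    (hL : 1 ≤ L) {q : S} (hq : q ∈ Q) (y : S) :
    |cpsi V1 Q L (q * y) - cpsi V1 Q L y| ≤ 1 / L := by
  rw [abs_le]
  refine ⟨?_, cpsi_diff_le h1 hinv hL hq y⟩
  have := cpsi_diff_le (V1 := V1) h1 hinv hL (hinv q hq) (q * y)
  rw [inv_mul_cancel_left] at this
  linarith

theorem cpsi_measurable [MeasurableSpace S] [BorelSpace S] {V1 : Set S} (hV1 : IsOpen V1)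
    (Q : Set S) (L : ℕ) : Measurable (cpsi V1 Q L) := by
  unfold cpsi
  refine Measurable.const_mul (Finset.measurable_sum _ fun j _ => ?_) _
  exact measurable_const.indicator (hV1.mul_left.measurableSet)

/-- Gleason's convolution lemma. -/
theorem core [T2Space S] [LocallyCompactSpace S] [SecondCountableTopology S]
    (D : Set S) (hD : IsCompact D) (V₀ : Set S) (hV₀ : V₀ ∈ 𝓝 (1 : S)) :
    ∃ (c C : ℝ) (V : ℝ → Set S), 0 < c ∧ (∀ δ, 0 < δ → V δ ∈ 𝓝 (1 : S)) ∧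
      ∀ (Q : Set S) (L : ℕ), (1 : S) ∈ Q → (∀ q ∈ Q, q⁻¹ ∈ Q) → 1 ≤ L → Q ^ L ⊆ D →
        ∃ φ : S → ℝ, c ≤ φ 1 ∧ (∀ x, 0 ≤ φ x) ∧ (∀ x, φ x ≤ C) ∧
          (∀ x, φ x ≠ 0 → x ∈ Q ^ L * V₀) ∧
          (∀ δ, 0 < δ → ∀ h ∈ V δ, ∀ x, |φ (h * x) - φ x| ≤ δ) ∧
          (∀ δ, 0 < δ → ∀ h ∈ V δ, ∀ q ∈ Q, ∀ x,
            |φ (q * (h * x)) - φ (h * x) - φ (q * x) + φ x| ≤ δ / L) := by
  let _ : MeasurableSpace S := borel S
  have _ : BorelSpace S := ⟨rfl⟩
  let μ : Measure S := Measure.haar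
  obtain ⟨Kc, hKc, hKc1⟩ := exists_compact_mem_nhds (1 : S)
  obtain ⟨V1', hV1'o, hV1'1, hV1'sub⟩ := exists_open_nhds_one_mul_subset hV₀
  set V1 : Set S := V1' ∩ interior Kc with hV1def
  have hV1o : IsOpen V1 := hV1'o.inter isOpen_interior
  have hV11 : (1 : S) ∈ V1 := ⟨hV1'1, mem_interior_iff_mem_nhds.mpr hKc1⟩
  have hV1K : V1 ⊆ Kc := fun x hx => interior_subset hx.2
  have hV1V : V1 * V1 ⊆ V₀ := (Set.mul_subset_mul Set.inter_subset_left
    Set.inter_subset_left).trans hV1'sub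
  set D1 : Set S := D * Kc with hD1def
  have hD1 : IsCompact D1 := hD.mul hKc
  obtain ⟨η, hη1, hη0, hηc, hηI⟩ := exists_continuous_one_zero_of_isCompact
    (isCompact_singleton (x := (1 : S))) (hV1o.isClosed_compl)
    (by rw [Set.disjoint_singleton_left]; simpa using hV11)
  have hη11 : η 1 = 1 := hη1 (Set.mem_singleton 1)
  have hηV : ∀ x, η x ≠ 0 → x ∈ V1 := by
    intro x hx
    by_contra h
    exact hx (hη0 h)
  have hηnn : ∀ x, 0 ≤ η x := fun x => (hηI x).1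
  have hηle : ∀ x, η x ≤ 1 := fun x => (hηI x).2
  have hηcont : Continuous η := η.continuous
  -- the neighbourhoods
  set m : ℝ := (μ D1).toReal with hm
  have hm0 : 0 ≤ m := ENNReal.toReal_nonneg
  have hV : ∀ δ : ℝ, ∃ V : Set S, 0 < δ → (V ∈ 𝓝 (1 : S) ∧ ∀ h ∈ V, ∀ y ∈ D1, ∀ x,
      |η (y⁻¹ * (h * x)) - η (y⁻¹ * x)| ≤ δ / (m + 1)) := by
    intro δ
    by_cases hδ : 0 < δ
    · obtain ⟨V, hV, hV'⟩ := core_unif η hηcont Kc hKc (fun x hx => hV1K (hηV x hx)) D1 hD1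
        (δ / (m + 1)) (by positivity)
      exact ⟨V, fun _ => ⟨hV, hV'⟩⟩
    · exact ⟨Set.univ, fun h => absurd h hδ⟩
  choose V hV using hV
  -- the constant
  have hcc : Continuous fun y : S => η y * η y⁻¹ := by fun_prop
  have hccs : HasCompactSupport fun y : S => η y * η y⁻¹ := hηc.mul_right
  have hcpos : 0 < ∫ y, η y * η y⁻¹ ∂μ :=
    hcc.integral_pos_of_hasCompactSupport_nonneg_nonzero hccs
      (fun y => mul_nonneg (hηnn _) (hηnn _)) (x := 1) (by simp [hη11])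
  refine ⟨∫ y, η y * η y⁻¹ ∂μ, m, V, hcpos, fun δ hδ => (hV δ hδ).1, ?_⟩
  intro Q L h1Q hinv hL hQD
  have hLpos : (0 : ℝ) < L := by exact_mod_cast hL
  -- basic facts about the convolved function
  have hpsiD : ∀ y, cpsi V1 Q L y ≠ 0 → y ∈ D1 := by
    intro y hy
    obtain ⟨j, hj, a, ha, v, hv, rfl⟩ := cpsi_supp h1Q hy
    exact ⟨a, hQD (pow_mono_one h1Q hj.le ha), v, hV1K hv, rfl⟩
  have hpsiD' : ∀ q ∈ Q, ∀ y, cpsi V1 Q L (q * y) ≠ 0 → y ∈ D1 := by
    intro q hq y hy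
    obtain ⟨j, hj, a, ha, v, hv, hav⟩ := cpsi_supp h1Q hy
    have hav' : a * v = q * y := hav
    refine ⟨q⁻¹ * a, hQD (pow_mono_one h1Q (Nat.succ_le_of_lt hj) ?_), v, hV1K hv, ?_⟩
    · rw [pow_succ']
      exact ⟨q⁻¹, hinv q hq, a, ha, rfl⟩
    · show q⁻¹ * a * v = y
      rw [mul_assoc, hav', inv_mul_cancel_left]
  have hpsim : Measurable (cpsi V1 Q L) := cpsi_measurable hV1o Q L
  have hint : ∀ x, Integrable (fun y => cpsi V1 Q L y * η (y⁻¹ * x)) μ ∧
      |∫ y, cpsi V1 Q L y * η (y⁻¹ * x) ∂μ| ≤ 1 * m := by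
    intro x
    refine core_integral μ D1 hD1 (fun y => cpsi V1 Q L y * η (y⁻¹ * x))
      (hpsim.mul (by fun_prop : Continuous fun y : S => η (y⁻¹ * x)).measurable) 1 ?_ ?_
    · intro y
      rw [abs_of_nonneg (mul_nonneg (cpsi_nonneg _ _ _ _) (hηnn _))]
      exact mul_le_one₀ (cpsi_le_one _ _ hL _) (hηnn _) (hηle _)
    · intro y hy
      have : cpsi V1 Q L y = 0 := by
        by_contra h
        exact hy (hpsiD y h)
      rw [this, zero_mul]
  -- the difference along an element of `Q`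
  have hdq : ∀ q ∈ Q, ∀ x, (∫ y, cpsi V1 Q L y * η (y⁻¹ * (q * x)) ∂μ) -
      (∫ y, cpsi V1 Q L y * η (y⁻¹ * x) ∂μ) =
      ∫ y, (cpsi V1 Q L (q * y) - cpsi V1 Q L y) * η (y⁻¹ * x) ∂μ := by
    intro q hq x
    have e1 : ∫ y, cpsi V1 Q L y * η (y⁻¹ * (q * x)) ∂μ =
        ∫ y, cpsi V1 Q L (q * y) * η (y⁻¹ * x) ∂μ := by
      rw [← integral_mul_left_eq_self (μ := μ)
        (fun y => cpsi V1 Q L y * η (y⁻¹ * (q * x))) q]
      congr 1
      funext y
      congr 2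
      group
    have e2 : Integrable (fun y => cpsi V1 Q L (q * y) * η (y⁻¹ * x)) μ := by
      have := (hint (q * x)).1.comp_mul_left q
      refine this.congr (Filter.Eventually.of_forall fun y => ?_)
      show cpsi V1 Q L (q * y) * η ((q * y)⁻¹ * (q * x)) = _
      congr 2
      group
    rw [e1, ← integral_sub e2 (hint x).1]
    congr 1
    funext y
    ring
  refine ⟨fun x => ∫ y, cpsi V1 Q L y * η (y⁻¹ * x) ∂μ, ?_, ?_, ?_, ?_, ?_, ?_⟩
  · -- lower bound at one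
    refine integral_mono (hcc.integrable_of_hasCompactSupport hccs) (hint 1).1 ?_
    intro y
    show η y * η y⁻¹ ≤ cpsi V1 Q L y * η (y⁻¹ * 1)
    rw [mul_one]
    refine mul_le_mul_of_nonneg_right ?_ (hηnn _)
    by_cases hy : y ∈ V1
    · rw [cpsi_one h1Q hL hy]; exact hηle _
    · have : η y = 0 := by
        by_contra h
        exact hy (hηV y h)
      rw [this]; exact cpsi_nonneg _ _ _ _
  · intro x
    exact integral_nonneg fun y => mul_nonneg (cpsi_nonneg _ _ _ _) (hηnn _)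
  · intro x
    have := (hint x).2
    rw [one_mul] at this
    exact (le_abs_self _).trans this
  · intro x hx
    by_contra hcon
    apply hx
    have : ∀ y, cpsi V1 Q L y * η (y⁻¹ * x) = 0 := by
      intro y
      by_contra h
      obtain ⟨j, hj, a, ha, v, hv, hav⟩ := cpsi_supp h1Q (left_ne_zero_of_mul h)
      have hv2 := hηV _ (right_ne_zero_of_mul h)
      apply hcon
      refine ⟨a, pow_mono_one h1Q hj.le ha, v * (y⁻¹ * x), hV1V ⟨v, hv, _, hv2, rfl⟩, ?_⟩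
      have hav' : a * v = y := hav
      show a * (v * (y⁻¹ * x)) = x
      rw [← mul_assoc, hav', mul_inv_cancel_left]
    simp [this]
  · intro δ hδ h hh x
    have h1 := (hint (h * x)).1
    have h2 := (hint x).1
    rw [← integral_sub h1 h2]
    have h3 := (core_integral μ D1 hD1 (fun y => cpsi V1 Q L y * η (y⁻¹ * (h * x)) -
      cpsi V1 Q L y * η (y⁻¹ * x)) ((hpsim.mul (by fun_prop : Continuous fun y : S =>
      η (y⁻¹ * (h * x))).measurable).sub (hpsim.mul (by fun_prop : Continuous fun y : S =>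
      η (y⁻¹ * x)).measurable)) (δ / (m + 1)) ?_ ?_).2
    · refine h3.trans ?_
      rw [← hm, div_mul_eq_mul_div, div_le_iff₀ (by positivity)]
      nlinarith
    · intro y
      by_cases hy : y ∈ D1
      · rw [← mul_sub, abs_mul, abs_of_nonneg (cpsi_nonneg _ _ _ _)]
        calc _ ≤ 1 * (δ / (m + 1)) := mul_le_mul (cpsi_le_one _ _ hL _)
              ((hV δ hδ).2 h hh y hy x) (abs_nonneg _) zero_le_one
          _ = _ := one_mul _
      · have : cpsi V1 Q L y = 0 := by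
          by_contra h
          exact hy (hpsiD y h)
        rw [this, zero_mul, zero_mul, sub_zero, abs_zero]
        positivity
    · intro y hy
      have : cpsi V1 Q L y = 0 := by
        by_contra h
        exact hy (hpsiD y h)
      rw [this, zero_mul, zero_mul, sub_zero]
  · intro δ hδ h hh q hq x
    have e : (∫ y, cpsi V1 Q L y * η (y⁻¹ * (q * (h * x))) ∂μ) -
        (∫ y, cpsi V1 Q L y * η (y⁻¹ * (h * x)) ∂μ) -
        (∫ y, cpsi V1 Q L y * η (y⁻¹ * (q * x)) ∂μ) +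
        (∫ y, cpsi V1 Q L y * η (y⁻¹ * x) ∂μ) =
        (∫ y, (cpsi V1 Q L (q * y) - cpsi V1 Q L y) * η (y⁻¹ * (h * x)) ∂μ) -
        ∫ y, (cpsi V1 Q L (q * y) - cpsi V1 Q L y) * η (y⁻¹ * x) ∂μ := by
      rw [← hdq q hq (h * x), ← hdq q hq x]
      ring
    show |(∫ y, cpsi V1 Q L y * η (y⁻¹ * (q * (h * x))) ∂μ) -
        (∫ y, cpsi V1 Q L y * η (y⁻¹ * (h * x)) ∂μ) -
        (∫ y, cpsi V1 Q L y * η (y⁻¹ * (q * x)) ∂μ) +
        (∫ y, cpsi V1 Q L y * η (y⁻¹ * x) ∂μ)| ≤ δ / L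
    rw [e]
    have hdm : Measurable fun y => cpsi V1 Q L (q * y) - cpsi V1 Q L y :=
      (hpsim.comp (continuous_const_mul q).measurable).sub hpsim
    have hd0 : ∀ y, y ∉ D1 → cpsi V1 Q L (q * y) - cpsi V1 Q L y = 0 := by
      intro y hy
      have h1 : cpsi V1 Q L y = 0 := by
        by_contra h
        exact hy (hpsiD y h)
      have h2 : cpsi V1 Q L (q * y) = 0 := by
        by_contra h
        exact hy (hpsiD' q hq y h)
      rw [h1, h2, sub_zero]
    have hdint : ∀ x, Integrable (fun y => (cpsi V1 Q L (q * y) - cpsi V1 Q L y) *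
        η (y⁻¹ * x)) μ := by
      intro x
      refine (core_integral μ D1 hD1
        (fun y => (cpsi V1 Q L (q * y) - cpsi V1 Q L y) * η (y⁻¹ * x))
        (hdm.mul (by fun_prop : Continuous fun y : S =>
        η (y⁻¹ * x)).measurable) (1 / L) ?_ ?_).1
      · intro y
        rw [abs_mul, abs_of_nonneg (hηnn _)]
        calc _ ≤ 1 / (L : ℝ) * 1 := mul_le_mul (cpsi_diff_abs h1Q hinv hL hq y) (hηle _)
              (hηnn _) (by positivity)
          _ = _ := mul_one _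
      · intro y hy
        rw [hd0 y hy, zero_mul]
    rw [← integral_sub (hdint _) (hdint _)]
    have h3 := (core_integral μ D1 hD1 (fun y => (cpsi V1 Q L (q * y) - cpsi V1 Q L y) *
      η (y⁻¹ * (h * x)) - (cpsi V1 Q L (q * y) - cpsi V1 Q L y) * η (y⁻¹ * x))
      ((hdm.mul (by fun_prop : Continuous fun y : S =>
      η (y⁻¹ * (h * x))).measurable).sub (hdm.mul (by fun_prop : Continuous fun y : S =>
      η (y⁻¹ * x)).measurable)) (1 / L * (δ / (m + 1))) ?_ ?_).2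
    · refine h3.trans ?_
      rw [← hm]
      have : δ / (m + 1) * m ≤ δ := by
        rw [div_mul_eq_mul_div, div_le_iff₀ (by positivity)]
        nlinarith
      calc 1 / (L : ℝ) * (δ / (m + 1)) * m = 1 / (L : ℝ) * (δ / (m + 1) * m) := by ring
        _ ≤ 1 / (L : ℝ) * δ := mul_le_mul_of_nonneg_left this (by positivity)
        _ = δ / L := by ring
    · intro y
      by_cases hy : y ∈ D1
      · rw [← mul_sub, abs_mul]
        exact mul_le_mul (cpsi_diff_abs h1Q hinv hL hq y)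
              ((hV δ hδ).2 h hh y hy x) (abs_nonneg _) (by positivity)
      · rw [hd0 y hy, zero_mul, zero_mul, sub_zero, abs_zero]
        positivity
    · intro y hy
      rw [hd0 y hy, zero_mul, zero_mul, sub_zero]

end CoreLemma

end Pool.Agent.LCUniv
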