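import Mathlib
import Pool.Agent.LCUniv.Constr2

set_option autoImplicit false

/-! Forcing discreteness: every countable group sits in a countable group in which
nontriviality of its elements is witnessed by a fixed commutator. -/

namespace Pool.Agent.LCUniv

open Equiv Topology

section

variable (K : Type) [Group K]

/-- left translation on the first coordinate -/
def dtop (k : K) : Perm (K × Fin 3) := mov (Equiv.mulLeft k)

lemma dtop_mul (k l : K) : dtop K (k * l) = dtop K k * dtop K l := by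
  rw [dtop, dtop, dtop, mov_mul]
  congr 1
  ext x
  simp

lemma dtop_one : dtop K 1 = 1 := by
  rw [dtop, Equiv.mulLeft_one]
  exact mov_one

lemma dtop_inv (k : K) : (dtop K k)⁻¹ = dtop K k⁻¹ := by
  rw [inv_eq_iff_mul_eq_one, ← dtop_mul, mul_inv_cancel, dtop_one]

open scoped Classical in
/-- acts on every fibre except that over `1` -/
noncomputable def df : Perm (K × Fin 3) := fam (fun x : K => if x = 1 then 1 else Equiv.swap 0 1)

open scoped Classical in
/-- acts on the fibre over `1` only -/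
noncomputable def dg : Perm (K × Fin 3) := fam (fun x : K => if x = 1 then Equiv.swap 1 2 else 1)

open scoped Classical in
/-- the commutator, on the fibre over `1` -/
noncomputable def dz : Perm (K × Fin 3) := fam (fun x : K => if x = 1 then
  Equiv.swap 0 1 * Equiv.swap 1 2 * (Equiv.swap 0 1)⁻¹ * (Equiv.swap 1 2)⁻¹ else 1)

lemma dz_ne : dz K ≠ 1 := by
  intro h
  have h1 := congrArg (fun p : Perm (K × Fin 3) => p (1, 0)) h
  simp only [dz, fam_apply, if_true, Perm.one_apply] at h1
  have h2 : (Equiv.swap (0 : Fin 3) 1 * Equiv.swap 1 2 * (Equiv.swap 0 1)⁻¹ *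
    (Equiv.swap 1 2)⁻¹ : Perm (Fin 3)) 0 = 0 := congrArg Prod.snd h1
  revert h2
  decide

lemma dcomm {k : K} (hk : k ≠ 1) :
    (dtop K k * df K * (dtop K k)⁻¹) * dg K * (dtop K k * df K * (dtop K k)⁻¹)⁻¹ * (dg K)⁻¹ =
      dz K := by
  classical
  have h1 := mov_conj_fam (X := Fin 3) (Equiv.mulLeft k⁻¹)
    (fun x : K => if x = 1 then 1 else Equiv.swap 0 1)
  have h2 : (mov (Equiv.mulLeft k⁻¹) : Perm (K × Fin 3)) = (dtop K k)⁻¹ := (dtop_inv K k).symm
  rw [h2, inv_inv] at h1
  rw [df, h1, dg, dz, fam_mul, fam_inv, fam_inv, fam_mul, fam_mul]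
  congr 1
  funext x
  have e1 : (Equiv.mulLeft k⁻¹) x = k⁻¹ * x := rfl
  by_cases hx : x = 1
  · have h3 : ¬ (Equiv.mulLeft k⁻¹) x = 1 := by
      rw [e1, hx, mul_one]
      exact inv_ne_one.mpr hk
    simp only [if_neg h3, if_pos hx]
  · simp only [if_neg hx, mul_one, inv_one, mul_inv_cancel]

lemma dcomm_one : df K * dg K * (df K)⁻¹ * (dg K)⁻¹ = 1 := by
  classical
  rw [df, dg, fam_mul, fam_inv, fam_inv, fam_mul, fam_mul, ← fam_one]
  congr 1
  funext x
  by_cases hx : x = 1
  · simp [hx]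
  · simp [hx]

end

/-- Every countable group `K` embeds in a countable group `G` with elements `f, g, z`, `z ≠ 1`,
such that `[k f k⁻¹, g] = z` for all nontrivial `k` in `K`, while `[f, g] = 1`. -/
theorem exists_disc (K : Type) [Group K] [Countable K] :
    ∃ (G : Type) (_ : Group G) (_ : Countable G) (ι : K →* G) (f g z : G),
      Function.Injective ι ∧ z ≠ 1 ∧ f * g * f⁻¹ * g⁻¹ = 1 ∧
      ∀ k : K, k ≠ 1 →
        (ι k * f * (ι k)⁻¹) * g * (ι k * f * (ι k)⁻¹)⁻¹ * g⁻¹ = z := by
  classical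
  let T : Set (Perm (K × Fin 3)) := Set.range (dtop K) ∪ {df K, dg K, dz K}
  let G := Subgroup.closure T
  have hc : Countable G := countable_closure
    ((Set.countable_range _).union (Set.toFinite _).countable)
  have ht : ∀ k, dtop K k ∈ G := fun k => Subgroup.subset_closure (Or.inl ⟨k, rfl⟩)
  have hf : df K ∈ G := Subgroup.subset_closure (Or.inr (by simp))
  have hg : dg K ∈ G := Subgroup.subset_closure (Or.inr (by simp))
  have hz : dz K ∈ G := Subgroup.subset_closure (Or.inr (by simp))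
  refine ⟨G, inferInstance, hc,
    { toFun := fun k => ⟨dtop K k, ht k⟩
      map_one' := Subtype.ext (dtop_one K)
      map_mul' := fun k l => Subtype.ext (dtop_mul K k l) },
    ⟨df K, hf⟩, ⟨dg K, hg⟩, ⟨dz K, hz⟩, ?_, ?_, ?_, ?_⟩
  · rw [injective_iff_map_eq_one]
    intro k hk
    have h1 : dtop K k = 1 := congrArg Subtype.val hk
    have h2 := congrArg (fun p : Perm (K × Fin 3) => p (1, 0)) h1
    simpa [dtop, mov_apply] using h2
  · intro h
    exact dz_ne K (congrArg Subtype.val h)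
  · exact Subtype.ext (dcomm_one K)
  · intro k hk
    exact Subtype.ext (dcomm K hk)

/-- In a Hausdorff group containing the group of `exists_disc`, the subgroup `K` is discrete. -/
theorem disc_nhds {K G S : Type} [Group K] [Group G] [Group S] [TopologicalSpace S]
    [IsTopologicalGroup S] [T2Space S] (ι : K →* G) (f g z : G) (hz : z ≠ 1)
    (h1 : f * g * f⁻¹ * g⁻¹ = 1)
    (hk : ∀ k : K, k ≠ 1 →
        (ι k * f * (ι k)⁻¹) * g * (ι k * f * (ι k)⁻¹)⁻¹ * g⁻¹ = z)
    (φ : G →* S) (hφ : Function.Injective φ) :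
    ∃ Ω ∈ 𝓝 (1 : S), ∀ k : K, φ (ι k) ∈ Ω → k = 1 := by
  let F : S → S := fun x => (x * φ f * x⁻¹) * φ g * (x * φ f * x⁻¹)⁻¹ * (φ g)⁻¹
  have hF : Continuous F := by fun_prop
  have hF1 : F 1 = 1 := by
    have := congrArg φ h1
    simpa [F] using this
  have hz1 : (1 : S) ≠ φ z := fun h => hz (hφ (by rw [← h, map_one]))
  have hne : {φ z}ᶜ ∈ 𝓝 (F 1) := by
    rw [hF1]
    exact isOpen_compl_singleton.mem_nhds hz1
  refine ⟨F ⁻¹' {φ z}ᶜ, hF.continuousAt hne, ?_⟩
  intro k hkΩ
  by_contra hk1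
  apply hkΩ
  have := congrArg φ (hk k hk1)
  simpa [F] using this

end Pool.Agent.LCUniv
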