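import Mathlib
import Pool.Agent.LCUniv.Constr

set_option autoImplicit false

/-! Countable groups realising every pattern on exponentially many words of linear length. -/

namespace Pool.Agent.LCUniv

open Equiv

/-- evaluation of a list of signed letters -/
def ev {H : Type*} [Group H] (c : Fin 3 → H) (L : List (Fin 3 × Bool)) : H :=
  (L.map fun x => cond x.2 (c x.1) (c x.1)⁻¹).prod

section Ev

variable {H : Type*} [Group H] (c : Fin 3 → H)

lemma ev_nil : ev c [] = 1 := rfl

lemma ev_cons (x : Fin 3 × Bool) (L : List (Fin 3 × Bool)) :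
    ev c (x :: L) = cond x.2 (c x.1) (c x.1)⁻¹ * ev c L := by
  simp [ev]

lemma ev_append (L M : List (Fin 3 × Bool)) : ev c (L ++ M) = ev c L * ev c M := by
  simp [ev]

/-- the inverse list -/
def linv (L : List (Fin 3 × Bool)) : List (Fin 3 × Bool) := (L.map fun x => (x.1, !x.2)).reverse

lemma linv_length (L : List (Fin 3 × Bool)) : (linv L).length = L.length := by
  simp [linv]

lemma ev_linv (L : List (Fin 3 × Bool)) : ev c (linv L) = (ev c L)⁻¹ := by
  induction L with
  | nil => simp [linv, ev]
  | cons x L ih =>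
    have h1 : linv (x :: L) = linv L ++ [(x.1, !x.2)] := by simp [linv]
    rw [h1, ev_append, ih, ev_cons c x L, mul_inv_rev]
    congr 1
    obtain ⟨i, b⟩ := x
    cases b <;> simp [ev]

lemma ev_map {H' : Type*} [Group H'] (φ : H →* H') (L : List (Fin 3 × Bool)) :
    φ (ev c L) = ev (fun i => φ (c i)) L := by
  induction L with
  | nil => simp [ev]
  | cons x L ih =>
    rw [ev_cons, ev_cons, map_mul, ih]
    congr 1
    obtain ⟨i, b⟩ := x
    cases b <;> simp

end Ev

/-- a short word for the power `a ^ n` -/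
def aw (n : ℕ) : List (Fin 3 × Bool) :=
  if h : n = 0 then [] else
    (1, true) :: (aw (n / 2) ++ ((1, false) :: (if n % 2 = 1 then [(0, true)] else [])))
termination_by n
decreasing_by exact Nat.div_lt_self (Nat.pos_of_ne_zero h) one_lt_two

lemma aw_zero : aw 0 = [] := by
  rw [aw]; simp

lemma aw_pos {n : ℕ} (h : n ≠ 0) : aw n =
    (1, true) :: (aw (n / 2) ++ ((1, false) :: (if n % 2 = 1 then [(0, true)] else []))) := by
  rw [aw]; simp [h]

lemma aw_length (n : ℕ) : ∀ i < 2 ^ n, (aw i).length ≤ 3 * n := by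
  induction n with
  | zero =>
    intro i hi
    obtain rfl : i = 0 := by simpa using hi
    simp [aw_zero]
  | succ n ih =>
    intro i hi
    rcases Nat.eq_zero_or_pos i with h0 | h0
    · rw [h0, aw_zero]; simp
    · rw [aw_pos (by omega)]
      have h1 := ih (i / 2) (by rw [pow_succ] at hi; omega)
      split_ifs <;> simp <;> omega

lemma ev_aw {H : Type*} [Group H] (c : Fin 3 → H) (h : c 1 * c 0 * (c 1)⁻¹ = c 0 ^ 2) (n : ℕ) :
    ev c (aw n) = c 0 ^ n := by
  induction n using Nat.strong_induction_on with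
  | _ n ih =>
    rcases Nat.eq_zero_or_pos n with h0 | h0
    · rw [h0, aw_zero]; simp [ev]
    · rw [aw_pos (by omega), ev_cons, ev_append, ih (n / 2) (by omega), ev_cons]
      have h1 : c 1 * c 0 ^ (n / 2) * (c 1)⁻¹ = c 0 ^ (2 * (n / 2)) := by
        rw [pow_mul, ← h, ← MulAut.conj_apply, ← MulAut.conj_apply, map_pow]
      have h2 : ev c (if n % 2 = 1 then [((0 : Fin 3), true)] else []) = c 0 ^ (n % 2) := by
        rcases Nat.mod_two_eq_zero_or_one n with h3 | h3
        · simp [h3, ev]
        · simp [h3, ev]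
      rw [h2]
      simp only [cond_true, cond_false]
      calc c 1 * (c 0 ^ (n / 2) * ((c 1)⁻¹ * c 0 ^ (n % 2)))
          = (c 1 * c 0 ^ (n / 2) * (c 1)⁻¹) * c 0 ^ (n % 2) := by group
        _ = c 0 ^ n := by
          rw [h1, ← pow_add]
          congr 1
          omega

/-- the test words -/
def tw (i : ℕ) : List (Fin 3 × Bool) :=
  (2, true) :: (aw i ++ ((2, true) :: (linv (aw i) ++ ((2, false) :: (aw i ++
    ((2, false) :: linv (aw i)))))))

lemma tw_length (n i : ℕ) (hi : i < 2 ^ n) : (tw i).length ≤ 12 * n + 4 := by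
  have := aw_length n i hi
  simp only [tw, List.length_cons, List.length_append, linv_length]
  omega

lemma tw_length_pos (i : ℕ) : 1 ≤ (tw i).length := by
  simp [tw]

lemma ev_tw {H : Type*} [Group H] (c : Fin 3 → H) (h : c 1 * c 0 * (c 1)⁻¹ = c 0 ^ 2) (i : ℕ) :
    ev c (tw i) = testWord i (c 0) (c 2) := by
  simp only [tw, ev_cons, ev_append, ev_linv, ev_aw c h, cond_true, cond_false, testWord]
  group

/-! ### The groups -/

/-- The block permutation of copy `n`. -/
noncomputable def qbBlock (J : Set ℕ) (n : ℕ) : Perm ℚ :=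
  open scoped Classical in if n ∈ J then 1 else Equiv.swap 0 (n : ℚ)

/-- shift -/
def qa : Perm (ℕ × ℚ) := Equiv.prodShear (Equiv.refl ℕ) (fun _ => Equiv.addRight 1)

/-- doubling -/
def qt : Perm (ℕ × ℚ) := Equiv.prodShear (Equiv.refl ℕ)
  (fun _ => Equiv.mulRight₀ (2 : ℚ) (by norm_num))

noncomputable def qb (J : Set ℕ) : Perm (ℕ × ℚ) :=
  Equiv.prodShear (Equiv.refl ℕ) (qbBlock J)

lemma qa_apply (n : ℕ) (z : ℚ) : qa (n, z) = (n, z + 1) := rfl

lemma qt_apply (n : ℕ) (z : ℚ) : qt (n, z) = (n, z * 2) := rfl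

lemma qt_qa : qt * qa * qt⁻¹ = qa ^ 2 := by
  rw [mul_inv_eq_iff_eq_mul, pow_two]
  apply Equiv.ext
  rintro ⟨n, z⟩
  simp only [Perm.mul_apply, qa_apply, qt_apply]
  ext
  · rfl
  · ring

lemma qa_pow_apply (i : ℕ) (n : ℕ) (z : ℚ) : (qa ^ i) (n, z) = (n, z + i) := by
  induction i generalizing z with
  | zero => simp
  | succ i ih =>
    rw [pow_succ', Perm.mul_apply, ih, qa_apply]
    push_cast
    ring_nf

lemma qa_pow_inv_apply (i : ℕ) (n : ℕ) (z : ℚ) : ((qa ^ i)⁻¹) (n, z) = (n, z - i) := by
  rw [Perm.inv_eq_iff_eq, qa_pow_apply]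
  simp

lemma qb_apply (J : Set ℕ) (n : ℕ) (z : ℚ) : qb J (n, z) = (n, qbBlock J n z) := rfl

lemma qb_test (J : Set ℕ) (i : ℕ) (hi : 1 ≤ i) : testWord i qa (qb J) = 1 ↔ i ∈ J := by
  rw [testWord_eq_one]
  have key : ∀ (n : ℕ) (z : ℚ), (qa ^ i * qb J * (qa ^ i)⁻¹) (n, z) =
      (n, qbBlock J n (z - i) + i) := by
    intro n z
    rw [Perm.mul_apply, Perm.mul_apply, qa_pow_inv_apply, qb_apply, qa_pow_apply]
  have hiq : (1 : ℚ) ≤ i := by exact_mod_cast hi
  constructor
  · intro h
    by_contra hJ
    have h1 := congrArg (fun p : Perm (ℕ × ℚ) => p (i, 0)) h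
    simp only [Perm.mul_apply _ (qb J), Perm.mul_apply (qb J), key, qb_apply] at h1
    have hb : qbBlock J i = Equiv.swap 0 (i : ℚ) := by simp [qbBlock, hJ]
    rw [hb] at h1
    have e1 : Equiv.swap (0 : ℚ) (i : ℚ) (0 - i) = 0 - i := by
      apply Equiv.swap_apply_of_ne_of_ne
      · intro h; linarith
      · intro h; linarith
    rw [e1] at h1
    have e2 : (0 : ℚ) - i + i = 0 := by ring
    rw [e2, Equiv.swap_apply_left] at h1
    have h2 : (i : ℚ) = Equiv.swap (0 : ℚ) (i : ℚ) (i - i) + i := congrArg Prod.snd h1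
    rw [sub_self, Equiv.swap_apply_left] at h2
    linarith
  · intro hJ
    apply Equiv.ext
    rintro ⟨n, z⟩
    simp only [Perm.mul_apply _ (qb J), Perm.mul_apply (qb J), key, qb_apply]
    by_cases hn : n ∈ J
    · simp [qbBlock, hn]
    · have hni : n ≠ i := fun h => hn (h ▸ hJ)
      have hniq : (n : ℚ) ≠ i := by exact_mod_cast hni
      have hnn : (0 : ℚ) ≤ n := by positivity
      have hb : qbBlock J n = Equiv.swap 0 (n : ℚ) := by simp [qbBlock, hn]
      rw [hb]
      congr 1
      -- the swaps `(0 n)` and `(i n+i)` commute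
      have hA : ∀ w : ℚ, w ≠ 0 → w ≠ n → Equiv.swap (0 : ℚ) (n : ℚ) w = w := fun w h1 h2 =>
        Equiv.swap_apply_of_ne_of_ne h1 h2
      by_cases hz1 : z = i
      · subst hz1
        rw [sub_self, Equiv.swap_apply_left, hA (n + i) (by intro h; linarith)
          (by intro h; linarith), hA i (by intro h; linarith) (Ne.symm hniq), sub_self,
          Equiv.swap_apply_left]
      · by_cases hz2 : z = n + i
        · subst hz2
          have e : (n : ℚ) + i - i = n := by ring
          rw [e, Equiv.swap_apply_right, hA (n + i) (by intro h; linarith)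
            (by intro h; linarith), e, Equiv.swap_apply_right, zero_add,
            hA i (by intro h; linarith) (Ne.symm hniq)]
        · have e1 : Equiv.swap (0 : ℚ) (n : ℚ) (z - i) = z - i :=
            hA _ (fun h => hz1 (by linarith)) (fun h => hz2 (by linarith))
          rw [e1]
          have e2 : z - i + i = z := by ring
          rw [e2]
          by_cases hz3 : z = 0
          · subst hz3
            rw [Equiv.swap_apply_left, hA _ (by intro h; exact hniq (by linarith))
              (by intro h; linarith)]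
            ring
          · by_cases hz4 : z = n
            · subst hz4
              rw [Equiv.swap_apply_right, hA _ (by intro h; linarith) (by intro h; linarith)]
              ring
            · rw [hA z hz3 hz4, e1, e2]

/-- For every set `J` of positive integers there is a countable group with three elements on which
the test words `tw i` are trivial exactly for `i ∈ J`. -/
theorem exists_pattern (J : Set ℕ) : ∃ (K : Type) (_ : Group K) (_ : Countable K) (c : Fin 3 → K),
    ∀ i : ℕ, 1 ≤ i → (ev c (tw i) = 1 ↔ i ∈ J) := by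
  let T : Subgroup (Perm (ℕ × ℚ)) := Subgroup.closure {qa, qt, qb J}
  have ha : qa ∈ T := Subgroup.subset_closure (by simp)
  have ht : qt ∈ T := Subgroup.subset_closure (by simp)
  have hb : qb J ∈ T := Subgroup.subset_closure (by simp)
  have hc : Countable T := countable_closure (Set.toFinite _).countable
  let c : Fin 3 → T := ![⟨qa, ha⟩, ⟨qt, ht⟩, ⟨qb J, hb⟩]
  refine ⟨T, inferInstance, hc, c, fun i hi => ?_⟩
  rw [← qb_test J i hi]
  have hrel : c 1 * c 0 * (c 1)⁻¹ = c 0 ^ 2 := Subtype.ext qt_qa
  rw [ev_tw c hrel]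
  have h := testWord_map T.subtype i (c 0) (c 2)
  have h0 : T.subtype (c 0) = qa := rfl
  have h2 : T.subtype (c 2) = qb J := rfl
  rw [h0, h2] at h
  rw [← h]
  constructor
  · intro h1
    rw [h1, map_one]
  · intro h1
    apply T.subtype_injective
    rw [h1, map_one]

end Pool.Agent.LCUniv
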