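import Mathlib
import Pool.Agent.LCUniv.Disc
import Pool.Agent.LCUniv.Pattern

set_option autoImplicit false

/-! The counting argument. -/

namespace Pool.Agent.LCUniv

open Topology Pointwise

section Perturb

variable {S : Type} [Group S] (B : ℕ → Set S)

lemma conj_pow_mem {κ : ℕ} {C : Set S}
    (hκ : ∀ m, ∀ c ∈ C, ∀ x ∈ B (κ * m), c * x * c⁻¹ ∈ B m) (M : ℕ) (y : S) (hy : y ∈ C)
    (l : ℕ) : ∀ x ∈ (B (κ * M)) ^ l, y * x * y⁻¹ ∈ (B M) ^ l := by
  induction l with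
  | zero =>
    intro x hx
    rw [pow_zero, Set.mem_one] at hx
    rw [hx, pow_zero, Set.mem_one]
    group
  | succ l ih =>
    intro x hx
    rw [pow_succ] at hx
    obtain ⟨a, ha, b, hb, rfl⟩ := hx
    rw [pow_succ]
    refine ⟨y * a * y⁻¹, ih a ha, y * b * y⁻¹, hκ M y hy b hb, ?_⟩
    simp only
    group

lemma perturb (hanti : Antitone B) (hinv : ∀ m, ∀ x ∈ B m, x⁻¹ ∈ B m) {κ : ℕ} {C : Set S}
    (hκ1 : 1 ≤ κ) (hκ : ∀ m, ∀ c ∈ C, ∀ x ∈ B (κ * m), c * x * c⁻¹ ∈ B m)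
    (c c' : Fin 3 → S) (hc : ∀ i, c i ∈ C) (hc' : ∀ i, (c i)⁻¹ ∈ C) (L : List (Fin 3 × Bool))
    (M m : ℕ) (hm : κ ^ (L.length + 1) * M ≤ m) (hcc : ∀ i, c' i * (c i)⁻¹ ∈ B m) :
    ev c' L * (ev c L)⁻¹ ∈ (B M) ^ L.length := by
  induction L generalizing M with
  | nil => simp [ev]
  | cons x L ih =>
    rw [List.length_cons] at hm
    have hM1 : κ * M ≤ m := by
      refine le_trans ?_ hm
      apply Nat.mul_le_mul_right
      calc κ = κ ^ 1 := (pow_one κ).symm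
        _ ≤ κ ^ (L.length + 1 + 1) := Nat.pow_le_pow_right hκ1 (by omega)
    have hM0 : M ≤ κ * M := Nat.le_mul_of_pos_left M hκ1
    have ih' := ih (κ * M) (by
      refine le_trans (le_of_eq ?_) hm
      ring)
    set y' : S := cond x.2 (c' x.1) (c' x.1)⁻¹ with hy'
    set y : S := cond x.2 (c x.1) (c x.1)⁻¹ with hy
    have hyC : y ∈ C := by
      rw [hy]
      cases x.2
      · exact hc' _
      · exact hc _
    have hv : y' * y⁻¹ ∈ B M := by
      rw [hy, hy']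
      cases x.2
      · simp only [cond_false]
        have h1 := hκ M (c x.1)⁻¹ (hc' _) _ (hinv _ _ (hanti hM1 (hcc x.1)))
        have e : (c x.1)⁻¹ * (c' x.1 * (c x.1)⁻¹)⁻¹ * ((c x.1)⁻¹)⁻¹ =
            (c' x.1)⁻¹ * ((c x.1)⁻¹)⁻¹ := by group
        rwa [e] at h1
      · simp only [cond_true]
        exact hanti (hM0.trans hM1) (hcc x.1)
    rw [ev_cons, ev_cons, List.length_cons, pow_succ']
    refine ⟨y' * y⁻¹, hv, y * (ev c' L * (ev c L)⁻¹) * y⁻¹,
      conj_pow_mem B hκ M y hyC _ _ ih', ?_⟩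
    have e : y' * y⁻¹ * (y * (ev c' L * (ev c L)⁻¹) * y⁻¹) =
        (y' * ev c' L) * (y * ev c L)⁻¹ := by group
    exact e

end Perturb

lemma eventually_lin_lt (a b : ℕ) : ∃ n0 : ℕ, ∀ n ≥ n0, a * n + b < 2 ^ n := by
  have ht : Filter.Tendsto (fun k : ℕ => ((a : ℝ) * (k : ℝ) + b) / (2 : ℝ) ^ k)
      Filter.atTop (nhds 0) := by
    have h1 : Filter.Tendsto (fun k : ℕ => (k : ℝ) ^ 1 / (2 : ℝ) ^ k) Filter.atTop (nhds 0) :=
      tendsto_pow_const_div_const_pow_of_one_lt 1 one_lt_two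
    have h0 : Filter.Tendsto (fun k : ℕ => (k : ℝ) ^ 0 / (2 : ℝ) ^ k) Filter.atTop (nhds 0) :=
      tendsto_pow_const_div_const_pow_of_one_lt 0 one_lt_two
    have h2 := (h1.const_mul (a : ℝ)).add (h0.const_mul (b : ℝ))
    have h3 : (a : ℝ) * 0 + b * 0 = 0 := by ring
    rw [h3] at h2
    refine h2.congr ?_
    intro k
    ring
  obtain ⟨n0, hn0⟩ := Filter.eventually_atTop.mp (ht.eventually (gt_mem_nhds one_pos))
  refine ⟨n0, fun n hn => ?_⟩
  have h1 := hn0 n hn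
  rw [div_lt_one (by positivity)] at h1
  exact_mod_cast h1

section Main

variable {S : Type} [Group S] [TopologicalSpace S]
  (B : ℕ → Set S) (hanti : Antitone B) (hinv : ∀ m, ∀ x ∈ B m, x⁻¹ ∈ B m)
  (hconj : ∀ C : Set S, IsCompact C → ∃ κ : ℕ, 1 ≤ κ ∧
    ∀ m, ∀ c ∈ C, ∀ x ∈ B (κ * m), c * x * c⁻¹ ∈ B m)
  (hprod : ∀ W ∈ 𝓝 (1 : S), ∃ κ : ℕ, 1 ≤ κ ∧ ∀ l, 1 ≤ l → (B (κ * l)) ^ l ⊆ W)
  (hprod2 : ∃ κ : ℕ, 1 ≤ κ ∧ ∀ m, B (κ * m) * B (κ * m) ⊆ B m)
  (hcov : ∀ C : Set S, IsCompact C → ∃ N : ℕ, ∀ j : ℕ, ∃ F : Finset S, F.card ≤ N ^ (j + 1) ∧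
    ∀ x ∈ C, ∃ f ∈ F, x * f⁻¹ ∈ B (2 ^ j))

include hanti hinv hconj hprod hprod2 hcov

/-- On a large level some pattern is not realised inside a given compact set. -/
lemma missing_pattern (C : Set S) (hC : IsCompact C) (hCinv : ∀ x ∈ C, x⁻¹ ∈ C)
    (Ω : Set S) (hΩ : Ω ∈ 𝓝 (1 : S)) :
    ∃ n0 : ℕ, ∀ n ≥ n0, ∃ P : Finset ℕ, P ⊆ Finset.Ico (2 ^ n) (2 ^ (n + 1)) ∧
      ∀ c : Fin 3 → S, (∀ i, c i ∈ C) →
        (∀ i ∈ Finset.Ico (2 ^ n) (2 ^ (n + 1)), ev c (tw i) ∈ Ω → ev c (tw i) = 1) →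
        ¬ (∀ i ∈ Finset.Ico (2 ^ n) (2 ^ (n + 1)), (ev c (tw i) = 1 ↔ i ∈ P)) := by
  obtain ⟨κ, hκ1, hκ⟩ := hconj C hC
  obtain ⟨κ', hκ'1, hκ'⟩ := hprod Ω hΩ
  obtain ⟨κ'', hκ''1, hκ''⟩ := hprod2
  obtain ⟨N, hN⟩ := hcov C hC
  -- the depth
  let l : ℕ → ℕ := fun n => 12 * (n + 1) + 4
  let j : ℕ → ℕ := fun n => κ'' + κ * (l n + 1) + κ' + l n
  obtain ⟨n0, hn0⟩ := eventually_lin_lt (3 * N * (12 * κ + 12))
    (3 * N * (κ'' + 17 * κ + κ' + 17))
  refine ⟨n0, fun n hn => ?_⟩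
  by_contra hcon
  push Not at hcon
  obtain ⟨F, hFcard, hF⟩ := hN (j n)
  choose! cP hcC hcD hcP using hcon
  choose! fl hflF hfl using hF
  -- the cell of a pattern
  have hcell : ∀ P ∈ (Finset.Ico (2 ^ n) (2 ^ (n + 1))).powerset,
      (fun i : Fin 3 => fl (cP P i)) ∈ Fintype.piFinset (fun _ : Fin 3 => F) := by
    intro P hP
    rw [Fintype.mem_piFinset]
    intro i
    exact hflF _ (hcC P (Finset.mem_powerset.mp hP) i)
  have hdepth : κ'' * (κ ^ (l n + 1) * (κ' * l n)) ≤ 2 ^ j n := by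
    have h1 : κ'' ≤ 2 ^ κ'' := Nat.lt_two_pow_self.le
    have h2 : κ ^ (l n + 1) ≤ 2 ^ (κ * (l n + 1)) := by
      rw [pow_mul]
      exact Nat.pow_le_pow_left Nat.lt_two_pow_self.le _
    have h3 : κ' ≤ 2 ^ κ' := Nat.lt_two_pow_self.le
    have h4 : l n ≤ 2 ^ l n := Nat.lt_two_pow_self.le
    calc κ'' * (κ ^ (l n + 1) * (κ' * l n))
        ≤ 2 ^ κ'' * (2 ^ (κ * (l n + 1)) * (2 ^ κ' * 2 ^ l n)) :=
          Nat.mul_le_mul h1 (Nat.mul_le_mul h2 (Nat.mul_le_mul h3 h4))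
      _ = 2 ^ j n := by
          simp only [j]
          rw [← pow_add, ← pow_add, ← pow_add]
          congr 1
          ring
  have hhalf : ∀ P ∈ (Finset.Ico (2 ^ n) (2 ^ (n + 1))).powerset,
      ∀ Q ∈ (Finset.Ico (2 ^ n) (2 ^ (n + 1))).powerset,
      (fun i : Fin 3 => fl (cP P i)) = (fun i : Fin 3 => fl (cP Q i)) →
      ∀ i ∈ Finset.Ico (2 ^ n) (2 ^ (n + 1)), i ∈ P → i ∈ Q := by
    intro P hP Q hQ hPQ i hi hiP
    have hP' := Finset.mem_powerset.mp hP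
    have hQ' := Finset.mem_powerset.mp hQ
    have h1 : ev (cP P) (tw i) = 1 := (hcP P hP' i hi).mpr hiP
    apply (hcP Q hQ' i hi).mp
    apply hcD Q hQ' i hi
    have hlen : (tw i).length ≤ l n := tw_length (n + 1) i (Finset.mem_Ico.mp hi).2
    have hclose : ∀ k : Fin 3, cP Q k * (cP P k)⁻¹ ∈ B (κ ^ (l n + 1) * (κ' * l n)) := by
      intro k
      apply hκ''
      have hk : fl (cP P k) = fl (cP Q k) := congrFun hPQ k
      have h2 := hfl _ (hcC Q hQ' k)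
      have h3 := hinv _ _ (hfl _ (hcC P hP' k))
      refine ⟨cP Q k * (fl (cP Q k))⁻¹, hanti hdepth h2, (cP P k * (fl (cP P k))⁻¹)⁻¹,
        hanti hdepth h3, ?_⟩
      simp only
      rw [hk]
      group
    have h2 := perturb B hanti hinv hκ1 hκ (cP P) (cP Q) (hcC P hP')
      (fun k => hCinv _ (hcC P hP' k)) (tw i) (κ' * (tw i).length)
      (κ ^ (l n + 1) * (κ' * l n)) (by
        refine Nat.mul_le_mul (Nat.pow_le_pow_right hκ1 (by omega)) ?_
        exact Nat.mul_le_mul_left _ hlen) hclose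
    rw [h1, inv_one, mul_one] at h2
    exact hκ' _ (tw_length_pos i) h2
  have hcard : (Finset.Ico (2 ^ n) (2 ^ (n + 1))).powerset.card ≤
      (Fintype.piFinset (fun _ : Fin 3 => F)).card := by
    apply Finset.card_le_card_of_injOn _ hcell
    intro P hP Q hQ hPQ
    rw [Finset.mem_coe] at hP hQ
    have hP' := Finset.mem_powerset.mp hP
    have hQ' := Finset.mem_powerset.mp hQ
    ext i
    constructor
    · intro hi
      exact hhalf P hP Q hQ hPQ i (hP' hi) hi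
    · intro hi
      exact hhalf Q hQ P hP hPQ.symm i (hQ' hi) hi
  rw [Finset.card_powerset, Nat.card_Ico, Fintype.card_piFinset] at hcard
  simp only [Finset.prod_const, Finset.card_univ, Fintype.card_fin] at hcard
  have h5 : 2 ^ (n + 1) - 2 ^ n = 2 ^ n := by
    rw [pow_succ]; omega
  rw [h5] at hcard
  have h6 : F.card ^ 3 ≤ 2 ^ (3 * N * (j n + 1)) := by
    calc F.card ^ 3 ≤ (N ^ (j n + 1)) ^ 3 := Nat.pow_le_pow_left hFcard 3
      _ ≤ ((2 ^ N) ^ (j n + 1)) ^ 3 :=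
          Nat.pow_le_pow_left (Nat.pow_le_pow_left Nat.lt_two_pow_self.le _) 3
      _ = 2 ^ (3 * N * (j n + 1)) := by
          rw [← pow_mul, ← pow_mul]
          congr 1
          ring
  have h7 : 2 ^ n ≤ 3 * N * (j n + 1) :=
    (Nat.pow_le_pow_iff_right one_lt_two).mp (hcard.trans h6)
  have h8 := hn0 n hn
  have h9 : 3 * N * (j n + 1) = 3 * N * (12 * κ + 12) * n + 3 * N * (κ'' + 17 * κ + κ' + 17) := by
    simp only [j, l]
    ring
  omega

theorem not_universal_of_estimates [IsTopologicalGroup S] [T2Space S] [LocallyCompactSpace S]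
    [SecondCountableTopology S] :
    ∃ (G : Type) (_ : Group G) (_ : Countable G), ∀ φ : G →* S, ¬ Function.Injective φ := by
  obtain ⟨Ω, hΩ⟩ := (𝓝 (1 : S)).exists_antitone_basis
  let C : ℕ → Set S := fun k => compactCovering S k ∪ (compactCovering S k)⁻¹
  have hCc : ∀ k, IsCompact (C k) := fun k =>
    (isCompact_compactCovering S k).union (isCompact_compactCovering S k).inv
  have hCinv : ∀ k, ∀ x ∈ C k, x⁻¹ ∈ C k := by
    intro k x hx
    rcases hx with hx | hx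
    · exact Or.inr (by simpa using hx)
    · exact Or.inl hx
  have hCmono : ∀ k k', k ≤ k' → C k ⊆ C k' := by
    intro k k' h
    exact Set.union_subset_union (compactCovering_subset S h)
      (Set.inv_subset_inv.mpr (compactCovering_subset S h))
  have hmiss := fun p : ℕ => missing_pattern B hanti hinv hconj hprod hprod2 hcov
    (C (Nat.unpair p).1) (hCc _) (hCinv _) (Ω (Nat.unpair p).2) (hΩ.1.mem_of_mem trivial)
  choose n0 hn0 using hmiss
  let lev : ℕ → ℕ := fun p => ∑ q ∈ Finset.range (p + 1), (n0 q + 1)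
  have hlev : ∀ p, n0 p ≤ lev p := by
    intro p
    have : n0 p + 1 ≤ lev p := Finset.single_le_sum (f := fun q => n0 q + 1)
      (fun q _ => Nat.zero_le _) (Finset.mem_range.mpr (Nat.lt_succ_self p))
    omega
  have hmono : StrictMono lev := by
    apply strictMono_nat_of_lt_succ
    intro p
    simp only [lev]
    rw [Finset.sum_range_succ _ (p + 1)]
    omega
  choose P hPsub hP using fun p => hn0 p (lev p) (hlev p)
  let J : Set ℕ := {i | ∃ p, i ∈ P p}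
  have hJ : ∀ p, ∀ i ∈ Finset.Ico (2 ^ lev p) (2 ^ (lev p + 1)), (i ∈ J ↔ i ∈ P p) := by
    intro p i hi
    constructor
    · rintro ⟨q, hq⟩
      have h1 := Finset.mem_Ico.mp (hPsub q hq)
      have h2 := Finset.mem_Ico.mp hi
      have h3 : lev q = lev p := by
        have h4 : lev q < lev p + 1 :=
          (Nat.pow_lt_pow_iff_right one_lt_two).mp (lt_of_le_of_lt h1.1 h2.2)
        have h5 : lev p < lev q + 1 :=
          (Nat.pow_lt_pow_iff_right one_lt_two).mp (lt_of_le_of_lt h2.1 h1.2)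
        omega
      have h4 : q = p := hmono.injective h3
      rw [← h4]
      exact hq
    · intro h
      exact ⟨p, h⟩
  obtain ⟨K, hK, hKc, c, hc⟩ := exists_pattern J
  obtain ⟨G, hG, hGc, ι, f, g, z, hι, hz, h1, hk⟩ := exists_disc K
  refine ⟨G, hG, hGc, fun φ hφ => ?_⟩
  obtain ⟨Ω', hΩ', hdisc⟩ := disc_nhds ι f g z hz h1 hk φ hφ
  obtain ⟨k2, -, hk2⟩ := hΩ.1.mem_iff.mp hΩ'
  have hcov' : ∀ x : S, ∃ k, x ∈ compactCovering S k := by
    intro x
    have : x ∈ ⋃ k, compactCovering S k := by rw [iUnion_compactCovering]; trivial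
    exact Set.mem_iUnion.mp this
  choose kx hkx using hcov'
  let c' : Fin 3 → S := fun i => φ (ι (c i))
  let k1 := kx (c' 0) + kx (c' 1) + kx (c' 2)
  have hc'C : ∀ i, c' i ∈ C k1 := by
    intro i
    apply hCmono (kx (c' i)) k1
    · fin_cases i <;> simp [k1] <;> omega
    · exact Or.inl (hkx _)
  let p := Nat.pair k1 k2
  have hp : Nat.unpair p = (k1, k2) := Nat.unpair_pair k1 k2
  have hPp := hP p c'
  rw [hp] at hPp
  have hev : ∀ i, ev c' (tw i) = φ (ι (ev c (tw i))) := by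
    intro i
    rw [ev_map, ev_map]
  apply hPp hc'C
  · intro i _ hi
    rw [hev] at hi ⊢
    rw [hdisc _ (hk2 hi), map_one, map_one]
  · intro i hi
    rw [hev, ← hJ p i hi, ← hc i (le_trans Nat.one_le_two_pow (Finset.mem_Ico.mp hi).1)]
    constructor
    · intro h
      apply hι
      apply hφ
      rw [h, map_one, map_one]
    · intro h
      rw [h, map_one, map_one]

end Main

end Pool.Agent.LCUniv
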