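import Pool.Agent.LCUniv.Core

set_option autoImplicit false
set_option linter.unusedSectionVars false
set_option linter.unusedVariables false

open Topology Pointwise

namespace Pool.Agent.LCUniv

section NSS

variable {S : Type} [Group S] [TopologicalSpace S] [IsTopologicalGroup S]

/-- elements whose first `m` powers lie in `U` -/
def Bm (U : Set S) (m : ℕ) : Set S := {x | ∀ i ≤ m, x ^ i ∈ U}

theorem Bm_anti (U : Set S) : Antitone (Bm U) := by
  intro m n h x hx i hi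
  exact hx i (hi.trans h)

theorem Bm_nhds {U : Set S} (hU : U ∈ 𝓝 (1 : S)) (m : ℕ) : Bm U m ∈ 𝓝 (1 : S) := by
  have : Bm U m = ⋂ i ∈ Finset.range (m + 1), (fun x : S => x ^ i) ⁻¹' U := by
    ext x
    simp only [Bm, Set.mem_ofPred_eq, Set.mem_iInter, Set.mem_preimage, Finset.mem_range,
      Nat.lt_succ_iff]
  rw [this]
  refine (Filter.biInter_finset_mem _).mpr fun i _ => ?_
  have hc : ContinuousAt (fun x : S => x ^ i) 1 := (continuous_pow i).continuousAt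
  apply hc.preimage_mem_nhds
  simpa using hU

theorem Bm_inv {U : Set S} (hs : ∀ u ∈ U, u⁻¹ ∈ U) (m : ℕ) {x : S} (hx : x ∈ Bm U m) :
    x⁻¹ ∈ Bm U m := by
  intro i hi
  rw [inv_pow]
  exact hs _ (hx i hi)

theorem one_mem_Bm {U : Set S} (h1 : (1 : S) ∈ U) (m : ℕ) : (1 : S) ∈ Bm U m := by
  intro i _
  rw [one_pow]
  exact h1

theorem Bm_closed {U : Set S} (hU : IsClosed U) (m : ℕ) : IsClosed (Bm U m) := by
  have : Bm U m = ⋂ i : ℕ, ⋂ _ : i ≤ m, (fun x : S => x ^ i) ⁻¹' U := by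
    ext x
    simp only [Bm, Set.mem_ofPred_eq, Set.mem_iInter, Set.mem_preimage]
  rw [this]
  exact isClosed_iInter fun i => isClosed_iInter fun _ => hU.preimage (continuous_pow i)

theorem Bm_base [T2Space S] {U : Set S} (hU : IsCompact U) (hs : ∀ u ∈ U, u⁻¹ ∈ U)
    (hn : ∀ x : S, (∀ i : ℤ, x ^ i ∈ U) → x = 1) {W : Set S} (hW : W ∈ 𝓝 (1 : S)) :
    ∃ k : ℕ, 1 ≤ k ∧ Bm U k ⊆ W := by
  obtain ⟨i, hi⟩ := exists_subset_nhds_of_isCompact' (V := fun i : ℕ => Bm U (i + 1)) (U := W)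
    (by
      intro a b
      exact ⟨max a b, Bm_anti U (by simp), Bm_anti U (by simp)⟩)
    (fun i => hU.of_isClosed_subset (Bm_closed hU.isClosed _)
      (fun x hx => by simpa using hx 1 (by omega)))
    (fun i => Bm_closed hU.isClosed _)
    (by
      intro x hx
      have h1 : x = 1 := by
        apply hn
        have hN : ∀ n : ℕ, x ^ n ∈ U := fun n => Set.mem_iInter.mp hx n n (by omega)
        intro i
        rcases Int.eq_nat_or_neg i with ⟨n, rfl | rfl⟩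
        · rw [zpow_natCast]; exact hN n
        · rw [zpow_neg, zpow_natCast]; exact hs _ (hN n)
      rw [h1]
      exact hW)
  exact ⟨i + 1, by omega, hi⟩

theorem Bm_pow_base [T2Space S] {U : Set S} (hU : IsCompact U) (hs : ∀ u ∈ U, u⁻¹ ∈ U)
    (hn : ∀ x : S, (∀ i : ℤ, x ^ i ∈ U) → x = 1) {W : Set S} (hW : W ∈ 𝓝 (1 : S)) :
    ∃ k : ℕ, 1 ≤ k ∧ ∀ M : ℕ, ∀ x ∈ Bm U (k * M), ∀ i ≤ M, x ^ i ∈ W := by
  obtain ⟨k, hk, hkW⟩ := Bm_base hU hs hn hW
  refine ⟨k, hk, fun M x hx i hi => hkW ?_⟩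
  intro j hj
  rw [← pow_mul]
  exact hx _ ((Nat.mul_le_mul hi hj).trans (by rw [Nat.mul_comm]))

theorem Bm_conj [T2Space S] {U : Set S} (hU : IsCompact U) (hU1 : U ∈ 𝓝 (1 : S))
    (hs : ∀ u ∈ U, u⁻¹ ∈ U)
    (hn : ∀ x : S, (∀ i : ℤ, x ^ i ∈ U) → x = 1) {C : Set S} (hC : IsCompact C) :
    ∃ κ : ℕ, 1 ≤ κ ∧ ∀ m, ∀ c ∈ C, ∀ x ∈ Bm U (κ * m), c * x * c⁻¹ ∈ Bm U m := by
  have hW : {x : S | ∀ c ∈ C, c * x * c⁻¹ ∈ U} ∈ 𝓝 (1 : S) := by
    refine IsCompact.eventually_forall_of_forall_eventually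
      (P := fun (x c : S) => c * x * c⁻¹ ∈ U) hC ?_
    intro c _
    have hc : Continuous fun z : S × S => z.2 * z.1 * z.2⁻¹ := by fun_prop
    have := hc.continuousAt (x := ((1 : S), c))
    apply this.preimage_mem_nhds
    simpa using hU1
  obtain ⟨k, hk, hkW⟩ := Bm_pow_base hU hs hn hW
  refine ⟨k, hk, fun m c hc x hx i hi => ?_⟩
  have := hkW m x hx i hi c hc
  rwa [conj_pow]

theorem tele_bound (φ : S → ℝ) (q : S) (ε : ℝ) (n : ℕ)
    (h : ∀ i < n, ∀ x, |φ (q * (q ^ i * x)) - φ (q ^ i * x) - φ (q * x) + φ x| ≤ ε) (x : S) :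
    |n * (φ (q * x) - φ x) - (φ (q ^ n * x) - φ x)| ≤ n * ε := by
  induction n with
  | zero => simp
  | succ n ih =>
    have ih' := ih (fun i hi => h i (by omega))
    have h1 := h n (by omega) x
    have e : q ^ (n + 1) * x = q * (q ^ n * x) := by rw [pow_succ', mul_assoc]
    rw [e]
    push_cast
    have e2 : ((n : ℝ) + 1) * (φ (q * x) - φ x) - (φ (q * (q ^ n * x)) - φ x) =
        (n * (φ (q * x) - φ x) - (φ (q ^ n * x) - φ x)) -
        (φ (q * (q ^ n * x)) - φ (q ^ n * x) - φ (q * x) + φ x) := by ring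
    rw [e2]
    calc _ ≤ _ := abs_sub _ _
      _ ≤ n * ε + ε := add_le_add ih' h1
      _ = _ := by ring

theorem chain_bound (φ : S → ℝ) (Q : Set S) (ε : ℝ) (h : ∀ q ∈ Q, ∀ x, |φ (q * x) - φ x| ≤ ε)
    (n : ℕ) : ∀ g ∈ Q ^ n, |φ g - φ 1| ≤ n * ε := by
  induction n with
  | zero =>
    intro g hg
    rw [pow_zero, Set.mem_one] at hg
    rw [hg]
    simp
  | succ n ih =>
    intro g hg
    rw [pow_succ'] at hg
    obtain ⟨q, hq, g', hg', rfl⟩ := hg
    have h1 := h q hq g'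
    have h2 := ih g' hg'
    have : φ (q * g') - φ 1 = (φ (q * g') - φ g') + (φ g' - φ 1) := by ring
    show |φ (q * g') - φ 1| ≤ _
    rw [this]
    push_cast
    calc _ ≤ _ := abs_add_le _ _
      _ ≤ ε + n * ε := add_le_add h1 h2
      _ = _ := by ring

/-- the derivative bound along elements of `Bm U m` -/
theorem deriv_bound {φ : S → ℝ} {C δ : ℝ} {n L : ℕ} (hn : 1 ≤ n) {q : S}
    (h0 : ∀ x, 0 ≤ φ x) (hC : ∀ x, φ x ≤ C)
    (h : ∀ i < n, ∀ x, |φ (q * (q ^ i * x)) - φ (q ^ i * x) - φ (q * x) + φ x| ≤ δ / L) (x : S) :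
    |φ (q * x) - φ x| ≤ C / n + δ / L := by
  have hn' : (0 : ℝ) < n := by exact_mod_cast hn
  have h1 := tele_bound φ q (δ / L) n h x
  have h2 : |φ (q ^ n * x) - φ x| ≤ C := by
    rw [abs_le]
    constructor
    · linarith [h0 (q ^ n * x), hC x]
    · linarith [h0 x, hC (q ^ n * x)]
  have h3 : |(n : ℝ) * (φ (q * x) - φ x)| ≤ n * (δ / L) + C := by
    have : (n : ℝ) * (φ (q * x) - φ x) = (n * (φ (q * x) - φ x) - (φ (q ^ n * x) - φ x)) +
        (φ (q ^ n * x) - φ x) := by ring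
    rw [this]
    exact (abs_add_le _ _).trans (add_le_add h1 h2)
  rw [abs_mul, abs_of_pos hn'] at h3
  have h4 : |φ (q * x) - φ x| ≤ (n * (δ / L) + C) / n := by
    rw [le_div_iff₀ hn']
    linarith
  refine h4.trans (le_of_eq ?_)
  field_simp
  ring

theorem Bm_pow_sub [T2Space S] {U : Set S} (h1 : (1 : S) ∈ U) {m a b : ℕ} (h : a ≤ b) :
    (Bm U m) ^ a ⊆ (Bm U m) ^ b := Set.pow_subset_pow_right (one_mem_Bm h1 m) h

/-- Gleason's estimate. -/
theorem gleason [T2Space S] [LocallyCompactSpace S] [SecondCountableTopology S]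
    {U : Set S} (hU : IsCompact U) (hU1 : U ∈ 𝓝 (1 : S))
    (hs : ∀ u ∈ U, u⁻¹ ∈ U) (hn : ∀ x : S, (∀ i : ℤ, x ^ i ∈ U) → x = 1)
    {V₀ : Set S} (hV₀ : V₀ ∈ 𝓝 (1 : S)) {U2 : Set S} (hU2 : U2 ∈ 𝓝 (1 : S))
    (hUV : U2 * V₀ ⊆ U) :
    ∃ k : ℕ, 1 ≤ k ∧ ∀ L m, k * L ≤ m → (Bm U m) ^ L ⊆ U2 := by
  have h1U : (1 : S) ∈ U := mem_of_mem_nhds hU1
  have h1V₀ : (1 : S) ∈ V₀ := mem_of_mem_nhds hV₀
  have hU2U : U2 ⊆ U := fun x hx => hUV ⟨x, hx, 1, h1V₀, mul_one x⟩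
  obtain ⟨c, C, V, hc, hV, hcore⟩ := core U hU V₀ hV₀
  obtain ⟨K0, hK0, hK0U⟩ := Bm_base hU hs hn hU2
  set K : ℕ := 2 * K0 with hK
  have hKpos : (0 : ℝ) < K := by
    have : 0 < K := by omega
    exact_mod_cast this
  set δ : ℝ := c / (4 * K) with hδ
  have hδ0 : 0 < δ := by positivity
  obtain ⟨k1, hk1, hk1V⟩ := Bm_pow_base hU hs hn (hV δ hδ0)
  obtain ⟨k2, hk2⟩ := exists_nat_gt (max (4 * K * C / c) 0)
  have hk2pos : (0 : ℝ) < k2 := lt_of_le_of_lt (le_max_right _ _) hk2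
  have hk2' : 1 ≤ k2 := by
    have : 0 < k2 := by exact_mod_cast hk2pos
    omega
  have hk2C : 4 * K * C / c < k2 := lt_of_le_of_lt (le_max_left _ _) hk2
  refine ⟨k1 * k2 * K0, ?_, ?_⟩
  · have : 0 < k1 * k2 * K0 := by positivity
    omega
  intro L
  induction L with
  | zero =>
    intro m _
    rw [pow_zero]
    rintro x hx
    rw [Set.mem_one] at hx
    rw [hx]
    exact mem_of_mem_nhds hU2
  | succ L ih =>
    intro m hm
    rcases Nat.eq_zero_or_pos L with hL0 | hL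
    · subst hL0
      rw [zero_add, pow_one]
      refine (Bm_anti U ?_).trans hK0U
      calc K0 = 1 * K0 := (one_mul _).symm
        _ ≤ k1 * k2 * K0 := Nat.mul_le_mul_right _ (Nat.mul_pos (by omega) (by omega))
        _ ≤ m := by simpa using hm
    · have hm' : k1 * k2 * K0 * L ≤ m := (Nat.mul_le_mul_left _ (Nat.le_succ L)).trans hm
      have ihL := ih m hm'
      have hLr : (0 : ℝ) < L := by exact_mod_cast hL
      obtain ⟨φ, hφ1, hφ0, hφC, hφs, hφd, hφdd⟩ := hcore (Bm U m) L (one_mem_Bm h1U m)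
        (fun q hq => Bm_inv hs m hq) hL (ihL.trans hU2U)
      have hC0 : 0 ≤ C := (hφ0 1).trans (hφC 1)
      -- derivative bound
      have hd : ∀ q ∈ Bm U m, ∀ x, |φ (q * x) - φ x| ≤ (C / k2 + δ) / L := by
        intro q hq x
        have hn1 : 1 ≤ k2 * L := Nat.mul_pos (by omega) hL
        have hq' : ∀ i ≤ k2 * L, q ^ i ∈ V δ := by
          apply hk1V (k2 * L) q
          refine Bm_anti U ?_ hq
          calc k1 * (k2 * L) = k1 * k2 * 1 * L := by ring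
            _ ≤ k1 * k2 * K0 * L := Nat.mul_le_mul_right _ (Nat.mul_le_mul_left _ hK0)
            _ ≤ m := hm'
        have := deriv_bound (φ := φ) (C := C) (δ := δ) (L := L) hn1 (q := q) hφ0 hφC
          (fun i hi x => hφdd δ hδ0 (q ^ i) (hq' i hi.le) q hq x) x
        refine this.trans (le_of_eq ?_)
        push_cast
        field_simp
      have hCk : C / k2 ≤ c / (4 * K) := by
        rw [div_le_div_iff₀ hk2pos (by positivity)]
        rw [div_lt_iff₀ hc] at hk2C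
        nlinarith
      -- the support argument
      have hbig : (Bm U m) ^ (K * L) ⊆ U := by
        intro g hg
        have h1 := chain_bound φ (Bm U m) _ hd (K * L) g hg
        have h2 : ((K * L : ℕ) : ℝ) * ((C / k2 + δ) / L) ≤ c / 2 := by
          push_cast
          have e : (K : ℝ) * L * ((C / k2 + δ) / L) = K * (C / k2 + δ) := by
            field_simp
          rw [e, hδ]
          calc (K : ℝ) * (C / k2 + c / (4 * K)) ≤ K * (c / (4 * K) + c / (4 * K)) := by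
                apply mul_le_mul_of_nonneg_left _ hKpos.le
                linarith
            _ = c / 2 := by field_simp; ring
        have h3 : φ g ≠ 0 := by
          intro h0
          rw [h0, zero_sub, abs_neg] at h1
          have := le_abs_self (φ 1)
          linarith
        exact hUV (Set.mul_subset_mul_right ihL (hφs g h3))
      -- conclusion
      intro x hx
      apply hK0U
      intro i hi
      apply hbig
      have h1 : x ^ i ∈ ((Bm U m) ^ (L + 1)) ^ i := Set.pow_mem_pow hx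
      rw [← pow_mul] at h1
      refine Bm_pow_sub h1U ?_ h1
      calc (L + 1) * i ≤ (2 * L) * K0 := Nat.mul_le_mul (by omega) hi
        _ = K * L := by rw [hK]; ring

theorem half_div {m k : ℕ} (hk : 1 ≤ k) (hm : k ≤ m) : (m : ℝ) ≤ 2 * k * (m / k : ℕ) := by
  have h1 : m < k * (m / k + 1) := by
    have := Nat.lt_mul_div_succ m (show 0 < k by omega)
    simpa using this
  have h2 : 1 ≤ m / k := (Nat.one_le_div_iff (by omega)).mpr hm
  have h3 : m ≤ 2 * k * (m / k) := by nlinarith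
  exact_mod_cast h3

theorem doubling [T2Space S] [LocallyCompactSpace S] [SecondCountableTopology S]
    {U : Set S} (hU : IsCompact U) (hU1 : U ∈ 𝓝 (1 : S))
    (hs : ∀ u ∈ U, u⁻¹ ∈ U) (hn : ∀ x : S, (∀ i : ℤ, x ^ i ∈ U) → x = 1)
    {V₀ : Set S} (hV₀ : V₀ ∈ 𝓝 (1 : S)) {U2 : Set S} (hU2 : U2 ∈ 𝓝 (1 : S))
    (hUV : U2 * V₀ ⊆ U) :
    ∃ N m1 : ℕ, ∀ m, m1 ≤ m → ∃ F : Finset S, F.card ≤ N ∧
      ∀ x ∈ Bm U m, ∃ f ∈ F, x * f⁻¹ ∈ Bm U (2 * m) := by
  classical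
  have h1U : (1 : S) ∈ U := mem_of_mem_nhds hU1
  have h1V₀ : (1 : S) ∈ V₀ := mem_of_mem_nhds hV₀
  have hU2U : U2 ⊆ U := fun x hx => hUV ⟨x, hx, 1, h1V₀, mul_one x⟩
  obtain ⟨k, hk, hkG⟩ := gleason hU hU1 hs hn hV₀ hU2 hUV
  obtain ⟨c, C, V, hc, hV, hcore⟩ := core U hU V₀ hV₀
  have hkr : (0 : ℝ) < k := by exact_mod_cast hk
  set δ : ℝ := c / (16 * k) with hδ
  have hδ0 : 0 < δ := by positivity
  obtain ⟨k1, hk1, hk1V⟩ := Bm_pow_base hU hs hn (hV δ hδ0)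
  have hk1r : (0 : ℝ) < k1 := by exact_mod_cast hk1
  set δ2 : ℝ := c / (16 * k1) with hδ2
  have hδ20 : 0 < δ2 := by positivity
  obtain ⟨W, hW, hWV⟩ := exists_nhds_split_inv (hV δ2 hδ20)
  obtain ⟨t, -, htU⟩ := hU.elim_nhds_subcover (fun a => {y : S | y * a⁻¹ ∈ W})
    (fun a _ => by
      have hcont : Continuous fun y : S => y * a⁻¹ := by fun_prop
      apply (hcont.continuousAt (x := a)).preimage_mem_nhds
      simpa using hW)
  refine ⟨t.card, k * k1, ?_⟩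
  intro m hm
  have hkm : k ≤ m := (Nat.le_mul_of_pos_right k (by omega)).trans hm
  have hk1m : k1 ≤ m := (Nat.le_mul_of_pos_left k1 (by omega)).trans hm
  have hmr : (0 : ℝ) < m := by
    have : 0 < m := by omega
    exact_mod_cast this
  set L : ℕ := m / k with hL
  set n : ℕ := m / k1 with hnn
  have hL1 : 1 ≤ L := (Nat.one_le_div_iff (by omega)).mpr hkm
  have hn1 : 1 ≤ n := (Nat.one_le_div_iff (by omega)).mpr hk1m
  have hLr : (0 : ℝ) < L := by exact_mod_cast hL1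
  have hnr : (0 : ℝ) < n := by exact_mod_cast hn1
  have hLm : (m : ℝ) ≤ 2 * k * L := half_div hk hkm
  have hnm : (m : ℝ) ≤ 2 * k1 * n := half_div hk1 hk1m
  have hQL : (Bm U m) ^ L ⊆ U2 := hkG L m (Nat.mul_div_le m k)
  obtain ⟨φ, hφ1, hφ0, hφC, hφs, hφd, hφdd⟩ := hcore (Bm U m) L (one_mem_Bm h1U m)
    (fun q hq => Bm_inv hs m hq) hL1 (hQL.trans hU2U)
  have hpow : ∀ q ∈ Bm U m, ∀ i ≤ n, q ^ i ∈ V δ := by
    intro q hq
    apply hk1V n q
    exact Bm_anti U (Nat.mul_div_le m k1) hq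
  -- the finite set
  let g : S → S := fun a => if h : ∃ g ∈ Bm U m, g ^ n * a⁻¹ ∈ W then h.choose else 1
  refine ⟨t.image g, Finset.card_image_le, ?_⟩
  intro x hx
  obtain ⟨a, hat, ha⟩ : ∃ a ∈ t, x ^ n * a⁻¹ ∈ W := by
    have := htU (hx n (Nat.div_le_self m k1))
    simpa using this
  have hex : ∃ g ∈ Bm U m, g ^ n * a⁻¹ ∈ W := ⟨x, hx, ha⟩
  have hga : g a = hex.choose := dif_pos hex
  refine ⟨g a, Finset.mem_image_of_mem g hat, ?_⟩
  have hgB : g a ∈ Bm U m := by rw [hga]; exact hex.choose_spec.1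
  have hgW : (g a) ^ n * a⁻¹ ∈ W := by rw [hga]; exact hex.choose_spec.2
  generalize g a = y at hgB hgW
  have hxy : x ^ n * (y ^ n)⁻¹ ∈ V δ2 := by
    have := hWV _ ha _ hgW
    have e : x ^ n * a⁻¹ / (y ^ n * a⁻¹) = x ^ n * (y ^ n)⁻¹ := by
      rw [div_eq_mul_inv, mul_inv_rev, inv_inv, mul_assoc, inv_mul_cancel_left]
    rwa [e] at this
  have hd : ∀ z, |φ (x * z) - φ (y * z)| ≤ δ2 / n + 2 * (δ / L) := by
    intro z
    have h1 := tele_bound φ x (δ / L) n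
      (fun i hi w => hφdd δ hδ0 (x ^ i) (hpow x hx i hi.le) x hx w) z
    have h2 := tele_bound φ y (δ / L) n
      (fun i hi w => hφdd δ hδ0 (y ^ i) (hpow y hgB i hi.le) y hgB w) z
    have h3 := hφd δ2 hδ20 _ hxy (y ^ n * z)
    have e : x ^ n * (y ^ n)⁻¹ * (y ^ n * z) = x ^ n * z := by group
    rw [e] at h3
    have h4 : |(n : ℝ) * (φ (x * z) - φ (y * z))| ≤ δ2 + 2 * (n * (δ / L)) := by
      have e2 : (n : ℝ) * (φ (x * z) - φ (y * z)) =
          ((n * (φ (x * z) - φ z) - (φ (x ^ n * z) - φ z)) -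
          (n * (φ (y * z) - φ z) - (φ (y ^ n * z) - φ z))) +
          (φ (x ^ n * z) - φ (y ^ n * z)) := by ring
      rw [e2]
      calc _ ≤ _ := abs_add_le _ _
        _ ≤ (n * (δ / L) + n * (δ / L)) + δ2 :=
          add_le_add ((abs_sub _ _).trans (add_le_add h1 h2)) h3
        _ = _ := by ring
    rw [abs_mul, abs_of_pos hnr] at h4
    have h5 : |φ (x * z) - φ (y * z)| ≤ (δ2 + 2 * (n * (δ / L))) / n := by
      rw [le_div_iff₀ hnr]
      linarith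
    refine h5.trans (le_of_eq ?_)
    field_simp
  have hd' : ∀ q ∈ ({x * y⁻¹} : Set S), ∀ z, |φ (q * z) - φ z| ≤ δ2 / n + 2 * (δ / L) := by
    intro q hq z
    rw [Set.mem_singleton_iff] at hq
    have := hd (y⁻¹ * z)
    rw [hq]
    have e1 : x * y⁻¹ * z = x * (y⁻¹ * z) := mul_assoc _ _ _
    have e2 : y * (y⁻¹ * z) = z := mul_inv_cancel_left _ _
    rw [e1]
    rwa [e2] at this
  have hsmall : 2 * (m : ℝ) * (δ2 / n + 2 * (δ / L)) ≤ 3 / 4 * c := by
    have a1 : 2 * (m : ℝ) * (δ2 / n) ≤ c / 4 := by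
      have : δ2 / n * m ≤ δ2 * (2 * k1) := by
        rw [div_mul_eq_mul_div, div_le_iff₀ hnr]
        nlinarith
      have e : δ2 * (2 * k1) = c / 8 := by rw [hδ2]; field_simp; norm_num
      rw [e] at this
      linarith
    have a2 : 2 * (m : ℝ) * (2 * (δ / L)) ≤ c / 2 := by
      have : δ / L * m ≤ δ * (2 * k) := by
        rw [div_mul_eq_mul_div, div_le_iff₀ hLr]
        nlinarith
      have e : δ * (2 * k) = c / 8 := by rw [hδ]; field_simp; norm_num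
      rw [e] at this
      linarith
    linarith
  intro i hi
  have h1 := chain_bound φ {x * y⁻¹} _ hd' i ((x * y⁻¹) ^ i)
    (Set.pow_mem_pow (Set.mem_singleton _))
  have h0e : 0 ≤ δ2 / n + 2 * (δ / L) := by positivity
  have hi' : (i : ℝ) ≤ 2 * m := by exact_mod_cast hi
  have h2 : (i : ℝ) * (δ2 / n + 2 * (δ / L)) ≤ 3 / 4 * c :=
    (mul_le_mul_of_nonneg_right hi' h0e).trans hsmall
  have h3 : φ ((x * y⁻¹) ^ i) ≠ 0 := by
    intro h0
    rw [h0, zero_sub, abs_neg] at h1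
    have := le_abs_self (φ 1)
    linarith
  exact hUV (Set.mul_subset_mul_right hQL (hφs _ h3))

/-- The estimates for groups with no small subgroups. -/
theorem nss_estimates [T2Space S] [LocallyCompactSpace S] [SecondCountableTopology S]
    (hnss : ∃ W ∈ 𝓝 (1 : S), ∀ x : S, (∀ i : ℤ, x ^ i ∈ W) → x = 1) :
    ∃ B : ℕ → Set S, (∀ m, B m ∈ 𝓝 (1 : S)) ∧ Antitone B ∧ (∀ m, ∀ x ∈ B m, x⁻¹ ∈ B m) ∧
      (∀ C : Set S, IsCompact C → ∃ κ : ℕ, 1 ≤ κ ∧ ∀ m, ∀ c ∈ C, ∀ x ∈ B (κ * m),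
        c * x * c⁻¹ ∈ B m) ∧
      (∀ W ∈ 𝓝 (1 : S), ∃ κ : ℕ, 1 ≤ κ ∧ ∀ l, 1 ≤ l → (B (κ * l)) ^ l ⊆ W) ∧
      (∃ κ : ℕ, 1 ≤ κ ∧ ∀ m, B (κ * m) * B (κ * m) ⊆ B m) ∧
      (∀ C : Set S, IsCompact C → ∃ N : ℕ, ∀ j : ℕ, ∃ F : Finset S, F.card ≤ N ^ (j + 1) ∧
        ∀ x ∈ C, ∃ f ∈ F, x * f⁻¹ ∈ B (2 ^ j)) := by
  classical
  obtain ⟨W, hW, hWn⟩ := hnss
  obtain ⟨K, hK1, hKW, hK⟩ := LocallyCompactSpace.local_compact_nhds 1 W hW
  set U : Set S := K ∩ K⁻¹ with hUdef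
  have hU : IsCompact U := hK.inter_right hK.inv.isClosed
  have hU1 : U ∈ 𝓝 (1 : S) := Filter.inter_mem hK1 (inv_mem_nhds_one S hK1)
  have h1U : (1 : S) ∈ U := mem_of_mem_nhds hU1
  have hs : ∀ u ∈ U, u⁻¹ ∈ U := by
    rintro u ⟨hu1, hu2⟩
    exact ⟨hu2, by simpa using hu1⟩
  have hn : ∀ x : S, (∀ i : ℤ, x ^ i ∈ U) → x = 1 := fun x hx =>
    hWn x fun i => hKW (hx i).1
  obtain ⟨V₀, hV₀, hV₀U⟩ := exists_open_nhds_one_mul_subset hU1
  have hV₀1 : V₀ ∈ 𝓝 (1 : S) := hV₀.mem_nhds hV₀U.1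
  have hVV : V₀ * V₀ ⊆ U := hV₀U.2
  have hV₀s : V₀ ⊆ U := fun x hx => hVV ⟨x, hx, 1, hV₀U.1, mul_one x⟩
  obtain ⟨k, hk, hkG⟩ := gleason hU hU1 hs hn hV₀1 hV₀1 hVV
  obtain ⟨N, m1, hdoub⟩ := doubling hU hU1 hs hn hV₀1 hV₀1 hVV
  refine ⟨Bm U, Bm_nhds hU1, Bm_anti U, fun m x hx => Bm_inv hs m hx,
    fun C hC => Bm_conj hU hU1 hs hn hC, ?_, ?_, ?_⟩
  · intro W' hW'
    obtain ⟨k0, hk0, hk0W⟩ := Bm_base hU hs hn hW'
    refine ⟨k * k0, Nat.mul_pos hk hk0, fun l hl x hx => hk0W ?_⟩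
    intro i hi
    apply hV₀s
    apply hkG (l * i) (k * k0 * l)
    · calc k * (l * i) ≤ k * (l * k0) := Nat.mul_le_mul_left _ (Nat.mul_le_mul_left _ hi)
        _ = k * k0 * l := by ring
    · have h1 : x ^ i ∈ ((Bm U (k * k0 * l)) ^ l) ^ i := Set.pow_mem_pow hx
      rwa [← pow_mul] at h1
  · refine ⟨2 * k, by omega, fun m x hx i hi => ?_⟩
    apply hV₀s
    apply hkG (2 * i) (2 * k * m)
    · calc k * (2 * i) ≤ k * (2 * m) := Nat.mul_le_mul_left _ (Nat.mul_le_mul_left _ hi)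
        _ = 2 * k * m := by ring
    · have h1 : x ^ i ∈ (Bm U (2 * k * m) * Bm U (2 * k * m)) ^ i := Set.pow_mem_pow hx
      rwa [← pow_two, ← pow_mul] at h1
  · intro C hC
    obtain ⟨j0, hj0⟩ : ∃ j0 : ℕ, m1 ≤ 2 ^ j0 := ⟨m1, Nat.lt_two_pow_self.le⟩
    obtain ⟨t, -, htC⟩ := hC.elim_nhds_subcover (fun a => {y : S | y * a⁻¹ ∈ Bm U (2 ^ j0)})
      (fun a _ => by
        have hcont : Continuous fun y : S => y * a⁻¹ := by fun_prop
        apply (hcont.continuousAt (x := a)).preimage_mem_nhds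
        simpa using Bm_nhds hU1 (2 ^ j0))
    have key : ∀ j : ℕ, ∃ F : Finset S, F.card ≤ (max t.card N) ^ (j + 1) ∧
        ∀ x ∈ C, ∃ f ∈ F, x * f⁻¹ ∈ Bm U (2 ^ (j0 + j)) := by
      intro j
      induction j with
      | zero =>
        refine ⟨t, by simp, fun x hx => ?_⟩
        have := htC hx
        simpa using this
      | succ j ih =>
        obtain ⟨F, hF, hFC⟩ := ih
        have hm1 : m1 ≤ 2 ^ (j0 + j) := hj0.trans (Nat.pow_le_pow_right (by omega) (by omega))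
        obtain ⟨F', hF', hF'C⟩ := hdoub _ hm1
        refine ⟨F' * F, ?_, ?_⟩
        · calc (F' * F).card ≤ F'.card * F.card := Finset.card_mul_le
            _ ≤ max t.card N * (max t.card N) ^ (j + 1) :=
              Nat.mul_le_mul (hF'.trans (le_max_right _ _)) hF
            _ = _ := by ring
        · intro x hx
          obtain ⟨f, hf, hfx⟩ := hFC x hx
          obtain ⟨f', hf', hfx'⟩ := hF'C _ hfx
          refine ⟨f' * f, Finset.mul_mem_mul hf' hf, ?_⟩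
          have e : x * (f' * f)⁻¹ = x * f⁻¹ * f'⁻¹ := by group
          have e2 : 2 ^ (j0 + (j + 1)) = 2 * 2 ^ (j0 + j) := by ring
          rw [e, e2]
          exact hfx'
    refine ⟨max t.card N, fun j => ?_⟩
    obtain ⟨F, hF, hFC⟩ := key j
    refine ⟨F, hF, fun x hx => ?_⟩
    obtain ⟨f, hf, hfx⟩ := hFC x hx
    exact ⟨f, hf, Bm_anti U (Nat.pow_le_pow_right (by omega) (by omega)) hfx⟩

end NSS

end Pool.Agent.LCUniv
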