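import Mathlib
import Pool.Agent.LCUniv.Constr2

set_option autoImplicit false

/-! Recurrence in compact groups kills the subgroup produced by `exists_G`. -/

namespace Pool.Agent.LCUniv

open Topology Filter

theorem kill {G : Type*} [Group G] {C : Type*} [Group C] [TopologicalSpace C]
    [IsTopologicalGroup C] [CompactSpace C] [T2Space C] (θ : G →* C) (s f g : G)
    (hneg : ∀ n : ℕ, 1 ≤ n → (s ^ n * f * (s ^ n)⁻¹) * g * (s ^ n * f * (s ^ n)⁻¹)⁻¹ * g⁻¹ = 1)
    (n : ℕ) :
    θ (((s ^ n)⁻¹ * f * s ^ n) * g * ((s ^ n)⁻¹ * f * s ^ n)⁻¹ * g⁻¹) = 1 := by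
  let F : C → C := fun u => ((θ s ^ n)⁻¹ * (u * θ f * u⁻¹) * θ s ^ n) * θ g *
    ((θ s ^ n)⁻¹ * (u * θ f * u⁻¹) * θ s ^ n)⁻¹ * (θ g)⁻¹
  have hF : Continuous F := by fun_prop
  have hclosed : IsClosed {u | F u = 1} := isClosed_eq hF continuous_const
  have hpow : ∀ m : ℕ, n + 1 ≤ m → F (θ s ^ m) = 1 := by
    intro m hm
    obtain ⟨j, rfl⟩ := Nat.exists_eq_add_of_le hm
    have h1 := congrArg θ (hneg (j + 1) (by omega))
    simp only [map_mul, map_inv, map_pow, map_one] at h1
    have e : (θ s ^ n)⁻¹ * (θ s ^ (n + 1 + j) * θ f * (θ s ^ (n + 1 + j))⁻¹) * θ s ^ n =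
        θ s ^ (j + 1) * θ f * (θ s ^ (j + 1))⁻¹ := by
      have e1 : θ s ^ (n + 1 + j) = θ s ^ n * θ s ^ (j + 1) := by
        rw [← pow_add]; congr 1; ring
      rw [e1]
      group
    simp only [F]
    rw [e]
    exact h1
  have hcl : MapClusterPt (1 : C) atTop (fun m : ℕ => θ s ^ m) := mapClusterPt_one_atTop_pow (θ s)
  have h1 : (1 : C) ∈ {u | F u = 1} := by
    apply hclosed.mem_of_mapClusterPt hcl
    filter_upwards [eventually_ge_atTop (n + 1)] with m hm
    exact hpow m hm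
  have h2 : F 1 = 1 := h1
  simp only [F, one_mul, inv_one, mul_one] at h2
  simpa only [map_mul, map_inv, map_pow] using h2

/-- A countable group with no embedding into a compact group. -/
theorem exists_noncompact :
    ∃ (E : Type) (_ : Group E) (_ : Countable E), ∀ (C : Type) [Group C] [TopologicalSpace C]
      [IsTopologicalGroup C] [CompactSpace C] [T2Space C] (θ : E →* C),
      ¬ Function.Injective θ := by
  obtain ⟨G, hG, hGc, ι, s, t, f, g, hι, -, hcomm, hneg⟩ := exists_G (Multiplicative (ZMod 2))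
  refine ⟨G, hG, hGc, ?_⟩
  intro C _ _ _ _ _ θ hθ
  have h1 : ∀ k, ι k = 1 := by
    intro k
    obtain ⟨n, hn⟩ := hcomm k
    apply hθ
    rw [map_one, hn]
    exact kill θ s f g hneg n
  have h2 : (Multiplicative.ofAdd (1 : ZMod 2)) = 1 := by
    apply hι
    rw [h1, map_one]
  have h3 : (1 : ZMod 2) = 0 := h2
  exact absurd h3 (by decide)

end Pool.Agent.LCUniv
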