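import Mathlib
import Pool.Agent.LCUniv.Bounded

set_option autoImplicit false

/-! A uniformly commensurated family of conjugates of a compact open subgroup yields an invariant
compact open subgroup. -/

namespace Pool.Agent.LCUniv

open Topology Pointwise

variable {G : Type*} [Group G] [TopologicalSpace G] [IsTopologicalGroup G] [T2Space G]

theorem exists_invariant {V : Subgroup G} (hVo : IsOpen (V : Set G)) (hVc : IsCompact (V : Set G))
    (K : Subgroup G) (B : ℕ) (hB : ∀ k ∈ K, V.relIndex (MulAut.conj k • V) ≤ B) :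
    ∃ N : Subgroup G, IsOpen (N : Set G) ∧ IsCompact (N : Set G) ∧
      ∀ k ∈ K, MulAut.conj k • N = N := by
  let C : G → Subgroup G := fun k => MulAut.conj k • V
  have hCo : ∀ k, IsOpen (C k : Set G) := fun k => isOpen_smul_conj hVo k
  have hCc : ∀ k, IsCompact (C k : Set G) := fun k => isCompact_smul_conj hVc k
  have hconj : ∀ (h k : G) (A : Subgroup G), (MulAut.conj h • A).relIndex (C k) =
      A.relIndex (C (h⁻¹ * k)) := by
    intro h k A
    have : C k = MulAut.conj h • C (h⁻¹ * k) := by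
      simp only [C]
      rw [← mul_smul, ← map_mul, mul_inv_cancel_left]
    rw [this, Subgroup.relIndex_pointwise_smul]
  have hconj' : ∀ (h k : G) (A : Subgroup G), (C k).relIndex (MulAut.conj h • A) =
      (C (h⁻¹ * k)).relIndex A := by
    intro h k A
    have : C k = MulAut.conj h • C (h⁻¹ * k) := by
      simp only [C]
      rw [← mul_smul, ← map_mul, mul_inv_cancel_left]
    rw [this, Subgroup.relIndex_pointwise_smul]
  have hBB : ∀ k ∈ K, ∀ l ∈ K, (C k).relIndex (C l) ≤ B := by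
    intro k hk l hl
    have h1 : (C k).relIndex (C l) = V.relIndex (C (k⁻¹ * l)) := hconj k l V
    rw [h1]
    exact hB _ (K.mul_mem (K.inv_mem hk) hl)
  -- the class of admissible subgroups
  let Adm : Subgroup G → Prop := fun A => IsOpen (A : Set G) ∧ (∃ k ∈ K, A ≤ C k) ∧
    ∃ b : ℕ, ∀ k ∈ K, A.relIndex (C k) ≤ b
  have hAdmc : ∀ A, Adm A → IsCompact (A : Set G) := by
    rintro A ⟨hA, ⟨k, -, hk⟩, -⟩
    exact (hCc k).of_isClosed_subset (Subgroup.isClosed_of_isOpen _ hA) hk
  have hAdmV : Adm V := by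
    refine ⟨hVo, ⟨1, K.one_mem, by simp [C]⟩, B, ?_⟩
    intro k hk
    have := hBB 1 K.one_mem k hk
    simpa [C] using this
  have hAdmInf : ∀ A A', Adm A → Adm A' → Adm (A ⊓ A') := by
    rintro A A' ⟨hA, ⟨k, hk, hAk⟩, b, hb⟩ ⟨hA', -, b', hb'⟩
    refine ⟨hA.inter hA', ⟨k, hk, inf_le_left.trans hAk⟩, b * b', ?_⟩
    intro l hl
    exact Subgroup.relIndex_inf_le.trans (Nat.mul_le_mul (hb l hl) (hb' l hl))
  have hAdmConj : ∀ A, Adm A → ∀ h ∈ K, Adm (MulAut.conj h • A) := by
    rintro A ⟨hA, ⟨k, hk, hAk⟩, b, hb⟩ h hh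
    refine ⟨isOpen_smul_conj hA h, ⟨h * k, K.mul_mem hh hk, ?_⟩, b, ?_⟩
    · simp only [C, map_mul, mul_smul]
      exact Subgroup.pointwise_smul_le_pointwise_smul_iff.mpr hAk
    · intro l hl
      rw [hconj]
      exact hb _ (K.mul_mem (K.inv_mem hh) hl)
  -- the minimal value
  have hex : ∃ m : ℕ, ∃ A, Adm A ∧ ∀ k ∈ K, (C k).relIndex A ≤ m := by
    refine ⟨B, V, hAdmV, ?_⟩
    intro k hk
    have := hBB k hk 1 K.one_mem
    simpa [C] using this
  classical
  obtain ⟨A₀, hA₀, hm⟩ := Nat.find_spec hex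
  set m := Nat.find hex with hmdef
  have hmin : ∀ A, Adm A → ∃ k ∈ K, m ≤ (C k).relIndex A := by
    intro A hA
    by_contra hcon
    push Not at hcon
    have hmpos : 0 < m := by
      have := hcon 1 K.one_mem
      omega
    exact Nat.find_min hex (m := m - 1) (by omega) ⟨A, hA, fun k hk => by
      have := hcon k hk
      omega⟩
  obtain ⟨b, hb⟩ := hA₀.2.2
  have hA₀c := hAdmc _ hA₀
  -- the generated subgroups
  let P : Finset G → Subgroup G := fun F => Subgroup.closure {x | ∃ h ∈ F, x ∈ MulAut.conj h • A₀}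
  have hPle : ∀ (F : Finset G) (h : G), h ∈ F → MulAut.conj h • A₀ ≤ P F := by
    intro F h hh x hx
    exact Subgroup.subset_closure ⟨h, hh, hx⟩
  have hPmono : ∀ F F' : Finset G, F ⊆ F' → P F ≤ P F' := by
    intro F F' hFF
    apply Subgroup.closure_mono
    rintro x ⟨h, hh, hx⟩
    exact ⟨h, hFF hh, hx⟩
  have hinf : ∀ F : Finset G, F.Nonempty → (∀ h ∈ F, h ∈ K) →
      ∃ A', Adm A' ∧ ∀ h ∈ F, A' ≤ MulAut.conj h • A₀ := by
    intro F hF
    induction hF using Finset.Nonempty.cons_induction with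
    | singleton a =>
      intro h
      refine ⟨MulAut.conj a • A₀, hAdmConj _ hA₀ a (h a (by simp)), ?_⟩
      intro h hh
      rw [Finset.mem_singleton] at hh
      rw [hh]
    | cons a s has hs ih =>
      intro h
      obtain ⟨A', hA', hle⟩ := ih (fun x hx => h x (by simp [hx]))
      refine ⟨MulAut.conj a • A₀ ⊓ A', hAdmInf _ _ (hAdmConj _ hA₀ a (h a (by simp))) hA', ?_⟩
      intro x hx
      rw [Finset.mem_cons] at hx
      rcases hx with rfl | hx
      · exact inf_le_left
      · exact inf_le_right.trans (hle x hx)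
  have hP : ∀ F : Finset G, (1 : G) ∈ F → (∀ h ∈ F, h ∈ K) →
      IsCompact (P F : Set G) ∧ IsOpen (P F : Set G) ∧ A₀.relIndex (P F) ≤ m * b := by
    intro F h1F hFK
    obtain ⟨A', hA', hle⟩ := hinf F ⟨1, h1F⟩ hFK
    obtain ⟨k, hk, hmk⟩ := hmin A' hA'
    have hA'c := hAdmc _ hA'
    have hstep : ∀ h ∈ F, ∀ x ∈ MulAut.conj h • A₀, ∃ l ∈ A', l⁻¹ * x ∈ C k := by
      intro h hh x hx
      refine exists_mul_of_relIndex_eq (hle h hh)
        (relIndex_ne_zero_of_compact_open (hCo k) (isCompact_smul_conj hA₀c h)) ?_ x hx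
      rw [hconj']
      exact (hm _ (K.mul_mem (K.inv_mem (hFK h hh)) hk)).trans hmk
    have hmul : ∀ h ∈ F, ∀ x ∈ MulAut.conj h • A₀, ∀ y, (∃ l ∈ A', l⁻¹ * y ∈ C k) →
        ∃ l ∈ A', l⁻¹ * (x * y) ∈ C k := by
      rintro h hh x hx y ⟨l, hl, hly⟩
      obtain ⟨l', hl', hlx'⟩ := hstep h hh (x * l) (Subgroup.mul_mem _ hx (hle h hh hl))
      refine ⟨l', hl', ?_⟩
      have e : l'⁻¹ * (x * y) = (l'⁻¹ * (x * l)) * (l⁻¹ * y) := by group
      rw [e]
      exact Subgroup.mul_mem _ hlx' hly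
    have hall : ∀ x ∈ P F, ∃ l ∈ A', l⁻¹ * x ∈ C k := by
      intro x hx
      induction hx using Subgroup.closure_induction_left with
      | one => exact ⟨1, A'.one_mem, by simp⟩
      | mul_left x hx y hy ih =>
        obtain ⟨h, hh, hxh⟩ := hx
        exact hmul h hh x hxh y ih
      | inv_mul_cancel x hx y hy ih =>
        obtain ⟨h, hh, hxh⟩ := hx
        exact hmul h hh x⁻¹ (Subgroup.inv_mem _ hxh) y ih
    have hopen : IsOpen (P F : Set G) := by
      have h1 : MulAut.conj (1 : G) • A₀ ≤ P F := hPle F 1 h1F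
      exact Subgroup.isOpen_mono h1 (isOpen_smul_conj hA₀.1 1)
    have hcomp : IsCompact (P F : Set G) := by
      refine (hA'c.mul (hCc k)).of_isClosed_subset (Subgroup.isClosed_of_isOpen _ hopen) ?_
      intro x hx
      obtain ⟨l, hl, hlx⟩ := hall x hx
      exact ⟨l, hl, l⁻¹ * x, hlx, by group⟩
    refine ⟨hcomp, hopen, ?_⟩
    have h1 : (C k).relIndex (P F) ≤ (C k).relIndex A' :=
      relIndex_le_of_mul (relIndex_ne_zero_of_compact_open (hCo k) hA'c) hall
    have h2 : (C k).relIndex A' ≤ m := by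
      have h3 : (C k).relIndex A' ≤ (C k).relIndex (MulAut.conj (1 : G) • A₀) :=
        Subgroup.relIndex_le_of_le_right (hle 1 h1F)
          (relIndex_ne_zero_of_compact_open (hCo k) (isCompact_smul_conj hA₀c 1))
      refine h3.trans ?_
      rw [hconj']
      exact hm _ (K.mul_mem (K.inv_mem K.one_mem) hk)
    have h3 := relIndex_triangle (P F) (C k) A₀
      (relIndex_ne_zero_of_compact_open hA₀.1 (hCc k))
      (relIndex_ne_zero_of_compact_open (hCo k) hcomp)
    exact h3.trans (Nat.mul_le_mul (h1.trans h2) (hb k hk))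
  -- a maximal one
  let T : Set ℕ := {n | ∃ F : Finset G, (1 : G) ∈ F ∧ (∀ h ∈ F, h ∈ K) ∧ n = A₀.relIndex (P F)}
  have hTne : T.Nonempty := ⟨_, {1}, by simp, by simp [K.one_mem], rfl⟩
  have hTbdd : BddAbove T := by
    refine ⟨m * b, ?_⟩
    rintro n ⟨F, h1, h2, rfl⟩
    exact (hP F h1 h2).2.2
  obtain ⟨F, h1F, hFK, hFeq⟩ := Nat.sSup_mem hTne hTbdd
  have hmax : ∀ h ∈ K, MulAut.conj h • A₀ ≤ P F := by
    intro h hh
    let F' := insert h F
    have h1F' : (1 : G) ∈ F' := Finset.mem_insert_of_mem h1F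
    have hFK' : ∀ x ∈ F', x ∈ K := by
      intro x hx
      rcases Finset.mem_insert.mp hx with rfl | hx
      · exact hh
      · exact hFK x hx
    have hle : A₀.relIndex (P F') ≤ A₀.relIndex (P F) := by
      rw [← hFeq]
      exact le_csSup hTbdd ⟨F', h1F', hFK', rfl⟩
    have hA₀P : A₀ ≤ P F := by
      have := hPle F 1 h1F
      simpa using this
    have hmul := Subgroup.relIndex_mul_relIndex A₀ (P F) (P F') hA₀P
      (hPmono _ _ (Finset.subset_insert _ _))
    have hne : A₀.relIndex (P F) ≠ 0 :=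
      relIndex_ne_zero_of_compact_open hA₀.1 (hP F h1F hFK).1
    have hne' : (P F).relIndex (P F') ≠ 0 :=
      relIndex_ne_zero_of_compact_open (hP F h1F hFK).2.1 (hP F' h1F' hFK').1
    have hone : (P F).relIndex (P F') = 1 := by
      rw [← hmul] at hle
      have h5 : (P F).relIndex (P F') ≤ 1 := by
        by_contra hcon
        push Not at hcon
        have : A₀.relIndex (P F) * 2 ≤ A₀.relIndex (P F) * (P F).relIndex (P F') :=
          Nat.mul_le_mul_left _ hcon
        omega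
      omega
    exact (hPle F' h (Finset.mem_insert_self _ _)).trans (Subgroup.relIndex_eq_one.mp hone)
  have hinv : ∀ k ∈ K, MulAut.conj k • P F ≤ P F := by
    intro k hk
    rw [Subgroup.pointwise_smul_subset_iff]
    apply (Subgroup.closure_le _).mpr
    rintro x ⟨h, hh, hx⟩
    rw [SetLike.mem_coe, mem_smul_iff, inv_inv]
    apply hmax (k * h) (K.mul_mem hk (hFK h hh))
    rw [map_mul, mul_smul, mem_smul_iff, ← MulAut.mul_apply, inv_mul_cancel]
    exact hx
  refine ⟨P F, (hP F h1F hFK).2.1, (hP F h1F hFK).1, fun k hk => le_antisymm (hinv k hk) ?_⟩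
  have := hinv k⁻¹ (K.inv_mem hk)
  rw [Subgroup.pointwise_smul_subset_iff, map_inv, inv_inv] at this
  exact this

end Pool.Agent.LCUniv
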