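import Mathlib
import Pool.Agent.LCUniv.Bounded

set_option autoImplicit false

/-! Compact open subgroups of totally disconnected locally compact groups. -/

namespace Pool.Agent.LCUniv

open Topology Pointwise

theorem exists_compact_open (G : Type*) [Group G] [TopologicalSpace G] [IsTopologicalGroup G]
    [T2Space G] [LocallyCompactSpace G] [TotallyDisconnectedSpace G] :
    ∃ V : Subgroup G, IsOpen (V : Set G) ∧ IsCompact (V : Set G) := by
  obtain ⟨K, hKc, hK1⟩ := exists_compact_mem_nhds (1 : G)
  have hbasis := loc_compact_Haus_tot_disc_of_zero_dim (H := G)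
  obtain ⟨W, hWclopen, h1W, hWK⟩ := hbasis.mem_nhds_iff.mp hK1
  have hWcl : IsClopen W := hWclopen
  have hWc : IsCompact W := hKc.of_isClosed_subset hWcl.isClosed hWK
  obtain ⟨T, hT, hWT⟩ := compact_open_separated_mul_right hWc hWcl.isOpen (subset_refl W)
  let H : Subgroup G := Subgroup.closure (T ∩ T⁻¹)
  have hH : ∀ x ∈ H, ∀ w ∈ W, w * x ∈ W ∧ w * x⁻¹ ∈ W := by
    intro x hx
    induction hx using Subgroup.closure_induction with
    | mem x hx =>
      intro w hw
      exact ⟨hWT ⟨w, hw, x, hx.1, rfl⟩, hWT ⟨w, hw, x⁻¹, hx.2, rfl⟩⟩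
    | one => intro w hw; simpa using hw
    | mul x y _ _ hx hy =>
      intro w hw
      refine ⟨?_, ?_⟩
      · rw [← mul_assoc]
        exact (hy _ (hx w hw).1).1
      · rw [mul_inv_rev, ← mul_assoc]
        exact (hx _ (hy w hw).2).2
    | inv x _ hx =>
      intro w hw
      rw [inv_inv]
      exact (hx w hw).symm
  have hHW : (H : Set G) ⊆ W := by
    intro x hx
    simpa using (hH x hx 1 h1W).1
  have hnhds : (H : Set G) ∈ 𝓝 (1 : G) := by
    have h1 : T ∩ T⁻¹ ∈ 𝓝 (1 : G) := Filter.inter_mem hT (inv_mem_nhds_one G hT)
    exact Filter.mem_of_superset h1 Subgroup.subset_closure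
  have hopen : IsOpen (H : Set G) := Subgroup.isOpen_of_mem_nhds H hnhds
  exact ⟨H, hopen, hWc.of_isClosed_subset (Subgroup.isClosed_of_isOpen _ hopen) hHW⟩

/-- There are only countably many compact open subsets in a second countable space. -/
theorem countable_compact_open (X : Type*) [TopologicalSpace X] [SecondCountableTopology X] :
    {s : Set X | IsOpen s ∧ IsCompact s}.Countable := by
  let b := TopologicalSpace.countableBasis X
  have hbb : TopologicalSpace.IsTopologicalBasis b := TopologicalSpace.isBasis_countableBasis X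
  have h1 : (Set.range fun t : Finset b => ⋃₀ (t : Set b).image Subtype.val).Countable :=
    Set.countable_range _
  refine h1.mono ?_
  rintro s ⟨hso, hsc⟩
  obtain ⟨t, ht⟩ := eq_sUnion_finset_of_isTopologicalBasis_of_isCompact_open b hbb s hsc hso
  exact ⟨t, ht.symm⟩

theorem countable_compact_open_subgroup (G : Type*) [Group G] [TopologicalSpace G]
    [SecondCountableTopology G] :
    Countable {V : Subgroup G // IsOpen (V : Set G) ∧ IsCompact (V : Set G)} := by
  have h1 : Countable {s : Set G | IsOpen s ∧ IsCompact s} :=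
    (countable_compact_open G).to_subtype
  let f : {V : Subgroup G // IsOpen (V : Set G) ∧ IsCompact (V : Set G)} →
      {s : Set G | IsOpen s ∧ IsCompact s} := fun V => ⟨(V.1 : Set G), V.2⟩
  have hf : Function.Injective f := by
    intro V W h
    apply Subtype.ext
    apply SetLike.coe_injective
    exact congrArg Subtype.val h
  exact hf.countable

theorem countable_quotient_open (G : Type*) [Group G] [TopologicalSpace G]
    [IsTopologicalGroup G] [SecondCountableTopology G] (V : Subgroup G)
    (hV : IsOpen (V : Set G)) : Countable (G ⧸ V) := by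
  obtain ⟨D, hDc, hD⟩ := TopologicalSpace.exists_countable_dense G
  have : Countable D := hDc.to_subtype
  have hsurj : Function.Surjective (fun d : D => (QuotientGroup.mk (d : G) : G ⧸ V)) := by
    intro q
    induction q using QuotientGroup.induction_on with
    | H g =>
      have hopen : IsOpen ((fun x => g⁻¹ * x) ⁻¹' (V : Set G)) := hV.preimage (by fun_prop)
      obtain ⟨d, hd, hdD⟩ := hD.exists_mem_open hopen ⟨g, by simp [V.one_mem]⟩
      refine ⟨⟨d, hd⟩, ?_⟩
      symm
      rw [QuotientGroup.eq]
      exact hdD
  exact hsurj.countable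

end Pool.Agent.LCUniv
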