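import Mathlib
import Pool.Agent.LCUniv.Kill
import Pool.Agent.LCUniv.Schlichting
import Pool.Agent.LCUniv.VanDantzig

set_option autoImplicit false

/-! No totally disconnected second countable locally compact group contains every countable
group. -/

namespace Pool.Agent.LCUniv

open Topology Pointwise

/-- The quotient of the normaliser. -/
abbrev NQ {S : Type} [Group S] (N : Subgroup S) : Type :=
  ↥(Subgroup.normalizer (N : Set S)) ⧸ N.subgroupOf (Subgroup.normalizer (N : Set S))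

theorem not_universal_td (S : Type) [Group S] [TopologicalSpace S] [IsTopologicalGroup S]
    [T2Space S] [LocallyCompactSpace S] [SecondCountableTopology S] [TotallyDisconnectedSpace S] :
    ∃ (G : Type) (_ : Group G) (_ : Countable G), ∀ φ : G →* S, ¬ Function.Injective φ := by
  by_contra hcon
  push Not at hcon
  obtain ⟨E1, hE1, hE1c, hE1n⟩ := exists_noncompact
  obtain ⟨Ebar, hEb, hEbc, ι₁, s₁, t₁, f₁, g₁, hι₁, -, hcomm₁, -⟩ := exists_G E1
  let CO := {V : Subgroup S // IsOpen (V : Set S) ∧ IsCompact (V : Set S)}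
  have hCO : Countable CO := countable_compact_open_subgroup S
  have hNQ : ∀ V : CO, Countable (NQ V.1) := by
    intro V
    have : SecondCountableTopology ↥(Subgroup.normalizer (V.1 : Set S)) :=
      inferInstanceAs (SecondCountableTopology
        ((Subgroup.normalizer (V.1 : Set S) : Set S) : Type))
    apply countable_quotient_open
    have : ((V.1.subgroupOf (Subgroup.normalizer (V.1 : Set S)) : Subgroup _) :
        Set ↥(Subgroup.normalizer (V.1 : Set S))) = Subtype.val ⁻¹' (V.1 : Set S) := by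
      ext x; simp [Subgroup.mem_subgroupOf]
    rw [this]
    exact V.2.1.preimage continuous_subtype_val
  obtain ⟨V, hVo, hVc⟩ := exists_compact_open S
  let T := Σ V : CO, NQ V.1 × NQ V.1
  have hT : Nonempty T := ⟨⟨⟨V, hVo, hVc⟩, 1, 1⟩⟩
  obtain ⟨e, he⟩ := exists_surjective_nat T
  let J : Set ℕ := {n | ∃ i, n = i + 1 ∧ testWord (i + 1) (e i).2.1 (e i).2.2 ≠ 1}
  obtain ⟨K, hK, hKc, a, b, hab⟩ := exists_KJ J
  obtain ⟨W, hW, hWc, top, base, htop, hbase, hWN⟩ := exists_W K Ebar
  obtain ⟨G, hG, hGc, ι, s, t, f, g, hι, hst, hcomm, -⟩ := exists_G W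
  obtain ⟨φ, hφ⟩ := hcon G hG hGc
  obtain ⟨B, hB⟩ := conj_bounded hVo hVc (s := φ s) (t := φ t)
    (by rw [← map_mul, ← map_inv, ← map_mul, hst, map_pow])
  let c : S → ℕ := fun x => V.relIndex (MulAut.conj x • V)
  have hc : ∀ x y, c (x * y) ≤ c x * c y := conj_mul_le hVo hVc
  let b1 := B * c (φ f) * B
  let b2 := B * c (φ f)⁻¹ * B
  have hbound : ∀ w : W, c (φ (ι w)) ≤ b1 * c (φ g) * b2 * c (φ g)⁻¹ := by
    intro w
    obtain ⟨n, hn⟩ := hcomm w
    rw [hn]
    simp only [map_mul, map_inv, map_pow]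
    have hBn : c (φ s ^ n) ≤ B := by
      have := hB n
      rwa [zpow_natCast] at this
    have hBn' : c (φ s ^ n)⁻¹ ≤ B := by
      have := hB (-n)
      rwa [zpow_neg, zpow_natCast] at this
    have h1 : c ((φ s ^ n)⁻¹ * φ f * φ s ^ n) ≤ b1 :=
      (hc _ _).trans (Nat.mul_le_mul ((hc _ _).trans (Nat.mul_le_mul_right _ hBn')) hBn)
    have h2 : c ((φ s ^ n)⁻¹ * φ f * φ s ^ n)⁻¹ ≤ b2 := by
      have e1 : ((φ s ^ n)⁻¹ * φ f * φ s ^ n)⁻¹ = (φ s ^ n)⁻¹ * (φ f)⁻¹ * φ s ^ n := by group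
      rw [e1]
      exact (hc _ _).trans (Nat.mul_le_mul ((hc _ _).trans (Nat.mul_le_mul_right _ hBn')) hBn)
    exact (hc _ _).trans (Nat.mul_le_mul_right _ ((hc _ _).trans
      (Nat.mul_le_mul ((hc _ _).trans (Nat.mul_le_mul_right _ h1)) h2)))
  obtain ⟨N, hNo, hNc, hN⟩ := exists_invariant hVo hVc (φ.comp ι).range
    (b1 * c (φ g) * b2 * c (φ g)⁻¹) (by
      rintro k ⟨w, rfl⟩
      exact hbound w)
  have hnorm : ∀ w : W, φ (ι w) ∈ Subgroup.normalizer (N : Set S) := by
    intro w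
    rw [Subgroup.mem_normalizer_iff]
    intro x
    have h1 := hN (φ (ι w)) ⟨w, rfl⟩
    constructor
    · intro hx
      rw [← h1, mem_smul_iff, ← map_inv, MulAut.conj_apply]
      have e1 : (φ (ι w))⁻¹ * (φ (ι w) * x * (φ (ι w))⁻¹) * ((φ (ι w))⁻¹)⁻¹ = x := by group
      rw [e1]
      exact hx
    · intro hx
      rw [← h1, mem_smul_iff, ← map_inv, MulAut.conj_apply] at hx
      have e1 : (φ (ι w))⁻¹ * (φ (ι w) * x * (φ (ι w))⁻¹) * ((φ (ι w))⁻¹)⁻¹ = x := by group
      rw [e1] at hx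
      exact hx
  let M : Subgroup W := N.comap (φ.comp ι)
  have hMn : M.Normal := by
    refine ⟨fun n hn w => ?_⟩
    have h1 := (Subgroup.mem_normalizer_iff.mp (hnorm w) (φ (ι n))).mp hn
    change φ (ι (w * n * w⁻¹)) ∈ N
    simpa only [map_mul, map_inv] using h1
  have htriv : ∀ k : K, top k ∈ M → k = 1 := by
    intro k hk
    by_contra hk1
    have h1 := hWN M hMn k hk1 hk
    have h2 : ∀ x : E1, φ (ι (base (ι₁ x))) ∈ N := by
      intro x
      obtain ⟨n, hn⟩ := hcomm₁ x
      rw [hn]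
      exact h1 _ _
    have hcomp : CompactSpace N := isCompact_iff_compactSpace.mp hNc
    let θ : E1 →* N :=
      { toFun := fun x => ⟨φ (ι (base (ι₁ x))), h2 x⟩
        map_one' := by simp
        map_mul' := by intro x y; simp }
    apply hE1n N θ
    intro x y hxy
    have h3 : φ (ι (base (ι₁ x))) = φ (ι (base (ι₁ y))) := congrArg Subtype.val hxy
    exact hι₁ (hbase (hι (hφ h3)))
  let ψ : K →* NQ N := (QuotientGroup.mk' _).comp
    { toFun := fun k => ⟨φ (ι (top k)), hnorm (top k)⟩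
      map_one' := by simp
      map_mul' := by intro x y; simp }
  have hψ : Function.Injective ψ := by
    rw [injective_iff_map_eq_one]
    intro k hk
    apply htriv
    have h1 : (QuotientGroup.mk (⟨φ (ι (top k)), hnorm (top k)⟩ : ↥(Subgroup.normalizer (N : Set S))) :
        NQ N) = 1 := hk
    rw [QuotientGroup.eq_one_iff, Subgroup.mem_subgroupOf] at h1
    exact h1
  obtain ⟨i, hi⟩ := he ⟨⟨N, hNo, hNc⟩, ψ a, ψ b⟩
  have h1 : testWord (i + 1) a b = 1 ↔ testWord (i + 1) (ψ a) (ψ b) = 1 := by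
    rw [← testWord_map]
    constructor
    · intro h; rw [h, map_one]
    · intro h; exact hψ (by rw [h, map_one])
  have h2 : i + 1 ∈ J ↔ testWord (i + 1) (ψ a) (ψ b) ≠ 1 := by
    constructor
    · rintro ⟨j, hj, hne⟩
      obtain rfl : i = j := by omega
      rw [hi] at hne
      exact hne
    · intro hne
      refine ⟨i, rfl, ?_⟩
      rw [hi]
      exact hne
  have h3 := hab (i + 1) (by omega)
  tauto

end Pool.Agent.LCUniv
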