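import Mathlib
import Pool.Agent.LCUniv.TD

set_option autoImplicit false

/-! Splitting off the identity component. -/

namespace Pool.Agent.LCUniv

open Topology Pointwise

/-- The group contains a copy of every countable group. -/
def Univ (S : Type) [Group S] : Prop :=
  ∀ (G : Type) [Group G] [Countable G], ∃ f : G →* S, Function.Injective f

/-- If an extension contains every countable group then so does the kernel or the quotient. -/
theorem universal_or (S : Type) [Group S] (N : Subgroup S) [N.Normal] (h : Univ S) :
    Univ N ∨ Univ (S ⧸ N) := by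
  by_contra hcon
  push Not at hcon
  obtain ⟨h1, h2⟩ := hcon
  simp only [Univ, not_forall, not_exists] at h1 h2
  obtain ⟨E1, hE1, hE1c, hE1n⟩ := h1
  obtain ⟨K, hK, hKc, hKn⟩ := h2
  obtain ⟨Ebar, hEb, hEbc, ι₁, s₁, t₁, f₁, g₁, hι₁, -, hcomm₁, -⟩ := exists_G E1
  obtain ⟨W, hW, hWc, top, base, htop, hbase, hWN⟩ := exists_W K Ebar
  obtain ⟨φ, hφ⟩ := h W
  let M : Subgroup W := N.comap φ
  have hMn : M.Normal := inferInstance
  by_cases hM : ∃ k : K, k ≠ 1 ∧ top k ∈ M
  · obtain ⟨k, hk1, hk⟩ := hM
    have h1 := hWN M hMn k hk1 hk
    have h2 : ∀ x : E1, φ (base (ι₁ x)) ∈ N := by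
      intro x
      obtain ⟨n, hn⟩ := hcomm₁ x
      rw [hn]
      exact h1 _ _
    let θ : E1 →* N :=
      { toFun := fun x => ⟨φ (base (ι₁ x)), h2 x⟩
        map_one' := by simp
        map_mul' := by intro x y; simp }
    apply hE1n θ
    intro x y hxy
    have h3 : φ (base (ι₁ x)) = φ (base (ι₁ y)) := congrArg Subtype.val hxy
    exact hι₁ (hbase (hφ h3))
  · push Not at hM
    apply hKn ((QuotientGroup.mk' N).comp (φ.comp top))
    rw [injective_iff_map_eq_one]
    intro k hk
    by_contra hk1
    apply hM k hk1
    have h3 : (QuotientGroup.mk (φ (top k)) : S ⧸ N) = 1 := hk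
    rwa [QuotientGroup.eq_one_iff] at h3

section Comp

variable (S : Type) [Group S] [TopologicalSpace S] [IsTopologicalGroup S]

instance normal_cc : (Subgroup.connectedComponentOfOne S).Normal := by
  refine ⟨fun n hn g => ?_⟩
  have hc : Continuous (fun x : S => g * x * g⁻¹) := by fun_prop
  have h1 := hc.image_connectedComponent_subset (1 : S)
  have h2 : g * 1 * g⁻¹ = (1 : S) := by group
  rw [h2] at h1
  exact h1 ⟨n, hn, rfl⟩

lemma isClosed_cc : IsClosed (Subgroup.connectedComponentOfOne S : Set S) :=
  isClosed_connectedComponent

instance td_quotient : TotallyDisconnectedSpace (S ⧸ Subgroup.connectedComponentOfOne S) := by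
  rw [totallyDisconnectedSpace_iff_connectedComponent_singleton]
  intro q
  have hco : IsCoinducing (QuotientGroup.mk : S → S ⧸ Subgroup.connectedComponentOfOne S) :=
    (QuotientGroup.isQuotientMap_mk _).isCoinducing
  have hcoset : ∀ a : S, (QuotientGroup.mk : S → S ⧸ Subgroup.connectedComponentOfOne S) ⁻¹'
      {(QuotientGroup.mk a : S ⧸ Subgroup.connectedComponentOfOne S)} =
        (fun x => a * x) '' connectedComponent (1 : S) := by
    intro a
    ext x
    simp only [Set.mem_preimage, Set.mem_singleton_iff, Set.mem_image]
    constructor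
    · intro h
      have h1 : a⁻¹ * x ∈ Subgroup.connectedComponentOfOne S := QuotientGroup.eq.mp h.symm
      exact ⟨a⁻¹ * x, h1, by group⟩
    · rintro ⟨y, hy, rfl⟩
      symm
      rw [QuotientGroup.eq, inv_mul_cancel_left]
      exact hy
  have hfib : ∀ y : S ⧸ Subgroup.connectedComponentOfOne S,
      IsConnected ((QuotientGroup.mk : S → S ⧸ Subgroup.connectedComponentOfOne S) ⁻¹' {y}) := by
    intro y
    induction y using QuotientGroup.induction_on with
    | H a =>
      rw [hcoset a]
      exact isConnected_connectedComponent.image _ (by fun_prop)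
  induction q using QuotientGroup.induction_on with
  | H a =>
    have h1 := hco.preimage_connectedComponent hfib a
    apply Set.Subset.antisymm
    · intro y hy
      induction y using QuotientGroup.induction_on with
      | H b =>
        have h2 : b ∈ connectedComponent a := by
          rw [← h1]; exact hy
        have h3 : a⁻¹ * b ∈ connectedComponent (1 : S) := by
          have hc : Continuous (fun x : S => a⁻¹ * x) := by fun_prop
          have h4 := hc.image_connectedComponent_subset a
          have h5 : a⁻¹ * a = 1 := inv_mul_cancel a
          rw [h5] at h4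
          exact h4 ⟨b, h2, rfl⟩
        rw [Set.mem_singleton_iff]
        symm
        rw [QuotientGroup.eq]
        exact h3
    · intro y hy
      rw [Set.mem_singleton_iff] at hy
      rw [hy]
      exact mem_connectedComponent

instance t2_quotient [T2Space S] : T2Space (S ⧸ Subgroup.connectedComponentOfOne S) := by
  have : IsClosed (Subgroup.connectedComponentOfOne S : Set S) := isClosed_cc S
  infer_instance

end Comp

/-- If a second countable locally compact group contains every countable group then so does its
identity component. -/
theorem univ_cc (S : Type) [Group S] [TopologicalSpace S] [IsTopologicalGroup S] [T2Space S]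
    [LocallyCompactSpace S] [SecondCountableTopology S] (h : Univ S) :
    Univ (Subgroup.connectedComponentOfOne S) := by
  rcases universal_or S (Subgroup.connectedComponentOfOne S) h with h1 | h1
  · exact h1
  · exfalso
    obtain ⟨G, hG, hGc, hn⟩ := not_universal_td (S ⧸ Subgroup.connectedComponentOfOne S)
    obtain ⟨f, hf⟩ := h1 G
    exact hn f hf

end Pool.Agent.LCUniv
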