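import Mathlib
import Pool.Agent.LCUniv.Split
import Pool.Agent.LCUniv.Count
import Pool.Agent.LCUniv.NSS

set_option autoImplicit false

/-! Assembly. -/

namespace Pool.Agent.LCUniv

open Topology Pointwise

/-- The statement produced by subgroup trapping. -/
def HasNSSQuotient (S : Type) [Group S] [TopologicalSpace S] : Prop :=
  ∃ N : Subgroup S, N.Normal ∧ IsCompact (N : Set S) ∧ ∃ W ∈ 𝓝 (1 : S), ∀ x : S,
    (∀ i : ℤ, x ^ i ∈ W * (N : Set S)) → x ∈ N

theorem not_univ_compact (C : Type) [Group C] [TopologicalSpace C] [IsTopologicalGroup C]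
    [CompactSpace C] [T2Space C] : ¬ Univ C := by
  intro h
  obtain ⟨E, hE, hEc, hn⟩ := exists_noncompact
  obtain ⟨f, hf⟩ := h E
  exact hn C f hf

theorem not_univ_nss (S : Type) [Group S] [TopologicalSpace S] [IsTopologicalGroup S] [T2Space S]
    [LocallyCompactSpace S] [SecondCountableTopology S]
    (hnss : ∃ W ∈ 𝓝 (1 : S), ∀ x : S, (∀ i : ℤ, x ^ i ∈ W) → x = 1) : ¬ Univ S := by
  intro h
  obtain ⟨B, -, hanti, hinv, hconj, hprod, hprod2, hcov⟩ := nss_estimates hnss
  obtain ⟨G, hG, hGc, hn⟩ := not_universal_of_estimates B hanti hinv hconj hprod hprod2 hcov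
  obtain ⟨f, hf⟩ := h G
  exact hn f hf

theorem not_univ_of_quotient (S : Type) [Group S] [TopologicalSpace S] [IsTopologicalGroup S]
    [T2Space S] [LocallyCompactSpace S] [SecondCountableTopology S] (hq : HasNSSQuotient S) :
    ¬ Univ S := by
  intro h
  obtain ⟨N, hN, hNc, W, hW, hWN⟩ := hq
  rcases universal_or S N h with h1 | h1
  · have : CompactSpace N := isCompact_iff_compactSpace.mp hNc
    exact not_univ_compact N h1
  · have hcl : IsClosed (N : Set S) := hNc.isClosed
    have : T2Space (S ⧸ N) := inferInstance
    refine not_univ_nss (S ⧸ N) ?_ h1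
    refine ⟨(QuotientGroup.mk : S → S ⧸ N) '' W, ?_, ?_⟩
    · have := (QuotientGroup.isOpenMap_coe (N := N)).image_mem_nhds hW
      simpa using this
    · intro x hx
      induction x using QuotientGroup.induction_on with
      | H y =>
        rw [QuotientGroup.eq_one_iff]
        apply hWN
        intro i
        obtain ⟨w, hw, hwy⟩ := hx i
        have h2 : (QuotientGroup.mk w : S ⧸ N) = QuotientGroup.mk (y ^ i) := hwy
        rw [QuotientGroup.eq] at h2
        exact ⟨w, hw, w⁻¹ * y ^ i, h2, by group⟩

theorem not_univ_of_cc (S : Type) [Group S] [TopologicalSpace S] [IsTopologicalGroup S]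
    [T2Space S] [LocallyCompactSpace S] [SecondCountableTopology S]
    (hq : ∀ (C : Type) [Group C] [TopologicalSpace C] [IsTopologicalGroup C]
      [T2Space C] [LocallyCompactSpace C] [SecondCountableTopology C] [ConnectedSpace C],
      HasNSSQuotient C) : ¬ Univ S := by
  intro h
  have h1 := univ_cc S h
  have hcl : IsClosed (Subgroup.connectedComponentOfOne S : Set S) := isClosed_cc S
  have i1 : LocallyCompactSpace (Subgroup.connectedComponentOfOne S) :=
    hcl.isClosedEmbedding_subtypeVal.locallyCompactSpace
  have i2 : SecondCountableTopology (Subgroup.connectedComponentOfOne S) :=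
    inferInstanceAs (SecondCountableTopology
      ((Subgroup.connectedComponentOfOne S : Set S) : Type))
  have i3 : ConnectedSpace (Subgroup.connectedComponentOfOne S) :=
    isConnected_iff_connectedSpace.mp isConnected_connectedComponent
  exact not_univ_of_quotient (Subgroup.connectedComponentOfOne S)
    (hq (Subgroup.connectedComponentOfOne S)) h1

end Pool.Agent.LCUniv
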