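import Mathlib

/-!
# Peter-Weyl: conjugation invariant continuous seminorms on compact groups
-/

set_option autoImplicit false
set_option linter.unusedSectionVars false

open Topology Pointwise MeasureTheory
open scoped InnerProductSpace

namespace Pool.Agent.LCUniv

namespace PW

section Rep

variable {H : Type} [Group H] [TopologicalSpace H] [IsTopologicalGroup H] [CompactSpace H]
  [T2Space H] [SecondCountableTopology H] [MeasurableSpace H] [BorelSpace H]
  (μ : Measure H) [IsProbabilityMeasure μ] [μ.IsHaarMeasure]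
  {E : Type*} [NormedAddCommGroup E] [InnerProductSpace ℝ E] [CompleteSpace E]
  (U : H → E →ₗᵢ[ℝ] E)

/-- The rank one operator. -/
noncomputable def rk (w : E) : E →L[ℝ] E := (innerSL ℝ w).smulRight w

theorem rk_apply (w v : E) : rk w v = (⟪w, v⟫_ℝ) • w := by simp [rk]

theorem continuous_rk : Continuous (rk : E → E →L[ℝ] E) := by
  unfold rk
  exact ((ContinuousLinearMap.smulRightL ℝ E E).isBoundedBilinearMap.continuous.comp
    ((innerSL ℝ).continuous.prodMk continuous_id))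

theorem isCompactOperator_rk (w : E) : IsCompactOperator (rk w : E → E) := by
  have h : (rk w : E → E) = (ContinuousLinearMap.toSpanSingleton ℝ w) ∘ (innerSL ℝ w) := by
    funext v
    simp [rk_apply]
  rw [h]
  exact (isCompactOperator_of_locallyCompactSpace_rng
    (ContinuousLinearMap.toSpanSingleton ℝ w)).comp_clm (innerSL ℝ w)

/-- The averaged operator. -/
noncomputable def TT (ψ : E) : E →L[ℝ] E := ∫ x, rk (U x ψ) ∂μ

variable (hU1 : ∀ v, U 1 v = v) (hUm : ∀ g h v, U (g * h) v = U g (U h v))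
  (hUc : ∀ v, Continuous fun g => U g v)

include hUc in
theorem integrable_rk (ψ : E) : Integrable (fun x => rk (U x ψ)) μ := by
  have hc : Continuous (fun x => rk (U x ψ)) := continuous_rk.comp (hUc ψ)
  exact hc.integrable_of_hasCompactSupport (HasCompactSupport.of_compactSpace _)

include hUc in
theorem TT_apply (ψ v : E) : TT μ U ψ v = ∫ x, (⟪U x ψ, v⟫_ℝ) • U x ψ ∂μ := by
  unfold TT
  rw [ContinuousLinearMap.integral_apply (integrable_rk μ U hUc ψ)]
  simp [rk_apply]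

include hUc in
theorem integrable_aux (ψ v : E) : Integrable (fun x => (⟪U x ψ, v⟫_ℝ) • U x ψ) μ := by
  have hc : Continuous (fun x => (⟪U x ψ, v⟫_ℝ) • U x ψ) :=
    ((hUc ψ).inner continuous_const).smul (hUc ψ)
  exact hc.integrable_of_hasCompactSupport (HasCompactSupport.of_compactSpace _)

include hUc in
theorem TT_compact (ψ : E) : IsCompactOperator (TT μ U ψ : E → E) := by
  have hconv : Convex ℝ {T : E →L[ℝ] E | IsCompactOperator (T : E → E)} := by
    intro T hT T' hT' a b _ _ _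
    exact (IsCompactOperator.smul (S := ℝ) hT a).add (IsCompactOperator.smul (S := ℝ) hT' b)
  have hcl : IsClosed {T : E →L[ℝ] E | IsCompactOperator (T : E → E)} :=
    isClosed_setOfPred_isCompactOperator
  exact hconv.integral_mem hcl (Filter.Eventually.of_forall fun x => isCompactOperator_rk _)
    (integrable_rk μ U hUc ψ)

include hUc in
theorem inner_TT (ψ v w : E) :
    ⟪TT μ U ψ v, w⟫_ℝ = ∫ x, ⟪U x ψ, v⟫_ℝ * ⟪U x ψ, w⟫_ℝ ∂μ := by
  rw [TT_apply μ U hUc, real_inner_comm, ← integral_inner (integrable_aux μ U hUc ψ v)]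
  congr 1
  funext x
  rw [real_inner_smul_right, real_inner_comm (U x ψ) w]

include hUc in
theorem TT_symm (ψ : E) : ((TT μ U ψ : E →L[ℝ] E) : E →ₗ[ℝ] E).IsSymmetric := by
  intro v w
  show ⟪TT μ U ψ v, w⟫_ℝ = ⟪v, TT μ U ψ w⟫_ℝ
  rw [← real_inner_comm v (TT μ U ψ w)]
  rw [inner_TT μ U hUc, inner_TT μ U hUc]
  congr 1
  funext x
  ring

include hUm hUc in
theorem TT_comm (ψ v : E) (g : H) : TT μ U ψ (U g v) = U g (TT μ U ψ v) := by
  rw [TT_apply μ U hUc, TT_apply μ U hUc]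
  have h1 := integral_mul_left_eq_self (μ := μ) (fun x => (⟪U x ψ, U g v⟫_ℝ) • U x ψ) g
  rw [← h1]
  have h2 : ∀ x, (⟪U (g * x) ψ, U g v⟫_ℝ) • U (g * x) ψ
      = (U g).toContinuousLinearMap ((⟪U x ψ, v⟫_ℝ) • U x ψ) := by
    intro x
    rw [hUm, (U g).inner_map_map]
    simp
  simp only [h2]
  exact ContinuousLinearMap.integral_comp_comm _ (integrable_aux μ U hUc ψ v)

include hU1 hUc in
theorem ker_TT (ψ w : E) (hw : TT μ U ψ w = 0) : ⟪ψ, w⟫_ℝ = 0 := by
  have h1 : ∫ x, ⟪U x ψ, w⟫_ℝ * ⟪U x ψ, w⟫_ℝ ∂μ = 0 := by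
    rw [← inner_TT μ U hUc, hw, inner_zero_left]
  have hc : Continuous fun x => ⟪U x ψ, w⟫_ℝ * ⟪U x ψ, w⟫_ℝ :=
    ((hUc ψ).inner continuous_const).mul ((hUc ψ).inner continuous_const)
  have hi : Integrable (fun x => ⟪U x ψ, w⟫_ℝ * ⟪U x ψ, w⟫_ℝ) μ :=
    hc.integrable_of_hasCompactSupport (HasCompactSupport.of_compactSpace _)
  have h2 := (integral_eq_zero_iff_of_nonneg (fun x => mul_self_nonneg _) hi).1 h1
  have h3 := (Continuous.ae_eq_iff_eq μ hc continuous_const).1 h2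
  have h4 := congrFun h3 1
  simp only [hU1] at h4
  exact mul_self_eq_zero.1 h4

include hU1 hUc in
/-- Some eigenvector with nonzero eigenvalue is moved. -/
theorem exists_eigen (ψ : E) (h : H) (hψ : U h ψ ≠ ψ) :
    ∃ l : ℝ, l ≠ 0 ∧ ∃ v ∈ Module.End.eigenspace (TT μ U ψ : E →ₗ[ℝ] E) l, U h v ≠ v := by
  by_contra hcon
  push Not at hcon
  set T : E →ₗ[ℝ] E := (TT μ U ψ : E →ₗ[ℝ] E) with hT
  let F : Submodule ℝ E := LinearMap.eqLocus ((U h).toLinearMap) LinearMap.id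
  have hFmem : ∀ v, v ∈ F ↔ U h v = v := fun v => Iff.rfl
  have hFc : IsClosed (F : Set E) := isClosed_eq (U h).continuous continuous_id
  have : CompleteSpace F := hFc.completeSpace_coe
  obtain ⟨f, hf, w, hw, hfw⟩ := F.exists_add_mem_mem_orthogonal ψ
  have hwl : ∀ l : ℝ, l ≠ 0 → ∀ v ∈ Module.End.eigenspace T l, ⟪v, w⟫_ℝ = 0 := by
    intro l hl v hv
    exact Submodule.inner_right_of_mem_orthogonal ((hFmem v).2 (hcon l hl v hv)) hw
  -- decompose `w` with respect to the kernel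
  let N : Submodule ℝ E := Module.End.eigenspace T 0
  have hNc : IsClosed (N : Set E) := by
    have : (N : Set E) = (TT μ U ψ) ⁻¹' {0} := by
      ext v
      simp only [N, SetLike.mem_coe, Module.End.mem_eigenspace_iff, zero_smul, Set.mem_preimage,
        Set.mem_singleton_iff]
      rfl
    rw [this]
    exact isClosed_singleton.preimage (TT μ U ψ).continuous
  have : CompleteSpace N := hNc.completeSpace_coe
  obtain ⟨w0, hw0, w1, hw1, hw01⟩ := N.exists_add_mem_mem_orthogonal w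
  have hw1' : w1 ∈ (⨆ l, Module.End.eigenspace T l)ᗮ := by
    rw [← Submodule.iInf_orthogonal, Submodule.mem_iInf]
    intro l
    by_cases hl : l = 0
    · subst hl; exact hw1
    · rw [Submodule.mem_orthogonal]
      intro v hv
      have e1 : w1 = w - w0 := by rw [hw01]; abel
      rw [e1, inner_sub_right, hwl l hl v hv]
      have := (TT_symm μ U hUc ψ).orthogonalFamily_eigenspaces hl ⟨v, hv⟩ ⟨w0, hw0⟩
      simpa using this
  rw [ContinuousLinearMap.orthogonalComplement_iSup_eigenspaces_eq_bot (TT_compact μ U hUc ψ)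
    (TT_symm μ U hUc ψ)] at hw1'
  have hw1z : w1 = 0 := by simpa using hw1'
  have hww0 : w = w0 := by rw [hw01, hw1z, add_zero]
  have hTw : TT μ U ψ w = 0 := by
    rw [hww0]
    have h7 := Module.End.mem_eigenspace_iff.1 hw0
    rw [zero_smul] at h7
    exact h7
  have h5 := ker_TT μ U hU1 hUc ψ w hTw
  rw [hfw, inner_add_left, Submodule.inner_right_of_mem_orthogonal hf hw, zero_add] at h5
  have h6 : w = 0 := by simpa using h5
  apply hψ
  rw [hfw, h6, add_zero]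
  exact hf

/-- The difference of `U g` and the identity on an eigenspace. -/
noncomputable def opd (ψ : E) (l : ℝ) (g : H) :
    (Module.End.eigenspace (TT μ U ψ : E →ₗ[ℝ] E) l) →L[ℝ] E :=
  (U g).toContinuousLinearMap.comp
      (Module.End.eigenspace (TT μ U ψ : E →ₗ[ℝ] E) l).subtypeL -
    (Module.End.eigenspace (TT μ U ψ : E →ₗ[ℝ] E) l).subtypeL

/-- The seminorm attached to an eigenspace. -/
noncomputable def sn (ψ : E) (l : ℝ) (g : H) : ℝ := ‖opd μ U ψ l g‖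

theorem sn_nonneg (ψ : E) (l : ℝ) (g : H) : 0 ≤ sn μ U ψ l g := by
  exact norm_nonneg (opd μ U ψ l g)

theorem le_sn (ψ : E) (l : ℝ) (g : H) (v : E)
    (hv : v ∈ Module.End.eigenspace (TT μ U ψ : E →ₗ[ℝ] E) l) :
    ‖U g v - v‖ ≤ sn μ U ψ l g * ‖v‖ := by
  have := ContinuousLinearMap.le_opNorm (opd μ U ψ l g) ⟨v, hv⟩
  simpa [sn, opd] using this

theorem sn_le (ψ : E) (l : ℝ) (g : H) (c : ℝ) (hc : 0 ≤ c)
    (h : ∀ v ∈ Module.End.eigenspace (TT μ U ψ : E →ₗ[ℝ] E) l, ‖U g v - v‖ ≤ c * ‖v‖) :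
    sn μ U ψ l g ≤ c := by
  refine ContinuousLinearMap.opNorm_le_bound _ hc fun v => ?_
  simpa [opd] using h v.1 v.2

include hUm hUc in
theorem inv_mem (ψ : E) (l : ℝ) (g : H) (v : E)
    (hv : v ∈ Module.End.eigenspace (TT μ U ψ : E →ₗ[ℝ] E) l) :
    U g v ∈ Module.End.eigenspace (TT μ U ψ : E →ₗ[ℝ] E) l := by
  rw [Module.End.mem_eigenspace_iff] at hv ⊢
  have h1 : TT μ U ψ v = l • v := hv
  show TT μ U ψ (U g v) = l • U g v
  rw [TT_comm μ U hUm hUc, h1, map_smul]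

include hU1 in
theorem sn_one (ψ : E) (l : ℝ) : sn μ U ψ l 1 = 0 :=
  le_antisymm (sn_le μ U ψ l 1 0 le_rfl fun v _ => by simp [hU1]) (sn_nonneg μ U ψ l 1)

include hUm in
theorem sn_mul (ψ : E) (l : ℝ) (g h : H) :
    sn μ U ψ l (g * h) ≤ sn μ U ψ l g + sn μ U ψ l h := by
  refine sn_le μ U ψ l _ _ (add_nonneg (sn_nonneg _ _ _ _ _) (sn_nonneg _ _ _ _ _))
    fun v hv => ?_
  have e : U (g * h) v - v = U g (U h v - v) + (U g v - v) := by
    rw [hUm, map_sub]; abel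
  rw [e, add_mul]
  refine (norm_add_le _ _).trans ?_
  rw [(U g).norm_map, add_comm]
  exact add_le_add (le_sn μ U ψ l g v hv) (le_sn μ U ψ l h v hv)

include hU1 hUm hUc in
theorem sn_inv_le (ψ : E) (l : ℝ) (g : H) : sn μ U ψ l g⁻¹ ≤ sn μ U ψ l g := by
  refine sn_le μ U ψ l _ _ (sn_nonneg _ _ _ _ _) fun v hv => ?_
  have e : U g (U g⁻¹ v) = v := by rw [← hUm, mul_inv_cancel, hU1]
  have h1 := le_sn μ U ψ l g _ (inv_mem μ U hUm hUc ψ l g⁻¹ v hv)
  rw [e, (U g⁻¹).norm_map, norm_sub_rev] at h1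
  exact h1

include hU1 hUm hUc in
theorem sn_conj_le (ψ : E) (l : ℝ) (g h : H) : sn μ U ψ l (h * g * h⁻¹) ≤ sn μ U ψ l g := by
  refine sn_le μ U ψ l _ _ (sn_nonneg _ _ _ _ _) fun v hv => ?_
  have e : U (h * g * h⁻¹) v - v = U h (U g (U h⁻¹ v) - U h⁻¹ v) := by
    rw [hUm, hUm, map_sub, ← hUm h h⁻¹, mul_inv_cancel, hU1]
  rw [e, (U h).norm_map]
  refine (le_sn μ U ψ l g _ (inv_mem μ U hUm hUc ψ l h⁻¹ v hv)).trans ?_
  rw [(U h⁻¹).norm_map]

include hU1 hUm hUc in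
theorem sn_continuous (ψ : E) (l : ℝ) (hl : l ≠ 0) : Continuous (sn μ U ψ l) := by
  have : FiniteDimensional ℝ (Module.End.eigenspace (TT μ U ψ : E →ₗ[ℝ] E) l) :=
    ContinuousLinearMap.finite_dimensional_eigenspace (TT_compact μ U hUc ψ) l hl
  have hc : Continuous (opd μ U ψ l) := by
    rw [continuous_clm_apply]
    intro v
    exact (hUc v.1).sub (continuous_const (y := v.1))
  have hn : Continuous (fun A : (Module.End.eigenspace (TT μ U ψ : E →ₗ[ℝ] E) l) →L[ℝ] E => ‖A‖) :=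
    continuous_norm (E := (Module.End.eigenspace (TT μ U ψ : E →ₗ[ℝ] E) l) →L[ℝ] E)
  exact hn.comp hc

include hUm hUc in
theorem sn_sq (ψ : E) (l : ℝ) (g : H) :
    2 * sn μ U ψ l g ≤ sn μ U ψ l (g * g) + sn μ U ψ l g * sn μ U ψ l g := by
  have h0 := sn_nonneg μ U ψ l g
  have h00 := sn_nonneg μ U ψ l (g * g)
  suffices h : sn μ U ψ l g ≤ (sn μ U ψ l (g * g) + sn μ U ψ l g * sn μ U ψ l g) / 2 by linarith
  refine sn_le μ U ψ l _ _ (by positivity) fun v hv => ?_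
  have hm : U g v - v ∈ Module.End.eigenspace (TT μ U ψ : E →ₗ[ℝ] E) l :=
    Submodule.sub_mem _ (inv_mem μ U hUm hUc ψ l g v hv) hv
  have e : (2 : ℝ) • (U g v - v) = (U (g * g) v - v) - (U g (U g v - v) - (U g v - v)) := by
    rw [hUm, map_sub, two_smul]; abel
  have h1 : 2 * ‖U g v - v‖ = ‖(2 : ℝ) • (U g v - v)‖ := by rw [norm_smul]; norm_num
  have h2 : ‖(2 : ℝ) • (U g v - v)‖ ≤ sn μ U ψ l (g * g) * ‖v‖ +
      sn μ U ψ l g * (sn μ U ψ l g * ‖v‖) := by
    rw [e]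
    refine (norm_sub_le _ _).trans (add_le_add (le_sn μ U ψ l _ v hv) ?_)
    exact (le_sn μ U ψ l g _ hm).trans
      (mul_le_mul_of_nonneg_left (le_sn μ U ψ l g v hv) h0)
  have h3 : ‖U g v - v‖ ≤ (sn μ U ψ l (g * g) * ‖v‖ +
      sn μ U ψ l g * (sn μ U ψ l g * ‖v‖)) / 2 := by linarith
  calc ‖U g v - v‖ ≤ _ := h3
    _ = _ := by ring

include hUm hUc in
theorem sn_nss (ψ : E) (l : ℝ) (g : H) (h : ∀ i : ℕ, sn μ U ψ l (g ^ i) ≤ 1 / 2) :
    sn μ U ψ l g = 0 := by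
  have key : ∀ k : ℕ, (3 / 2 : ℝ) ^ k * sn μ U ψ l g ≤ sn μ U ψ l (g ^ (2 ^ k)) := by
    intro k
    induction k with
    | zero => simp
    | succ k ih =>
      have h1 := sn_sq μ U hUm hUc ψ l (g ^ (2 ^ k))
      have h2 := h (2 ^ k)
      have h3 := sn_nonneg μ U ψ l (g ^ (2 ^ k))
      rw [← pow_add, ← two_mul, ← pow_succ'] at h1
      have h4 : (3 / 2 : ℝ) * sn μ U ψ l (g ^ (2 ^ k)) ≤ sn μ U ψ l (g ^ 2 ^ (k + 1)) := by
        nlinarith
      rw [pow_succ']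
      nlinarith
  by_contra hne
  have hpos : 0 < sn μ U ψ l g := lt_of_le_of_ne (sn_nonneg _ _ _ _ _) (Ne.symm hne)
  obtain ⟨k, hk⟩ := pow_unbounded_of_one_lt (1 / sn μ U ψ l g) (by norm_num : (1 : ℝ) < 3 / 2)
  have h1 := key k
  have h2 := h (2 ^ k)
  have h3 : 1 < (3 / 2 : ℝ) ^ k * sn μ U ψ l g := by
    rwa [div_lt_iff₀ hpos] at hk
  linarith

end Rep

section Regular

variable {H : Type} [Group H] [TopologicalSpace H] [IsTopologicalGroup H] [CompactSpace H]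
  [T2Space H] [SecondCountableTopology H] [MeasurableSpace H] [BorelSpace H]
  (μ : Measure H) [IsProbabilityMeasure μ] [μ.IsHaarMeasure] [μ.Regular]

/-- The left regular representation on `L²`. -/
noncomputable def reg (g : H) : Lp ℝ 2 μ →ₗᵢ[ℝ] Lp ℝ 2 μ where
  toFun f := DomMulAct.mk g⁻¹ • f
  map_add' f f' := smul_add _ f f'
  map_smul' c f := (smul_comm c (DomMulAct.mk g⁻¹) f).symm
  norm_map' f := DomMulAct.norm_smul_Lp _ f

theorem reg_one (f : Lp ℝ 2 μ) : reg μ 1 f = f := by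
  show DomMulAct.mk (1 : H)⁻¹ • f = f
  rw [inv_one, DomMulAct.mk_one, one_smul]

theorem reg_mul (g h : H) (f : Lp ℝ 2 μ) : reg μ (g * h) f = reg μ g (reg μ h f) := by
  show DomMulAct.mk (g * h)⁻¹ • f = DomMulAct.mk g⁻¹ • DomMulAct.mk h⁻¹ • f
  rw [mul_inv_rev, DomMulAct.mk_mul, mul_smul]

theorem reg_continuous (f : Lp ℝ 2 μ) : Continuous fun g => reg μ g f := by
  show Continuous fun g : H => DomMulAct.mk g⁻¹ • f
  have : Fact ((2 : ENNReal) ≠ ⊤) := ⟨by norm_num⟩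
  have h1 : Continuous fun g : H => DomMulAct.mk g⁻¹ :=
    DomMulAct.continuous_mk.comp continuous_inv
  exact h1.smul continuous_const

end Regular

end PW

theorem exists_seminorm {H : Type} [Group H] [TopologicalSpace H] [IsTopologicalGroup H]
    [CompactSpace H] [T2Space H] [SecondCountableTopology H]
    (O : Set H) (hO : O ∈ 𝓝 (1 : H)) :
    ∃ p : H → ℝ, Continuous p ∧ p 1 = 0 ∧ (∀ g, 0 ≤ p g) ∧ (∀ g h, p (g * h) ≤ p g + p h) ∧
      (∀ g, p g⁻¹ = p g) ∧ (∀ g h, p (h * g * h⁻¹) = p g) ∧ (∀ g, p g = 0 → g ∈ O) ∧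
      (∀ g, (∀ i : ℕ, p (g ^ i) ≤ 1 / 2) → p g = 0) := by
  let _ : MeasurableSpace H := borel H
  have _ : BorelSpace H := ⟨rfl⟩
  let μ : Measure H := Measure.haarMeasure ⊤
  have _ : IsProbabilityMeasure μ := ⟨by
    have := Measure.haarMeasure_self (K₀ := (⊤ : TopologicalSpace.PositiveCompacts H))
    simpa using this⟩
  -- bump
  obtain ⟨f, hf0, hf1, hf2⟩ := exists_continuous_zero_one_of_isClosed (X := H)
    (s := (interior O)ᶜ) (t := {1}) isOpen_interior.isClosed_compl isClosed_singleton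
    (by
      rw [Set.disjoint_singleton_right]
      intro h
      exact h (mem_interior_iff_mem_nhds.2 hO))
  have hfc : Continuous (f : H → ℝ) := f.continuous
  have hmem : MemLp (f : H → ℝ) 2 μ := hfc.memLp_of_hasCompactSupport
    (HasCompactSupport.of_compactSpace _)
  let ψ : Lp ℝ 2 μ := hmem.toLp f
  let U := PW.reg μ
  have hU1 := PW.reg_one μ
  have hUm := PW.reg_mul μ
  have hUc := PW.reg_continuous μ
  have hmove : ∀ h : H, h ∉ interior O → U h ψ ≠ ψ := by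
    intro h hh heq
    have h1 : (U h ψ : Lp ℝ 2 μ) = (hmem.comp_measurePreserving
        (measurePreserving_smul h⁻¹ μ)).toLp (fun x => f (h⁻¹ • x)) := rfl
    rw [h1] at heq
    have h2 := (MemLp.toLp_eq_toLp_iff _ _).1 heq
    have h3 := (Continuous.ae_eq_iff_eq μ (hfc.comp (continuous_const_smul h⁻¹)) hfc).1 h2
    have h4 := congrFun h3 h
    simp only [Function.comp, smul_eq_mul, inv_mul_cancel] at h4
    rw [hf0 hh] at h4
    have h5 := hf1 (Set.mem_singleton (1 : H))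
    rw [h4] at h5
    simp at h5
  -- cover the complement of the neighbourhood
  have hcomp : IsCompact (interior O)ᶜ := isOpen_interior.isClosed_compl.isCompact
  have hex : ∀ h ∈ (interior O)ᶜ, ∃ l : ℝ, l ≠ 0 ∧ 0 < PW.sn μ U ψ l h := by
    intro h hh
    obtain ⟨l, hl, v, hv, hne⟩ := PW.exists_eigen μ U hU1 hUc ψ h (hmove h hh)
    refine ⟨l, hl, ?_⟩
    by_contra hcon
    have h0 : PW.sn μ U ψ l h = 0 := le_antisymm (not_lt.1 hcon) (PW.sn_nonneg μ U ψ l h)
    have h1 := PW.le_sn μ U ψ l h v hv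
    rw [h0, zero_mul] at h1
    exact hne (sub_eq_zero.1 (norm_le_zero_iff.1 h1))
  obtain ⟨F, hF⟩ := hcomp.elim_finite_subcover
    (fun l : {l : ℝ // l ≠ 0} => {h | 0 < PW.sn μ U ψ l.1 h})
    (fun l => isOpen_lt continuous_const (PW.sn_continuous μ U hU1 hUm hUc ψ l.1 l.2))
    (by
      intro h hh
      obtain ⟨l, hl, hlh⟩ := hex h hh
      exact Set.mem_iUnion.2 ⟨⟨l, hl⟩, hlh⟩)
  refine ⟨fun g => ∑ l ∈ F, PW.sn μ U ψ l.1 g, ?_, ?_, ?_, ?_, ?_, ?_, ?_, ?_⟩
  · exact continuous_finsetSum _ fun l _ => PW.sn_continuous μ U hU1 hUm hUc ψ l.1 l.2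
  · exact Finset.sum_eq_zero fun l _ => PW.sn_one μ U hU1 ψ l.1
  · exact fun g => Finset.sum_nonneg fun l _ => PW.sn_nonneg μ U ψ l.1 g
  · intro g h
    rw [← Finset.sum_add_distrib]
    exact Finset.sum_le_sum fun l _ => PW.sn_mul μ U hUm ψ l.1 g h
  · intro g
    refine Finset.sum_congr rfl fun l _ => le_antisymm (PW.sn_inv_le μ U hU1 hUm hUc ψ l.1 g) ?_
    have := PW.sn_inv_le μ U hU1 hUm hUc ψ l.1 g⁻¹
    rwa [inv_inv] at this
  · intro g h
    refine Finset.sum_congr rfl fun l _ =>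
      le_antisymm (PW.sn_conj_le μ U hU1 hUm hUc ψ l.1 g h) ?_
    have := PW.sn_conj_le μ U hU1 hUm hUc ψ l.1 (h * g * h⁻¹) h⁻¹
    have e : h⁻¹ * (h * g * h⁻¹) * h⁻¹⁻¹ = g := by group
    rwa [e] at this
  · intro g hg
    by_contra hgO
    have hg' : g ∈ (interior O)ᶜ := fun h => hgO (interior_subset h)
    obtain ⟨l, hlF, hl⟩ := Set.mem_iUnion₂.1 (hF hg')
    have h1 := (Finset.sum_eq_zero_iff_of_nonneg
      (fun l _ => PW.sn_nonneg μ U ψ l.1 g)).1 hg l hlF
    exact absurd hl (by rw [Set.mem_ofPred_eq, h1]; exact lt_irrefl 0)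
  · intro g hg
    refine Finset.sum_eq_zero fun l hl => ?_
    refine PW.sn_nss μ U hUm hUc ψ l.1 g fun i => ?_
    refine le_trans ?_ (hg i)
    exact Finset.single_le_sum (f := fun l : {l : ℝ // l ≠ 0} => PW.sn μ U ψ l.1 (g ^ i))
      (fun l _ => PW.sn_nonneg μ U ψ l.1 (g ^ i)) hl

end Pool.Agent.LCUniv
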