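import Mathlib
import Pool.Agent.LCUniv.Core
import Pool.Agent.LCUniv.PW

/-!
# Subgroup trapping and the NSS quotient of a connected locally compact group
-/

set_option autoImplicit false
set_option linter.unusedSectionVars false

open Topology Pointwise

namespace Pool.Agent.LCUniv

section Trap

variable {S : Type} [Group S] [TopologicalSpace S] [IsTopologicalGroup S]

/-- Gleason's lemma for sets all of whose elements have small powers. -/
theorem c1 [T2Space S] [LocallyCompactSpace S] [SecondCountableTopology S]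
    (D : Set S) (hD : IsCompact D) (V₀ : Set S) (hV₀ : V₀ ∈ 𝓝 (1 : S)) :
    ∃ V ∈ 𝓝 (1 : S), ∀ (Q : Set S) (L : ℕ), (1 : S) ∈ Q → (∀ q ∈ Q, q⁻¹ ∈ Q) →
      (∀ q ∈ Q, ∀ i : ℕ, q ^ i ∈ V) → 1 ≤ L → Q ^ L ⊆ D → Q ^ (2 * L) ⊆ Q ^ L * V₀ := by
  obtain ⟨c, C, V, hc, hV, hmain⟩ := core D hD V₀ hV₀
  refine ⟨V (c / 8), hV _ (by positivity), ?_⟩
  intro Q L h1 hinv hpow hL hQD
  obtain ⟨φ, hφ1, -, -, hsupp, hd1, hd2⟩ := hmain Q L h1 hinv hL hQD
  have hLpos : (0 : ℝ) < L := by exact_mod_cast hL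
  have hstep : ∀ q ∈ Q, ∀ x, |φ (q * x) - φ x| ≤ 2 * (c / 8) / L := by
    intro q hq x
    have htel : ∀ k : ℕ, (k : ℝ) * (φ (q * x) - φ x) = (φ (q ^ k * x) - φ x) -
        ∑ i ∈ Finset.range k,
          (φ (q * (q ^ i * x)) - φ (q ^ i * x) - φ (q * x) + φ x) := by
      intro k
      induction k with
      | zero => simp
      | succ k ih =>
        rw [Finset.sum_range_succ]
        have e : q ^ (k + 1) * x = q * (q ^ k * x) := by rw [pow_succ', mul_assoc]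
        push_cast
        rw [e]
        linarith
    have h2 := htel L
    have h3 : |φ (q ^ L * x) - φ x| ≤ c / 8 := hd1 _ (by positivity) _ (hpow q hq L) x
    have h4 : |∑ i ∈ Finset.range L,
        (φ (q * (q ^ i * x)) - φ (q ^ i * x) - φ (q * x) + φ x)| ≤ c / 8 := by
      refine (Finset.abs_sum_le_sum_abs _ _).trans ?_
      have h5 : ∀ i ∈ Finset.range L,
          |φ (q * (q ^ i * x)) - φ (q ^ i * x) - φ (q * x) + φ x| ≤ c / 8 / L :=
        fun i _ => hd2 _ (by positivity) _ (hpow q hq i) q hq x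
      refine (Finset.sum_le_sum h5).trans ?_
      rw [Finset.sum_const, Finset.card_range, nsmul_eq_mul]
      exact le_of_eq (by field_simp)
    have h6 : |(L : ℝ) * (φ (q * x) - φ x)| ≤ 2 * (c / 8) := by
      rw [h2]
      refine (abs_sub _ _).trans ?_
      linarith
    rw [abs_mul, abs_of_pos hLpos] at h6
    rw [le_div_iff₀ hLpos]
    linarith
  have hm : ∀ m : ℕ, ∀ g ∈ Q ^ m, |φ g - φ 1| ≤ m * (2 * (c / 8) / L) := by
    intro m
    induction m with
    | zero =>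
      intro g hg
      rw [pow_zero, Set.mem_one] at hg
      simp [hg]
    | succ m ih =>
      intro g hg
      rw [pow_succ'] at hg
      obtain ⟨q, hq, g', hg', rfl⟩ := hg
      have h7 := hstep q hq g'
      have h8 := ih g' hg'
      push_cast
      have e : φ (q * g') - φ 1 = (φ (q * g') - φ g') + (φ g' - φ 1) := by ring
      show |φ (q * g') - φ 1| ≤ _
      rw [e]
      refine (abs_add_le _ _).trans ?_
      linarith
  intro g hg
  apply hsupp
  have h9 := hm (2 * L) g hg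
  have h10 : ((2 * L : ℕ) : ℝ) * (2 * (c / 8) / L) = c / 2 := by
    push_cast
    field_simp
    ring
  rw [h10] at h9
  intro h0
  rw [h0, zero_sub, abs_neg] at h9
  have := le_abs_self (φ 1)
  linarith

/-! ### Limits of sets along an ultrafilter -/

variable (ω : Ultrafilter ℕ)

/-- The limit of a sequence of sets. -/
def limS (A : ℕ → Set S) : Set S := {x | ∀ O ∈ 𝓝 x, ∀ᶠ n in (ω : Filter ℕ), (A n ∩ O).Nonempty}

theorem limS_subset (A : ℕ → Set S) (K : Set S) (hK : IsClosed K)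
    (h : ∀ᶠ n in (ω : Filter ℕ), A n ⊆ K) : limS ω A ⊆ K := by
  intro x hx
  by_contra hxK
  have h1 := hx Kᶜ (hK.isOpen_compl.mem_nhds hxK)
  obtain ⟨n, hn1, y, hy, hy'⟩ := (h.and h1).exists
  exact hy' (hn1 hy)

theorem limS_mono (A B : ℕ → Set S) (h : ∀ᶠ n in (ω : Filter ℕ), A n ⊆ B n) :
    limS ω A ⊆ limS ω B := by
  intro x hx O hO
  filter_upwards [h, hx O hO] with n hn1 hn2
  obtain ⟨y, hy, hyO⟩ := hn2
  exact ⟨y, hn1 hy, hyO⟩

theorem isClosed_limS (A : ℕ → Set S) : IsClosed (limS ω A) := by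
  rw [← closure_subset_iff_isClosed]
  intro x hx O hO
  obtain ⟨O', hO'O, hO'o, hxO'⟩ := mem_nhds_iff.1 hO
  obtain ⟨y, hyO', hy⟩ := mem_closure_iff.1 hx O' hO'o hxO'
  filter_upwards [hy O' (hO'o.mem_nhds hyO')] with n hn
  exact hn.mono (Set.inter_subset_inter_right _ hO'O)

theorem limS_one (A : ℕ → Set S) (h : ∀ n, (1 : S) ∈ A n) : (1 : S) ∈ limS ω A := by
  intro O hO
  exact Filter.Eventually.of_forall fun n => ⟨1, h n, mem_of_mem_nhds hO⟩

theorem limS_inv (A : ℕ → Set S) (h : ∀ n, ∀ x ∈ A n, x⁻¹ ∈ A n) (x : S) (hx : x ∈ limS ω A) :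
    x⁻¹ ∈ limS ω A := by
  intro O hO
  have h1 : (fun y : S => y⁻¹) ⁻¹' O ∈ 𝓝 x := continuous_inv.continuousAt hO
  filter_upwards [hx _ h1] with n hn
  obtain ⟨y, hy, hyO⟩ := hn
  exact ⟨y⁻¹, h n y hy, hyO⟩

theorem limS_mul (A : ℕ → Set S)
    (h : ∀ V₀ ∈ 𝓝 (1 : S), ∀ᶠ n in (ω : Filter ℕ), A n * A n ⊆ A n * V₀)
    (x y : S) (hx : x ∈ limS ω A) (hy : y ∈ limS ω A) : x * y ∈ limS ω A := by
  intro O hO
  have hcont : Continuous fun z : S × S × S => z.1 * z.2.1 * z.2.2⁻¹ := by fun_prop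
  have h1 : (fun z : S × S × S => z.1 * z.2.1 * z.2.2⁻¹) ⁻¹' O ∈ 𝓝 (x, y, (1 : S)) := by
    apply hcont.continuousAt
    simpa using hO
  obtain ⟨Ox, hOx, Or, hOr, h2⟩ := mem_nhds_prod_iff.1 h1
  obtain ⟨Oy, hOy, V₀, hV₀, h3⟩ := mem_nhds_prod_iff.1 hOr
  filter_upwards [hx Ox hOx, hy Oy hOy, h V₀ hV₀] with n hn1 hn2 hn3
  obtain ⟨a, ha, haO⟩ := hn1
  obtain ⟨b, hb, hbO⟩ := hn2
  obtain ⟨z, hz, v, hv, hzv⟩ := hn3 ⟨a, ha, b, hb, rfl⟩
  refine ⟨z, hz, ?_⟩
  have h4 : (a, b, v) ∈ (fun z : S × S × S => z.1 * z.2.1 * z.2.2⁻¹) ⁻¹' O :=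
    h2 ⟨haO, h3 ⟨hbO, hv⟩⟩
  have h5 : a * b * v⁻¹ = z := by
    have : z * v = a * b := hzv
    rw [← this]; group
  simpa [h5] using h4

theorem exists_limit (A : ℕ → Set S) (K : Set S) (hK : IsCompact K) (w : ℕ → S)
    (hw : ∀ᶠ n in (ω : Filter ℕ), w n ∈ K)
    (h : ∀ V₀ ∈ 𝓝 (1 : S), ∀ᶠ n in (ω : Filter ℕ), w n ∈ A n * V₀) :
    ∃ x ∈ limS ω A, ∀ O ∈ 𝓝 x, ∀ᶠ n in (ω : Filter ℕ), w n ∈ O := by
  obtain ⟨x, -, hx⟩ := hK.ultrafilter_le_nhds (ω.map w) (by
    rw [Filter.le_principal_iff]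
    exact hw)
  have hx' : ∀ O ∈ 𝓝 x, ∀ᶠ n in (ω : Filter ℕ), w n ∈ O := fun O hO => hx hO
  refine ⟨x, ?_, hx'⟩
  intro O hO
  have hcont : Continuous fun z : S × S => z.1 * z.2⁻¹ := by fun_prop
  have h1 : (fun z : S × S => z.1 * z.2⁻¹) ⁻¹' O ∈ 𝓝 (x, (1 : S)) := by
    apply hcont.continuousAt
    simpa using hO
  obtain ⟨Ox, hOx, V₀, hV₀, h2⟩ := mem_nhds_prod_iff.1 h1
  filter_upwards [hx' Ox hOx, h V₀ hV₀] with n hn1 hn2
  obtain ⟨z, hz, v, hv, hzv⟩ := hn2
  refine ⟨z, hz, ?_⟩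
  have h4 : (w n, v) ∈ (fun z : S × S => z.1 * z.2⁻¹) ⁻¹' O := h2 ⟨hn1, hv⟩
  have h5 : w n * v⁻¹ = z := by
    have : z * v = w n := hzv
    rw [← this]; group
  simpa [h5] using h4

/-- The set of elements all of whose powers lie in `V`. -/
def QQ (V : Set S) : Set S := {x | ∀ i : ℤ, x ^ i ∈ V}

theorem QQ_inv (V : Set S) (x : S) (hx : x ∈ QQ V) : x⁻¹ ∈ QQ V := by
  intro i
  have := hx (-i)
  rwa [zpow_neg, ← inv_zpow] at this

theorem one_mem_QQ (V : Set S) (hV : (1 : S) ∈ V) : (1 : S) ∈ QQ V := by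
  intro i
  simpa using hV

theorem QQ_subset (V : Set S) : QQ V ⊆ V := by
  intro x hx
  simpa using hx 1

theorem pow_inv_mem (Q : Set S) (hinv : ∀ q ∈ Q, q⁻¹ ∈ Q) (N : ℕ) :
    ∀ x ∈ Q ^ N, x⁻¹ ∈ Q ^ N := by
  have : Q⁻¹ = Q := by
    ext x
    rw [Set.mem_inv]
    exact ⟨fun h => by simpa using hinv _ h, fun h => hinv _ h⟩
  intro x hx
  rw [← Set.mem_inv, ← inv_pow, this]
  exact hx

theorem closure_subset_pow (Q : Set S) (hinv : ∀ q ∈ Q, q⁻¹ ∈ Q) (x : S)
    (hx : x ∈ Subgroup.closure Q) : ∃ N : ℕ, x ∈ Q ^ N := by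
  induction hx using Subgroup.closure_induction with
  | mem x hx => exact ⟨1, by simpa using hx⟩
  | one => exact ⟨0, by simp⟩
  | mul x y _ _ hx hy =>
    obtain ⟨N, hN⟩ := hx
    obtain ⟨M, hM⟩ := hy
    exact ⟨N + M, by rw [pow_add]; exact Set.mul_mem_mul hN hM⟩
  | inv x _ hx =>
    obtain ⟨N, hN⟩ := hx
    exact ⟨N, pow_inv_mem Q hinv N x hN⟩

theorem pow_mono' (Q : Set S) (h1 : (1 : S) ∈ Q) {M N : ℕ} (h : M ≤ N) : Q ^ M ⊆ Q ^ N :=
  Set.pow_subset_pow_right h1 h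

/-- Subgroup trapping. -/
theorem trap [T2Space S] [LocallyCompactSpace S] [SecondCountableTopology S]
    (U₀ : Set S) (hU₀ : U₀ ∈ 𝓝 (1 : S)) :
    ∃ V ∈ 𝓝 (1 : S), ((Subgroup.closure (QQ V) : Subgroup S) : Set S) ⊆ U₀ := by
  classical
  by_contra hcon
  push Not at hcon
  obtain ⟨V, hVb⟩ := (𝓝 (1 : S)).exists_antitone_basis
  set Q : ℕ → Set S := fun n => QQ (V n) with hQdef
  have hV1 : ∀ n, (1 : S) ∈ V n := fun n => mem_of_mem_nhds (hVb.1.mem_of_mem trivial)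
  have hQ1 : ∀ n, (1 : S) ∈ Q n := fun n => one_mem_QQ _ (hV1 n)
  have hQinv : ∀ n, ∀ q ∈ Q n, q⁻¹ ∈ Q n := fun n q hq => QQ_inv _ q hq
  have hQpow : ∀ n, ∀ q ∈ Q n, ∀ i : ℕ, q ^ i ∈ V n := by
    intro n q hq i
    simpa using hq i
  let ω : Ultrafilter ℕ := Filter.hyperfilter ℕ
  have hω : ∀ p : ℕ → Prop, (∀ᶠ n in Filter.atTop, p n) → ∀ᶠ n in (ω : Filter ℕ), p n := by
    intro p hp
    exact Nat.hyperfilter_le_atTop hp
  -- every neighbourhood inside `U₀` is left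
  have hleave : ∀ U : Set S, U ⊆ U₀ → ∀ n, ∃ N : ℕ, ¬ (Q n ^ N ⊆ U) := by
    intro U hU n
    have h1 := hcon (V n) (hVb.1.mem_of_mem trivial)
    obtain ⟨x, hx, hxU⟩ := Set.not_subset.1 h1
    obtain ⟨N, hN⟩ := closure_subset_pow _ (hQinv n) x hx
    exact ⟨N, fun h => hxU (hU (h hN))⟩
  have hLex : ∀ U : Set S, U ⊆ U₀ → (1 : S) ∈ U → ∀ n, ∃ L : ℕ, Q n ^ L ⊆ U ∧
      ¬ (Q n ^ (L + 1) ⊆ U) := by
    intro U hU h1U n
    have h1 := Nat.find_spec (hleave U hU n)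
    have h2 : Nat.find (hleave U hU n) ≠ 0 := by
      intro h0
      rw [h0, pow_zero] at h1
      exact h1 (by simpa using h1U)
    obtain ⟨L, hL⟩ := Nat.exists_eq_succ_of_ne_zero h2
    refine ⟨L, ?_, ?_⟩
    · have := Nat.find_min (hleave U hU n) (m := L) (by omega)
      simpa using this
    · rw [hL] at h1
      exact h1
  -- basic facts for a compact neighbourhood
  have hbasic : ∀ U : Set S, U ⊆ U₀ → IsCompact U → U ∈ 𝓝 (1 : S) → ∀ L : ℕ → ℕ,
      (∀ n, Q n ^ L n ⊆ U ∧ ¬ (Q n ^ (L n + 1) ⊆ U)) →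
      (∀ x y, x ∈ limS ω (fun n => Q n ^ L n) → y ∈ limS ω (fun n => Q n ^ L n) →
        x * y ∈ limS ω (fun n => Q n ^ L n)) ∧
      ¬ (limS ω (fun n => Q n ^ L n) ⊆ interior U) := by
    intro U hU hUc hUn L hL
    have hL1 : ∀ᶠ n in (ω : Filter ℕ), 1 ≤ L n := by
      apply hω
      have h1 : ∀ᶠ n in Filter.atTop, V n ⊆ U := hVb.eventually_subset hUn
      filter_upwards [h1] with n hn
      by_contra h0
      have h0' : L n = 0 := by omega
      apply (hL n).2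
      rw [h0', zero_add, pow_one]
      exact (QQ_subset _).trans hn
    have hdouble : ∀ V₀ ∈ 𝓝 (1 : S), ∀ᶠ n in (ω : Filter ℕ),
        Q n ^ (2 * L n) ⊆ Q n ^ L n * V₀ := by
      intro V₀ hV₀
      obtain ⟨V', hV', hmain⟩ := c1 U hUc V₀ hV₀
      have h1 : ∀ᶠ n in (ω : Filter ℕ), V n ⊆ V' := hω _ (hVb.eventually_subset hV')
      filter_upwards [h1, hL1] with n hn1 hn2
      exact hmain (Q n) (L n) (hQ1 n) (hQinv n) (fun q hq i => hn1 (hQpow n q hq i)) hn2
        (hL n).1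
    constructor
    · intro x y hx hy
      refine limS_mul ω _ ?_ x y hx hy
      intro V₀ hV₀
      filter_upwards [hdouble V₀ hV₀] with n hn
      rw [← pow_add, ← two_mul]
      exact hn
    · intro hsub
      have hwex : ∀ n, ∃ w, w ∈ Q n ^ (L n + 1) ∧ w ∉ U := fun n => Set.not_subset.1 (hL n).2
      choose w hw hwU using hwex
      have hwd : ∀ V₀ ∈ 𝓝 (1 : S), ∀ᶠ n in (ω : Filter ℕ), w n ∈ Q n ^ L n * V₀ := by
        intro V₀ hV₀
        filter_upwards [hdouble V₀ hV₀, hL1] with n hn1 hn2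
        exact hn1 (pow_mono' _ (hQ1 n) (by omega) (hw n))
      have hwK : ∀ᶠ n in (ω : Filter ℕ), w n ∈ U * U := by
        filter_upwards [hwd U hUn] with n hn
        exact Set.mul_subset_mul_right (hL n).1 hn
      obtain ⟨x, hx, hx'⟩ := exists_limit ω _ (U * U) (hUc.mul hUc) w hwK hwd
      have h1 := hx' (interior U) (isOpen_interior.mem_nhds (hsub hx))
      obtain ⟨n, hn⟩ := h1.exists
      exact hwU n (interior_subset hn)
  -- the big compact neighbourhood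
  obtain ⟨U₁, hU₁n, hU₁U, hU₁c⟩ := local_compact_nhds hU₀
  choose L₁ hL₁ using hLex U₁ hU₁U (mem_of_mem_nhds hU₁n)
  obtain ⟨hmul₁, -⟩ := hbasic U₁ hU₁U hU₁c hU₁n L₁ hL₁
  let H : Subgroup S :=
    { carrier := limS ω (fun n => Q n ^ L₁ n)
      mul_mem' := fun {x y} hx hy => hmul₁ x y hx hy
      one_mem' := limS_one ω _ fun n => Set.one_mem_pow (hQ1 n)
      inv_mem' := fun {x} hx => limS_inv ω _ (fun n => pow_inv_mem _ (hQinv n) _) x hx }
  have hHU : (H : Set S) ⊆ U₁ :=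
    limS_subset ω _ U₁ hU₁c.isClosed (Filter.Eventually.of_forall fun n => (hL₁ n).1)
  have hHcl : IsClosed (H : Set S) := isClosed_limS ω _
  have hHc : IsCompact (H : Set S) := hU₁c.of_isClosed_subset hHcl hHU
  have : CompactSpace H := isCompact_iff_compactSpace.mp hHc
  have : SecondCountableTopology H :=
    inferInstanceAs (SecondCountableTopology ((H : Set S) : Type))
  have hO : {h : H | (h : S) ∈ interior U₁} ∈ 𝓝 (1 : H) := by
    have h1 : Continuous (Subtype.val : H → S) := continuous_subtype_val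
    exact h1.continuousAt (isOpen_interior.mem_nhds
      (mem_interior_iff_mem_nhds.2 (by simpa using hU₁n)))
  obtain ⟨p, hpc, hp1, hp0, hpm, hpi, hpconj, hpO, hpn⟩ := exists_seminorm _ hO
  set NN : Set S := Subtype.val '' {h : H | p h = 0} with hNN
  set AA : Set S := Subtype.val '' {h : H | 1 / 2 ≤ p h} with hAA
  have hNNc : IsCompact NN :=
    (isClosed_eq hpc continuous_const).isCompact.image continuous_subtype_val
  have hAAc : IsCompact AA :=
    (isClosed_le continuous_const hpc).isCompact.image continuous_subtype_val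
  have hNNsub : NN ⊆ interior U₁ ∩ AAᶜ := by
    rintro _ ⟨h, hh, rfl⟩
    refine ⟨hpO h hh, ?_⟩
    rintro ⟨h', hh', he⟩
    have : h' = h := Subtype.ext he
    subst this
    have h2 : 1 / 2 ≤ p h' := hh'
    have h3 : p h' = 0 := hh
    rw [h3] at h2
    norm_num at h2
  obtain ⟨U, hUc, hNU, hUsub⟩ := exists_compact_between hNNc
    (isOpen_interior.inter hAAc.isClosed.isOpen_compl) hNNsub
  have h1N : (1 : S) ∈ NN := ⟨1, hp1, rfl⟩
  have hUn : U ∈ 𝓝 (1 : S) := mem_interior_iff_mem_nhds.1 (hNU h1N)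
  have hUU₁ : U ⊆ U₁ := fun x hx => interior_subset (hUsub hx).1
  choose L hL using hLex U (hUU₁.trans hU₁U) (mem_of_mem_nhds hUn)
  obtain ⟨hmul, hnot⟩ := hbasic U (hUU₁.trans hU₁U) hUc hUn L hL
  apply hnot
  have hLL : ∀ n, L n ≤ L₁ n := by
    intro n
    by_contra hlt
    exact (hL₁ n).2 ((pow_mono' _ (hQ1 n) (by omega)).trans ((hL n).1.trans hUU₁))
  have hsubH : limS ω (fun n => Q n ^ L n) ⊆ (H : Set S) :=
    limS_mono ω _ _ (Filter.Eventually.of_forall fun n => pow_mono' _ (hQ1 n) (hLL n))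
  have hsubU : limS ω (fun n => Q n ^ L n) ⊆ U :=
    limS_subset ω _ U hUc.isClosed (Filter.Eventually.of_forall fun n => (hL n).1)
  have hpow : ∀ x ∈ limS ω (fun n => Q n ^ L n), ∀ i : ℕ,
      x ^ i ∈ limS ω (fun n => Q n ^ L n) := by
    intro x hx i
    induction i with
    | zero =>
      rw [pow_zero]
      exact limS_one ω _ fun n => Set.one_mem_pow (hQ1 n)
    | succ i ih =>
      rw [pow_succ]
      exact hmul _ _ ih hx
  intro x hx
  apply hNU
  have hxH : x ∈ H := hsubH hx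
  refine ⟨⟨x, hxH⟩, ?_, rfl⟩
  apply hpn
  intro i
  by_contra hlt
  have h1 : x ^ i ∈ AA := ⟨⟨x, hxH⟩ ^ i, le_of_lt (not_le.1 hlt), rfl⟩
  exact (hUsub (hsubU (hpow x hx i))).2 h1

end Trap

theorem exists_normal_nss {S : Type} [Group S] [TopologicalSpace S] [IsTopologicalGroup S]
    [T2Space S] [LocallyCompactSpace S] [SecondCountableTopology S] [ConnectedSpace S] :
    ∃ N : Subgroup S, N.Normal ∧ IsCompact (N : Set S) ∧ ∃ W ∈ 𝓝 (1 : S), ∀ x : S,
      (∀ i : ℤ, x ^ i ∈ W * (N : Set S)) → x ∈ N := by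
  obtain ⟨U₁, hU₁c, hU₁n⟩ := exists_compact_mem_nhds (1 : S)
  obtain ⟨V, hVn, hVU⟩ := trap U₁ hU₁n
  -- the compact subgroup trapping everything in `V`
  let K : Subgroup S := (Subgroup.closure (QQ V)).topologicalClosure
  have hKcl : IsClosed (K : Set S) := Subgroup.isClosed_topologicalClosure _
  have hKU : (K : Set S) ⊆ U₁ := closure_minimal hVU hU₁c.isClosed
  have hKc : IsCompact (K : Set S) := hU₁c.of_isClosed_subset hKcl hKU
  have : CompactSpace K := isCompact_iff_compactSpace.mp hKc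
  have : SecondCountableTopology K :=
    inferInstanceAs (SecondCountableTopology ((K : Set S) : Type))
  have hQK : QQ V ⊆ (K : Set S) :=
    Subgroup.subset_closure.trans (Subgroup.le_topologicalClosure _)
  -- neighbourhoods
  have hcont : Continuous fun z : S × S => z.1 * z.2 * z.1⁻¹ := by fun_prop
  have hcont' : Continuous fun z : S × S => z.1 * z.2 := by fun_prop
  have h1 : (fun z : S × S => z.1 * z.2 * z.1⁻¹) ⁻¹' V ∩ (fun z : S × S => z.1 * z.2) ⁻¹' V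
      ∈ 𝓝 ((1 : S), (1 : S)) := by
    refine Filter.inter_mem ?_ ?_
    · apply hcont.continuousAt
      simpa using hVn
    · apply hcont'.continuousAt
      simpa using hVn
  obtain ⟨G₀, hG₀, V₀, hV₀, h2⟩ := mem_nhds_prod_iff.1 h1
  have hO : {k : K | (k : S) ∈ V₀} ∈ 𝓝 (1 : K) := by
    have h3 : Continuous (Subtype.val : K → S) := continuous_subtype_val
    exact h3.continuousAt (by simpa using hV₀)
  obtain ⟨p, hpc, hp1, hp0, hpm, hpi, hpconj, hpO, hpn⟩ := exists_seminorm _ hO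
  let N : Subgroup S :=
    { carrier := Subtype.val '' {k : K | p k = 0}
      mul_mem' := by
        rintro _ _ ⟨a, ha, rfl⟩ ⟨b, hb, rfl⟩
        refine ⟨a * b, le_antisymm ((hpm a b).trans ?_) (hp0 _), rfl⟩
        have ha' : p a = 0 := ha
        have hb' : p b = 0 := hb
        rw [ha', hb', add_zero]
      one_mem' := ⟨1, hp1, rfl⟩
      inv_mem' := by
        rintro _ ⟨a, ha, rfl⟩
        exact ⟨a⁻¹, (hpi a).trans ha, rfl⟩ }
  have hNc : IsCompact (N : Set S) :=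
    (isClosed_eq hpc continuous_const).isCompact.image continuous_subtype_val
  set AA : Set S := Subtype.val '' {k : K | 1 / 2 ≤ p k} with hAA
  have hAAc : IsCompact AA :=
    (isClosed_le continuous_const hpc).isCompact.image continuous_subtype_val
  have hNA : ∀ x ∈ N, x ∉ AA := by
    rintro _ ⟨k, hk, rfl⟩ ⟨k', hk', he⟩
    have : k' = k := Subtype.ext he
    subst this
    have h2 : 1 / 2 ≤ p k' := hk'
    have h3 : p k' = 0 := hk
    rw [h3] at h2
    norm_num at h2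
  have hNV₀ : (N : Set S) ⊆ V₀ := by
    rintro _ ⟨k, hk, rfl⟩
    exact hpO k hk
  -- membership criterion
  have hcrit : ∀ x : S, (∀ i : ℤ, x ^ i ∈ V) → (∀ i : ℕ, x ^ i ∉ AA) → x ∈ N := by
    intro x hx hxA
    have hxK : x ∈ K := hQK hx
    refine ⟨⟨x, hxK⟩, ?_, rfl⟩
    apply hpn
    intro i
    by_contra hlt
    exact hxA i ⟨⟨x, hxK⟩ ^ i, le_of_lt (not_le.1 hlt), rfl⟩
  -- tube lemma
  have hev1 : ∀ᶠ g in 𝓝 (1 : S), ∀ x ∈ (N : Set S), g * x * g⁻¹ ∉ AA := by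
    refine IsCompact.eventually_forall_of_forall_eventually
      (P := fun (g : S) (x : S) => g * x * g⁻¹ ∉ AA) hNc ?_
    intro x hx
    have ho : IsOpen ((fun z : S × S => z.1 * z.2 * z.1⁻¹) ⁻¹' AAᶜ) :=
      hAAc.isClosed.isOpen_compl.preimage hcont
    refine ho.mem_nhds ?_
    show (1 : S) * x * (1 : S)⁻¹ ∉ AA
    simpa using hNA x hx
  have hev2 : ∀ᶠ g in 𝓝 (1 : S), ∀ x ∈ (N : Set S), g * x ∉ AA := by
    refine IsCompact.eventually_forall_of_forall_eventually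
      (P := fun (g : S) (x : S) => g * x ∉ AA) hNc ?_
    intro x hx
    have ho : IsOpen ((fun z : S × S => z.1 * z.2) ⁻¹' AAᶜ) :=
      hAAc.isClosed.isOpen_compl.preimage hcont'
    refine ho.mem_nhds ?_
    show (1 : S) * x ∉ AA
    simpa using hNA x hx
  have hconjN : ∀ᶠ g in 𝓝 (1 : S), ∀ x ∈ N, g * x * g⁻¹ ∈ N := by
    filter_upwards [hev1, hG₀] with g hg1 hg0 x hx
    have hpw : ∀ i : ℤ, (g * x * g⁻¹) ^ i = g * x ^ i * g⁻¹ := fun i => conj_zpow
    apply hcrit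
    · intro i
      rw [hpw]
      exact (h2 ⟨hg0, hNV₀ (N.zpow_mem hx i)⟩ : (g, x ^ i) ∈ _).1
    · intro i
      have := hpw i
      rw [zpow_natCast, zpow_natCast] at this
      rw [this]
      exact hg1 _ (N.pow_mem hx i)
  have hnorm : N.Normal := by
    rw [← Subgroup.normalizer_eq_top_iff]
    have hmem : (Subgroup.normalizer (N : Set S) : Set S) ∈ 𝓝 (1 : S) := by
      have h3 : ∀ᶠ g in 𝓝 (1 : S), ∀ x ∈ N, g⁻¹ * x * g⁻¹⁻¹ ∈ N := by
        have : Filter.Tendsto (fun g : S => g⁻¹) (𝓝 1) (𝓝 1) := by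
          have := (continuous_inv (G := S)).tendsto 1
          simpa using this
        exact this.eventually hconjN
      filter_upwards [hconjN, h3] with g hg1 hg2
      rw [SetLike.mem_coe, Subgroup.mem_normalizer_iff]
      intro x
      constructor
      · intro hx
        exact hg1 x hx
      · intro hx
        have := hg2 _ hx
        have e : g⁻¹ * (g * x * g⁻¹) * g⁻¹⁻¹ = x := by group
        rwa [e] at this
    have hopen : IsOpen (Subgroup.normalizer (N : Set S) : Set S) :=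
      Subgroup.isOpen_of_mem_nhds _ hmem
    have hclopen : IsClopen (Subgroup.normalizer (N : Set S) : Set S) :=
      ⟨Subgroup.isClosed_of_isOpen _ hopen, hopen⟩
    have huniv := hclopen.eq_univ ⟨1, Subgroup.one_mem _⟩
    exact SetLike.coe_injective (by simpa using huniv)
  refine ⟨N, hnorm, hNc, G₀ ∩ {g | ∀ x ∈ (N : Set S), g * x ∉ AA},
    Filter.inter_mem hG₀ hev2, ?_⟩
  intro x hx
  apply hcrit
  · intro i
    obtain ⟨g, ⟨hg, -⟩, y, hy, hgy⟩ := hx i
    have : (g, y) ∈ (fun z : S × S => z.1 * z.2 * z.1⁻¹) ⁻¹' V ∩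
        (fun z : S × S => z.1 * z.2) ⁻¹' V := h2 ⟨hg, hNV₀ hy⟩
    have h4 : g * y ∈ V := this.2
    have h5 : g * y = x ^ i := hgy
    rwa [h5] at h4
  · intro i
    obtain ⟨g, ⟨-, hg⟩, y, hy, hgy⟩ := hx i
    have h5 : g * y = x ^ i := by
      have : g * y = x ^ (i : ℤ) := hgy
      rwa [zpow_natCast] at this
    rw [← h5]
    exact hg y hy

end Pool.Agent.LCUniv
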